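import Pool.Agent.Helper253.Emb.Par

set_option autoImplicit false

namespace Pool.Agent.Helper253.Emb

open Quaternion Topology Set Metric Filter
open scoped ContDiff
open Pool.Agent.Helper253.Net

theorem ei_add_pi (θ : ℝ) : ei (θ + Real.pi) = -ei θ := by
  apply Complex.ext
  · rw [Complex.neg_re, ei_re, ei_re, Real.cos_add_pi]
  · rw [Complex.neg_im, ei_im, ei_im, Real.sin_add_pi]

theorem hasDerivAt_comp_neg {E : Type*} [NormedAddCommGroup E] [NormedSpace ℝ E] {f : ℝ → E}
    {f' : E} {x : ℝ} (h : HasDerivAt f f' (-x)) : HasDerivAt (fun x => f (-x)) (-f') x := by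
  have := HasDerivAt.scomp x h (hasDerivAt_neg x)
  exact HasDerivAt.congr_deriv (f := fun x => f (-x)) this (by simp)

namespace Web

variable (W : Web)

/-- Exchange of the two factors. -/
noncomputable def swap : Web where
  f := fun z => star (W.f (-z))
  a := fun v => star (W.b v)
  b := fun u => star (W.a (-u))
  F := fun v => -W.G v
  G := fun u => -W.F (-u)
  θ1 := fun v => W.θ2 v + Real.pi
  θ2 := fun u => W.θ1 (-u)
  sf := by
    have h1 : Differentiable ℝ (fun z : ℂ => W.f (-z)) :=
      W.sf.comp (differentiable_id (𝕜 := ℝ) (E := ℂ)).neg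
    exact starC.differentiable.comp h1
  hf := fun v u => by
    have : -(-W.G v + -W.F (-u)) = W.F (-u) + W.G v := by ring
    rw [this, W.hf, star_mul]
  ua := fun v => by rw [Quaternion.norm_star, W.ub]
  ub := fun u => by rw [Quaternion.norm_star, W.ua]
  c1 := W.c2.add contDiff_const
  c2 := W.c1.comp contDiff_neg
  da := fun v => by
    have := hasDerivAt_star (W.db v)
    rw [star_mul, star_hat] at this
    rw [ei_add_pi, map_neg]
    exact this
  db := fun u => by
    have := hasDerivAt_comp_neg (hasDerivAt_star (W.da (-u)))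
    rw [star_mul, star_hat, neg_mul, neg_neg] at this
    exact this
  dF := fun v => by
    rw [ei_add_pi]
    exact (W.dG v).neg
  dG := fun u => by
    have := (hasDerivAt_comp_neg (W.dF (-u))).neg
    rw [neg_neg] at this
    exact this
  hpos := fun v u => by have := W.hpi (-u) v; linarith
  hpi := fun v u => by have := W.hpos (-u) v; linarith
  abi := fun v u v' u' h => by
    have h2 := congrArg star h
    rw [star_mul, star_mul, star_star, star_star, star_star, star_star] at h2
    obtain ⟨h3, h4⟩ := W.abi _ _ _ _ h2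
    exact ⟨h4, by linarith⟩
  ea := fun η hη => by
    obtain ⟨ε, hε, h⟩ := W.eb η hη
    refine ⟨ε, hε, fun v hv => h v ?_⟩
    rwa [← star_sub, Quaternion.norm_star] at hv
  eb := fun η hη => by
    obtain ⟨ε, hε, h⟩ := W.ea η hη
    refine ⟨ε, hε, fun u hu => ?_⟩
    rw [← star_sub, Quaternion.norm_star, neg_zero] at hu
    have := h (-u) hu
    rwa [abs_neg] at this

/-- Conjugation by the first unit. -/
noncomputable def cj : ℍ[ℝ] →L[ℝ] ℍ[ℝ] :=
  LinearMap.toContinuousLinearMap
    { toFun := fun q => mkq q.re q.imI (-q.imJ) (-q.imK)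
      map_add' := fun x y => by
        ext
        · simp
        · simp
        · simp; ring
        · simp; ring
      map_smul' := fun r x => by ext <;> simp }

theorem cj_apply (q : ℍ[ℝ]) : cj q = mkq q.re q.imI (-q.imJ) (-q.imK) := rfl

theorem cj_mul (p q : ℍ[ℝ]) : cj (p * q) = cj p * cj q := by
  simp only [cj_apply]
  ext <;> simp <;> ring

theorem norm_cj (q : ℍ[ℝ]) : ‖cj q‖ = ‖q‖ := by
  have h1 : ‖cj q‖ ^ 2 = ‖q‖ ^ 2 := by
    rw [norm_sq_eq, norm_sq_eq, cj_apply]; simp
  exact (sq_eq_sq₀ (norm_nonneg _) (norm_nonneg _)).1 h1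

theorem cj_cj (q : ℍ[ℝ]) : cj (cj q) = q := by
  rw [cj_apply, cj_apply]
  ext <;> simp

theorem cj_hat (z : ℂ) : cj (hat z) = hat ((starRingEnd ℂ) z) := by
  rw [cj_apply]
  ext <;> simp

theorem conj_ei (θ : ℝ) : (starRingEnd ℂ) (ei θ) = ei (-θ) := by
  apply Complex.ext
  · rw [Complex.conj_re, ei_re, ei_re, Real.cos_neg]
  · rw [Complex.conj_im, ei_im, ei_im, Real.sin_neg]

theorem hasDerivAt_conj {g : ℝ → ℂ} {g' : ℂ} {x : ℝ} (h : HasDerivAt g g' x) :
    HasDerivAt (fun x => (starRingEnd ℂ) (g x)) ((starRingEnd ℂ) g') x :=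
  (Complex.conjCLE.toContinuousLinearMap.hasFDerivAt).comp_hasDerivAt x h

theorem neg_ei (θ : ℝ) : -ei (-θ) = ei (-Real.pi - θ) := by
  have : -Real.pi - θ + Real.pi = -θ := by ring
  rw [← this, ei_add_pi, neg_neg]

/-- Reflection. -/
noncomputable def refl : Web where
  f := fun z => cj (W.f ((starRingEnd ℂ) z))
  a := fun u => cj (W.a u)
  b := fun v => cj (W.b (-v))
  F := fun u => (starRingEnd ℂ) (W.F u)
  G := fun v => (starRingEnd ℂ) (W.G (-v))
  θ1 := fun u => -W.θ1 u
  θ2 := fun v => -Real.pi - W.θ2 (-v)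
  sf := by
    have h1 : Differentiable ℝ (fun z : ℂ => W.f ((starRingEnd ℂ) z)) :=
      W.sf.comp Complex.conjCLE.differentiable
    exact cj.differentiable.comp h1
  hf := fun u v => by
    rw [← map_add, Complex.conj_conj, W.hf, cj_mul]
  ua := fun v => by rw [norm_cj, W.ua]
  ub := fun u => by rw [norm_cj, W.ub]
  c1 := W.c1.neg
  c2 := contDiff_const.sub (W.c2.comp contDiff_neg)
  da := fun u => by
    have := cj.hasFDerivAt.comp_hasDerivAt u (W.da u)
    rw [cj_mul, cj_hat, conj_ei] at this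
    exact this
  db := fun v => by
    have := cj.hasFDerivAt.comp_hasDerivAt v (hasDerivAt_comp_neg (W.db (-v)))
    rw [map_neg, cj_mul, cj_hat, conj_ei, ← neg_mul, ← map_neg, neg_ei] at this
    exact this
  dF := fun u => by
    have := hasDerivAt_conj (W.dF u)
    rwa [conj_ei] at this
  dG := fun v => by
    have := hasDerivAt_conj (hasDerivAt_comp_neg (W.dG (-v)))
    rwa [map_neg, conj_ei, neg_ei] at this
  hpos := fun u v => by have := W.hpi u (-v); linarith
  hpi := fun u v => by have := W.hpos u (-v); linarith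
  abi := fun u v u' v' h => by
    rw [← cj_mul, ← cj_mul] at h
    have h2 := congrArg cj h
    rw [cj_cj, cj_cj] at h2
    obtain ⟨h3, h4⟩ := W.abi _ _ _ _ h2
    exact ⟨h3, by linarith⟩
  ea := fun η hη => by
    obtain ⟨ε, hε, h⟩ := W.ea η hη
    refine ⟨ε, hε, fun v hv => h v ?_⟩
    rwa [← map_sub, norm_cj] at hv
  eb := fun η hη => by
    obtain ⟨ε, hε, h⟩ := W.eb η hη
    refine ⟨ε, hε, fun u hu => ?_⟩
    rw [← map_sub, norm_cj, neg_zero] at hu
    have := h (-u) hu
    rwa [abs_neg] at this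

end Web

end Pool.Agent.Helper253.Emb
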