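import Pool.Agent.Helper253.Emb.Sym

set_option autoImplicit false

namespace Pool.Agent.Helper253.Emb

open Quaternion Topology Set Metric Filter
open scoped ContDiff
open Pool.Agent.Helper253.Net

/-- One of the parts of a subdivision carries its share of mass. -/
theorem split_mass {μ : ℝ → ℝ} (x : ℝ) {h : ℝ} (hh : 0 ≤ h) {N : ℕ} (hN : 0 < N) :
    ∃ z, x ≤ z ∧ z + h / N ≤ x + h ∧ (μ (x + h) - μ x) / N ≤ μ (z + h / N) - μ z := by
  have hN' : (0 : ℝ) < N := by exact_mod_cast hN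
  have hsum : ∑ i ∈ Finset.range N, (μ (x + (i + 1 : ℕ) * (h / N)) - μ (x + (i : ℕ) * (h / N))) =
      μ (x + h) - μ x := by
    rw [Finset.sum_range_sub (fun i => μ (x + (i : ℕ) * (h / N)))]
    have e1 : (N : ℝ) * (h / N) = h := by field_simp
    rw [e1]; simp
  have hle : ∑ i ∈ Finset.range N, (μ (x + h) - μ x) / N ≤
      ∑ i ∈ Finset.range N, (μ (x + (i + 1 : ℕ) * (h / N)) - μ (x + (i : ℕ) * (h / N))) := by
    rw [hsum, Finset.sum_const, Finset.card_range, nsmul_eq_mul]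
    apply le_of_eq; field_simp
  obtain ⟨i, hi, hle2⟩ := Finset.exists_le_of_sum_le
    (Finset.nonempty_range_iff.2 hN.ne') hle
  rw [Finset.mem_range] at hi
  have hi' : ((i : ℝ) + 1) ≤ N := by exact_mod_cast hi
  have hq : 0 ≤ h / N := by positivity
  refine ⟨x + (i : ℕ) * (h / N), ?_, ?_, ?_⟩
  · have : 0 ≤ (i : ℝ) * (h / N) := by positivity
    linarith
  · have h1 : ((i : ℝ) + 1) * (h / N) ≤ N * (h / N) := mul_le_mul_of_nonneg_right hi' hq
    have h2 : (N : ℝ) * (h / N) = h := by field_simp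
    linarith
  · have e : x + (i : ℕ) * (h / N) + h / N = x + (i + 1 : ℕ) * (h / N) := by push_cast; ring
    rw [e]
    exact hle2

/-- Windows with mass on both sides at two scales. -/
theorem mass_windows {μ : ℝ → ℝ} (hm : Monotone μ) (hc : Continuous μ) {ε0 : ℝ} (hε0 : 0 < ε0)
    (h : ∀ L, ∃ x ≥ L, ε0 ≤ μ (x + 1) - μ x) :
    ∀ κ > 0, ∃ m > 0, ∀ κ' > 0, ∃ m' > 0, ∀ L, ∃ s ≥ L,
      (m ≤ μ (s + κ) - μ s ∧ m ≤ μ s - μ (s - κ)) ∧
      (m' ≤ μ (s + κ') - μ s ∧ m' ≤ μ s - μ (s - κ')) := by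
  intro κ hκ
  obtain ⟨N, hN⟩ := exists_nat_gt (1 / κ)
  have hN0 : (0 : ℝ) < N := lt_trans (by positivity) hN
  have hN' : 0 < N := by exact_mod_cast hN0
  have hNκ : 1 / (N : ℝ) ≤ κ := by
    rw [div_lt_iff₀ hκ] at hN
    rw [div_le_iff₀ hN0]; linarith
  set m : ℝ := ε0 / N / 3 with hmd
  have hm0 : 0 < m := by positivity
  refine ⟨m, hm0, fun κ' hκ' => ?_⟩
  obtain ⟨N', hN1⟩ := exists_nat_gt (1 / κ')
  have hN0' : (0 : ℝ) < N' := lt_trans (by positivity) hN1
  have hN'' : 0 < N' := by exact_mod_cast hN0'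
  have hNκ' : 1 / (N' : ℝ) ≤ κ' := by
    rw [div_lt_iff₀ hκ'] at hN1
    rw [div_le_iff₀ hN0']; linarith
  set m' : ℝ := m / N' / 2 with hmd'
  have hm0' : 0 < m' := by positivity
  refine ⟨m', hm0', fun L => ?_⟩
  obtain ⟨x, hx, hxm⟩ := h L
  obtain ⟨z, hz1, hz2, hz3⟩ := split_mass (μ := μ) x zero_le_one hN'
  have hz4 : 3 * m ≤ μ (z + 1 / N) - μ z := by
    have h2 : ε0 / N ≤ (μ (x + 1) - μ x) / N := div_le_div_of_nonneg_right hxm hN0.le
    have h3 : 3 * m = ε0 / N := by rw [hmd]; ring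
    linarith
  have h1N : 0 < 1 / (N : ℝ) := by positivity
  obtain ⟨y1, hy1, hy1e⟩ := intermediate_value_Icc (show z ≤ z + 1 / N by linarith)
    hc.continuousOn (show μ z + m ∈ Icc (μ z) (μ (z + 1 / N)) from ⟨by linarith, by linarith⟩)
  obtain ⟨y2, hy2, hy2e⟩ := intermediate_value_Icc hy1.2
    hc.continuousOn (show μ z + 2 * m ∈ Icc (μ y1) (μ (z + 1 / N)) from
      ⟨by linarith, by linarith⟩)
  obtain ⟨z', hz1', hz2', hz3'⟩ := split_mass (μ := μ) y1 (h := y2 - y1)
    (by linarith [hy2.1]) hN''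
  have hh : (y2 - y1) / N' ≤ κ' := by
    have h2 : y2 - y1 ≤ 1 := by
      have h3 : (1 : ℝ) / N ≤ 1 := by
        rw [div_le_one hN0]; exact_mod_cast hN'
      linarith [hy1.1, hy2.2]
    exact (div_le_div_of_nonneg_right h2 hN0'.le).trans hNκ'
  have e1 : y1 + (y2 - y1) = y2 := by ring
  rw [e1] at hz2' hz3'
  have hz4' : 2 * m' ≤ μ (z' + (y2 - y1) / N') - μ z' := by
    have h3 : 2 * m' = m / N' := by rw [hmd']; ring
    have h4 : μ y2 - μ y1 = m := by linarith
    rw [h4] at hz3'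
    linarith
  have hq : 0 ≤ (y2 - y1) / N' := div_nonneg (by linarith [hy2.1]) hN0'.le
  obtain ⟨s, hs, hse⟩ := intermediate_value_Icc (show z' ≤ z' + (y2 - y1) / N' by linarith)
    hc.continuousOn (show μ z' + m' ∈ Icc (μ z') (μ (z' + (y2 - y1) / N')) from
      ⟨by linarith, by linarith⟩)
  refine ⟨s, by linarith [hs.1, hy1.1], ⟨?_, ?_⟩, ?_, ?_⟩
  · have h2 := hm (show z + 1 / N ≤ s + κ by linarith [hs.1, hy1.1])
    have h3 := hm (show s ≤ y2 by linarith [hs.2])
    linarith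
  · have h2 := hm (show s - κ ≤ z by linarith [hs.2, hy2.2])
    have h3 := hm (show y1 ≤ s by linarith [hs.1])
    linarith
  · have h2 := hm (show z' + (y2 - y1) / N' ≤ s + κ' by linarith [hs.1])
    linarith
  · have h2 := hm (show s - κ' ≤ z' by linarith [hs.2])
    linarith

theorem unit_steps {μ : ℝ → ℝ} {L ε : ℝ} (h : ∀ x ≥ L, μ (x + 1) - μ x ≤ ε) (k : ℕ) {x : ℝ}
    (hx : L ≤ x) : μ (x + k) - μ x ≤ k * ε := by
  induction k with
  | zero => simp
  | succ k ih =>
    have h1 := h (x + k) (by have : (0 : ℝ) ≤ k := Nat.cast_nonneg k; linarith)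
    push_cast
    have e : x + (k + 1) = x + k + 1 := by ring
    rw [e]
    linarith

/-- Masses tending to zero give small increments on bounded windows. -/
theorem small_increments {μ : ℝ → ℝ} (hm : Monotone μ)
    (h : ∀ ε > 0, ∃ L, ∀ x ≥ L, μ (x + 1) - μ x ≤ ε) {S ε : ℝ} (hS : 0 < S) (hε : 0 < ε) :
    ∃ N : ℕ, ∀ n ≥ N, ∀ s, |s| ≤ S → |μ ((n : ℕ) + s) - μ (n : ℕ)| ≤ ε := by
  obtain ⟨K, hK⟩ := exists_nat_gt S
  have hK0 : (0 : ℝ) < K := hS.trans hK
  obtain ⟨L, hL⟩ := h (ε / K) (by positivity)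
  obtain ⟨N, hN⟩ := exists_nat_gt (L + K)
  refine ⟨N, fun n hn s hs => ?_⟩
  have hn' : (N : ℝ) ≤ n := by exact_mod_cast hn
  rw [abs_le] at hs
  rw [abs_le]
  constructor
  · have h1 := unit_steps hL K (x := (n : ℝ) - K) (by linarith)
    have e : (n : ℝ) - K + K = n := by ring
    have e2 : (K : ℝ) * (ε / K) = ε := by field_simp
    rw [e, e2] at h1
    have h2 := hm (show (n : ℝ) - K ≤ n + s by linarith [hs.1])
    linarith
  · have h1 := unit_steps hL K (x := (n : ℝ)) (by linarith)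
    have e2 : (K : ℝ) * (ε / K) = ε := by field_simp
    rw [e2] at h1
    have h2 := hm (show (n : ℝ) + s ≤ n + K by linarith [hs.2])
    linarith

theorem sin_compare {x y η : ℝ} (h0 : 0 ≤ x) (hxy : x ≤ y) (hy : y ≤ Real.pi - η) (hη : 0 < η)
    (hη2 : η < Real.pi) : Real.sin η * Real.sin x ≤ Real.sin y := by
  have hs : 0 < Real.sin η := Real.sin_pos_of_pos_of_lt_pi hη hη2
  have hx0 : 0 ≤ Real.sin x := Real.sin_nonneg_of_nonneg_of_le_pi h0 (by linarith)
  rcases le_total y (Real.pi / 2) with h | h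
  · have h1 : Real.sin x ≤ Real.sin y :=
      Real.sin_le_sin_of_le_of_le_pi_div_two (by linarith [Real.pi_pos]) h hxy
    have h2 : Real.sin η * Real.sin x ≤ 1 * Real.sin x :=
      mul_le_mul_of_nonneg_right (Real.sin_le_one _) hx0
    linarith
  · have h1 : Real.sin η ≤ Real.sin (Real.pi - y) :=
      Real.sin_le_sin_of_le_of_le_pi_div_two (by linarith [Real.pi_pos]) (by linarith)
        (by linarith)
    rw [Real.sin_pi_sub] at h1
    have h2 : Real.sin η * Real.sin x ≤ Real.sin η * 1 :=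
      mul_le_mul_of_nonneg_left (Real.sin_le_one _) hs.le
    linarith

theorem norm_ei_sub (θ ψ : ℝ) : ‖ei θ - ei ψ‖ = 2 * |Real.sin ((θ - ψ) / 2)| := by
  have h1 : ‖ei θ - ei ψ‖ ^ 2 = (2 * |Real.sin ((θ - ψ) / 2)|) ^ 2 := by
    rw [← Complex.normSq_eq_norm_sq, Complex.normSq_apply, Complex.sub_re, Complex.sub_im, ei_re,
      ei_re, ei_im, ei_im, mul_pow, sq_abs]
    have h2 : Real.cos (θ - ψ) = 1 - 2 * Real.sin ((θ - ψ) / 2) ^ 2 := by
      have h1 := Real.cos_two_mul ((θ - ψ) / 2)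
      rw [mul_div_cancel₀ _ (two_ne_zero' ℝ)] at h1
      have h3 := Real.sin_sq_add_cos_sq ((θ - ψ) / 2)
      linarith
    have h4 := Real.cos_sub θ ψ
    have h5 := Real.sin_sq_add_cos_sq θ
    have h6 := Real.sin_sq_add_cos_sq ψ
    linear_combination h5 + h6 + 2 * h4 - 2 * h2
  exact (sq_eq_sq₀ (norm_nonneg _) (by positivity)).1 h1

/-- Directions near the reference direction. -/
theorem dir_compare {t η : ℝ} (h0 : 0 ≤ t) (h1 : t ≤ Real.pi - η) (hη : 0 < η) :
    Real.sin (η / 2) * (2 * |Real.sin (t / 2)|) ≤ Real.sin t := by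
  have e : Real.sin t = 2 * Real.sin (t / 2) * Real.cos (t / 2) := by
    have := Real.sin_two_mul (t / 2)
    rwa [mul_div_cancel₀ _ (two_ne_zero' ℝ)] at this
  have hs : 0 ≤ Real.sin (t / 2) := Real.sin_nonneg_of_nonneg_of_le_pi (by linarith) (by linarith)
  have hc : Real.sin (η / 2) ≤ Real.cos (t / 2) := by
    rw [← Real.cos_pi_div_two_sub]
    apply Real.cos_le_cos_of_nonneg_of_le_pi (by linarith) (by linarith [Real.pi_pos]) (by linarith)
  rw [e, abs_of_nonneg hs]
  nlinarith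

theorem cos_cone {x η : ℝ} (h1 : -((Real.pi - η) / 2) ≤ x) (h2 : x ≤ (Real.pi - η) / 2)
    (hη : 0 < η) : Real.sin (η / 2) ≤ Real.cos x := by
  rw [← Real.cos_pi_div_two_sub, ← Real.cos_abs x]
  apply Real.cos_le_cos_of_nonneg_of_le_pi (abs_nonneg _) (by linarith [Real.pi_pos])
  rw [abs_le]; constructor <;> linarith

namespace Web

/-- No web has its opening angle bounded away from `π`. -/
theorem caseB (W : Web) {η : ℝ} (hη : 0 < η) (h : ∀ u v, W.θ1 u - W.θ2 v ≤ Real.pi - η) :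
    False := by
  have hη2 : η < Real.pi := by
    have := W.hpos 0 0
    have := h 0 0
    linarith
  have hbdd : BddAbove (range W.θ2) := ⟨W.θ1 0, by
    rintro _ ⟨v, rfl⟩
    have := W.hpos 0 v
    linarith⟩
  set M : ℝ := sSup (range W.θ2) with hMd
  have hM2 : ∀ v, W.θ2 v ≤ M := fun v => le_csSup hbdd (mem_range_self v)
  have hM1 : ∀ u, M ≤ W.θ1 u := fun u => csSup_le (range_nonempty _) (by
    rintro _ ⟨v, rfl⟩
    have := W.hpos u v
    linarith)
  have hup : ∀ u, W.θ1 u - M ≤ Real.pi - η := fun u => by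
    have := h u 0
    have := hM2 0
    linarith
  have hlo : ∀ v, M - W.θ2 v ≤ Real.pi - η := fun v => by
    have := h 0 v
    have := hM1 0
    linarith
  have hs : 0 < Real.sin η := Real.sin_pos_of_pos_of_lt_pi hη hη2
  have hc : 0 < Real.sin (η / 2) := Real.sin_pos_of_pos_of_lt_pi (by linarith) (by linarith)
  -- the mass of the first factor
  set μ : ℝ → ℝ := fun x => cr (ei M) (W.F x) with hμ
  have dμ : ∀ x, HasDerivAt μ (Real.sin (W.θ1 x - M)) x := fun x => by
    rw [← cr_ei]; exact hasDerivAt_cr_right (W.dF x) (ei M)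
  have hμ0 : ∀ x, 0 ≤ Real.sin (W.θ1 x - M) := fun x =>
    Real.sin_nonneg_of_nonneg_of_le_pi (by linarith [hM1 x]) (by linarith [hup x])
  have hμm : Monotone μ := monotone_of_deriv_nonneg (fun x => (dμ x).differentiableAt)
    (fun x => by rw [(dμ x).deriv]; exact hμ0 x)
  have hμc : Continuous μ := continuous_iff_continuousAt.2 fun x => (dμ x).continuousAt
  -- the mass of the second factor
  set ν : ℝ → ℝ := fun x => cr (W.G x) (ei M) with hν
  have dν : ∀ x, HasDerivAt ν (Real.sin (M - W.θ2 x)) x := fun x => by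
    rw [← cr_ei]; exact hasDerivAt_cr_left (W.dG x) (ei M)
  have hν0 : ∀ x, 0 ≤ Real.sin (M - W.θ2 x) := fun x =>
    Real.sin_nonneg_of_nonneg_of_le_pi (by linarith [hM2 x]) (by linarith [hlo x])
  have hνm : Monotone ν := monotone_of_deriv_nonneg (fun x => (dν x).differentiableAt)
    (fun x => by rw [(dν x).deriv]; exact hν0 x)
  have hνc : Continuous ν := continuous_iff_continuousAt.2 fun x => (dν x).continuousAt
  have hcone : W.Cone (Real.sin (η / 2)) (M - (Real.pi - η) / 2) :=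
    ⟨hc, Real.sin_le_one _, fun v => cos_cone (by linarith [hlo v]) (by linarith [hM2 v]) hη⟩
  have hcone' : W.swap.Cone (Real.sin (η / 2)) (M + (Real.pi - η) / 2) :=
    ⟨hc, Real.sin_le_one _, fun v => cos_cone
      (show _ ≤ W.θ1 (-v) - (M + (Real.pi - η) / 2) by linarith [hM1 (-v)])
      (show W.θ1 (-v) - (M + (Real.pi - η) / 2) ≤ _ by linarith [hup (-v)]) hη⟩
  by_cases hA : ∃ ε0 > 0, ∀ L, ∃ x ≥ L, ε0 ≤ μ (x + 1) - μ x
  · obtain ⟨ε0, hε0, hA⟩ := hA
    refine no_windows hcone fun κ hκ => ?_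
    obtain ⟨m, hm, h1⟩ := mass_windows hμm hμc hε0 hA κ hκ
    refine ⟨Real.sin η * m, by positivity, fun κ' hκ' => ?_⟩
    obtain ⟨m', hm', h2⟩ := h1 κ' hκ'
    refine ⟨Real.sin η * m', by positivity, fun L => ?_⟩
    obtain ⟨s, hsL, ⟨g1, g2⟩, g3, g4⟩ := h2 L
    have hcmp : ∀ v x y, x ≤ y → Real.sin η * (μ y - μ x) ≤
        cr (ei (W.θ2 v)) (W.F y - W.F x) := by
      intro v x y hxy
      have := growth (C := 0) (g := fun x => cr (ei (W.θ2 v)) (W.F x) - Real.sin η * μ x)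
        (fun x => (hasDerivAt_cr_right (W.dF x) (ei (W.θ2 v))).sub ((dμ x).const_mul _))
        (fun x => by
          rw [cr_ei]
          have := sin_compare (x := W.θ1 x - M) (y := W.θ1 x - W.θ2 v)
            (by linarith [hM1 x]) (by linarith [hM2 v]) (h x v) hη hη2
          linarith) hxy
      rw [cr_sub_right]
      linarith
    exact ⟨s, hsL, ⟨fun v => (mul_le_mul_of_nonneg_left g1 hs.le).trans
        (hcmp v _ _ (by linarith)), fun v => (mul_le_mul_of_nonneg_left g2 hs.le).trans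
        (hcmp v _ _ (by linarith))⟩, ⟨fun v => (mul_le_mul_of_nonneg_left g3 hs.le).trans
        (hcmp v _ _ (by linarith)), fun v => (mul_le_mul_of_nonneg_left g4 hs.le).trans
        (hcmp v _ _ (by linarith))⟩⟩
  by_cases hB : ∃ ε0 > 0, ∀ L, ∃ x ≥ L, ε0 ≤ ν (x + 1) - ν x
  · obtain ⟨ε0, hε0, hB⟩ := hB
    refine no_windows hcone' fun κ hκ => ?_
    obtain ⟨m, hm, h1⟩ := mass_windows hνm hνc hε0 hB κ hκ
    refine ⟨Real.sin η * m, by positivity, fun κ' hκ' => ?_⟩
    obtain ⟨m', hm', h2⟩ := h1 κ' hκ'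
    refine ⟨Real.sin η * m', by positivity, fun L => ?_⟩
    obtain ⟨s, hsL, ⟨g1, g2⟩, g3, g4⟩ := h2 L
    have hcmp : ∀ v x y, x ≤ y → Real.sin η * (ν y - ν x) ≤
        cr (ei (W.swap.θ2 v)) (W.swap.F y - W.swap.F x) := by
      intro v x y hxy
      have := growth (C := 0) (g := fun x => cr (W.G x) (ei (W.θ1 (-v))) - Real.sin η * ν x)
        (fun x => (hasDerivAt_cr_left (W.dG x) (ei (W.θ1 (-v)))).sub ((dν x).const_mul _))
        (fun x => by
          rw [cr_ei]
          have := sin_compare (x := M - W.θ2 x) (y := W.θ1 (-v) - W.θ2 x)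
            (by linarith [hM2 x]) (by linarith [hM1 (-v)]) (h (-v) x) hη hη2
          linarith) hxy
      have e : cr (ei (W.swap.θ2 v)) (W.swap.F y - W.swap.F x) =
          cr (W.G y - W.G x) (ei (W.θ1 (-v))) := by
        show cr (ei (W.θ1 (-v))) (-W.G y - -W.G x) = _
        simp only [cr, Complex.sub_re, Complex.sub_im, Complex.neg_re, Complex.neg_im]; ring
      rw [e, cr_sub_left]
      linarith
    exact ⟨s, hsL, ⟨fun v => (mul_le_mul_of_nonneg_left g1 hs.le).trans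
        (hcmp v _ _ (by linarith)), fun v => (mul_le_mul_of_nonneg_left g2 hs.le).trans
        (hcmp v _ _ (by linarith))⟩, ⟨fun v => (mul_le_mul_of_nonneg_left g3 hs.le).trans
        (hcmp v _ _ (by linarith)), fun v => (mul_le_mul_of_nonneg_left g4 hs.le).trans
        (hcmp v _ _ (by linarith))⟩⟩
  -- both factors are asymptotically straight and parallel
  push Not at hA hB
  have hA' : ∀ ε > 0, ∃ L, ∀ x ≥ L, μ (x + 1) - μ x ≤ ε := fun ε hε => by
    obtain ⟨L, hL⟩ := hA ε hε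
    exact ⟨L, fun x hx => (hL x hx).le⟩
  have hB' : ∀ ε > 0, ∃ L, ∀ x ≥ L, ν (x + 1) - ν x ≤ ε := fun ε hε => by
    obtain ⟨L, hL⟩ := hB ε hε
    exact ⟨L, fun x hx => (hL x hx).le⟩
  refine W.no_parallel (ψ := M) (x := fun n => (n : ℝ)) (y := fun n => (n : ℝ)) ?_ ?_ ?_ ?_ ?_
  · simp only [Nat.abs_cast]
    exact tendsto_natCast_atTop_atTop
  · intro S hS ε hε
    obtain ⟨N, hN⟩ := small_increments hμm hA' hS (ε := Real.sin (η / 2) * ε) (by positivity)
    refine ⟨N, fun n hn s hs' => ?_⟩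
    have h1 := W.straight_a (ψ := M) (c := Real.sin (η / 2)) (ε := 1) hc (by simp)
      (fun u => by
        rw [norm_ei_sub, one_mul]
        exact dir_compare (by linarith [hM1 u]) (hup u) hη) n s
    refine h1.trans ?_
    have h2 := hN n hn s hs'
    have e : cr (ei M) (W.F (n + s) - W.F n) = μ (n + s) - μ n := by
      rw [cr_sub_right]
    rw [e, one_div, inv_mul_le_iff₀ hc]
    exact h2
  · intro S hS ε hε
    obtain ⟨N, hN⟩ := small_increments hνm hB' hS (ε := Real.sin (η / 2) * ε) (by positivity)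
    refine ⟨N, fun n hn s hs' => ?_⟩
    have h1 := W.straight_b (ψ := M) (c := Real.sin (η / 2)) (ε := -1) hc (by simp)
      (fun u => by
        have e1 : -1 * Real.sin (W.θ2 u - M) = Real.sin (M - W.θ2 u) := by
          rw [← neg_sub M, Real.sin_neg]; ring
        rw [norm_ei_sub, e1]
        have e2 : |Real.sin ((W.θ2 u - M) / 2)| = |Real.sin ((M - W.θ2 u) / 2)| := by
          rw [← abs_neg, ← Real.sin_neg]; congr 2; ring
        rw [e2]
        exact dir_compare (by linarith [hM2 u]) (hlo u) hη) n s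
    refine h1.trans ?_
    have h2 := hN n hn s hs'
    have e : cr (ei M) (W.G (n + s) - W.G n) = -(ν (n + s) - ν n) := by
      simp only [hν, cr, Complex.sub_re, Complex.sub_im]; ring
    rw [e, abs_neg, one_div, inv_mul_le_iff₀ hc]
    exact h2
  · obtain ⟨u, hu⟩ := W.not_const_a M
    refine ⟨u, (Real.sin_pos_of_pos_of_lt_pi ?_ ?_).ne'⟩
    · have := lt_of_le_of_ne (hM1 u) (Ne.symm hu)
      linarith
    · linarith [hup u]
  · obtain ⟨v, hv⟩ := W.not_const_b M
    refine ⟨v, (Real.sin_neg_of_neg_of_neg_pi_lt ?_ ?_).ne⟩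
    · have := lt_of_le_of_ne (hM2 v) hv
      linarith
    · linarith [hlo v]

/-- No web has its opening angle bounded away from `0`. -/
theorem caseB' (W : Web) {η : ℝ} (hη : 0 < η) (h : ∀ u v, η ≤ W.θ1 u - W.θ2 v) : False := by
  refine W.refl.caseB hη fun u v => ?_
  show -W.θ1 u - (-Real.pi - W.θ2 (-v)) ≤ Real.pi - η
  have := h u (-v)
  linarith

end Web

end Pool.Agent.Helper253.Emb
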