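import Pool.Agent.Helper253.Emb.Path

set_option autoImplicit false

namespace Pool.Agent.Helper253.Emb

open Quaternion Topology Set Metric
open scoped ContDiff NNReal
open Pool.Agent.Helper253.Net

/-- In a bounded sequence two terms with given gap are close. -/
theorem close_pair {X : Type*} [PseudoMetricSpace X] [ProperSpace X] {x : ℕ → X} {s : Set X}
    (hs : Bornology.IsBounded s) (hx : ∀ n, x n ∈ s) {ε : ℝ} (hε : 0 < ε) :
    ∃ i j : ℕ, i < j ∧ dist (x i) (x j) < ε := by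
  obtain ⟨a, -, φ, hφ, hlim⟩ := tendsto_subseq_of_bounded hs hx
  have hC := hlim.cauchySeq
  rw [Metric.cauchySeq_iff] at hC
  obtain ⟨N, hN⟩ := hC ε hε
  exact ⟨φ N, φ (N + 1), hφ (Nat.lt_succ_self N), hN N le_rfl (N + 1) (Nat.le_succ N)⟩

instance : ProperSpace ℍ[ℝ] := FiniteDimensional.proper_real ℍ[ℝ]

namespace Web

variable (W : Web)

theorem Win.mono {κ m m' p : ℝ} (h : W.Win κ m p) (hm : m' ≤ m) : W.Win κ m' p :=
  ⟨fun v => hm.trans (h.1 v), fun v => hm.trans (h.2 v)⟩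

/-- Two distant windows with nearly the same shape. -/
theorem window_pair (Good : ℝ → Prop) (hG : ∀ L, ∃ s ≥ L, Good s) {κ δ : ℝ} (hκ : 0 < κ)
    (hδ : 0 < δ) : ∃ s t, Good s ∧ Good t ∧ s + 2 * κ ≤ t ∧
      (∀ r, |r| ≤ κ → ‖W.a (s + r) - W.a (t + r)‖ ≤ δ) ∧
      (∀ r, |r| ≤ κ → ‖W.F (s + r) - W.F s - (W.F (t + r) - W.F t)‖ ≤ δ) := by
  choose g hg1 hg2 using hG
  -- a sequence of windows
  let s : ℕ → ℝ := fun n => Nat.rec (g 0) (fun _ x => g (x + 2 * κ)) n
  have hs1 : ∀ n, Good (s n) := fun n => by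
    cases n with
    | zero => exact hg2 0
    | succ n => exact hg2 _
  have hs2 : ∀ n, s n + 2 * κ ≤ s (n + 1) := fun n => hg1 _
  have hs3 : ∀ i j, i < j → s i + 2 * κ ≤ s j := by
    intro i j hij
    induction j with
    | zero => exact absurd hij (Nat.not_lt_zero _)
    | succ j ih =>
      rcases Nat.lt_succ_iff_lt_or_eq.1 hij with h | h
      · have := ih h
        have := hs2 j
        linarith
      · rw [h]; exact hs2 j
  obtain ⟨N, hN⟩ := exists_nat_gt (8 * κ / δ)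
  have hN0 : 0 < (N : ℝ) := lt_of_le_of_lt (by positivity) hN
  have hstep : 2 * κ / N ≤ δ / 4 := by
    rw [div_lt_iff₀ hδ] at hN
    rw [div_le_iff₀ hN0]
    linarith
  let x : ℕ → (Fin (N + 1) → ℍ[ℝ] × ℂ) := fun n i =>
    (W.a (s n + (-κ + 2 * κ / N * (i : ℕ))), W.F (s n + (-κ + 2 * κ / N * (i : ℕ))) - W.F (s n))
  have hgrid : ∀ i : Fin (N + 1), |(-κ + 2 * κ / N * (i : ℕ))| ≤ κ := by
    intro i
    have hi : ((i : ℕ) : ℝ) ≤ N := by exact_mod_cast Nat.lt_succ_iff.1 i.2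
    have h0 : (0 : ℝ) ≤ (i : ℕ) := Nat.cast_nonneg _
    have h1 : 2 * κ / N * (i : ℕ) ≤ 2 * κ := by
      rw [div_mul_eq_mul_div, div_le_iff₀ hN0]
      nlinarith
    have h2 : 0 ≤ 2 * κ / N * (i : ℕ) := by positivity
    rw [abs_le]; constructor <;> linarith
  have hbd : ∀ n, x n ∈ closedBall (0 : Fin (N + 1) → ℍ[ℝ] × ℂ) (1 + κ) := by
    intro n
    rw [mem_closedBall_zero_iff, pi_norm_le_iff_of_nonneg (by linarith)]
    intro i
    rw [Prod.norm_def]
    refine max_le ?_ ?_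
    · simp only [x]; rw [W.ua]; linarith
    · simp only [x]
      refine (W.lip_F _ _).trans ?_
      rw [add_sub_cancel_left]
      linarith [hgrid i]
  obtain ⟨i, j, hij, hd⟩ := close_pair isBounded_closedBall hbd (ε := δ / 4) (by positivity)
  refine ⟨s i, s j, hs1 i, hs1 j, hs3 i j hij, ?_⟩
  have hcomp : ∀ k : Fin (N + 1), ‖W.a (s i + (-κ + 2 * κ / N * (k : ℕ))) -
      W.a (s j + (-κ + 2 * κ / N * (k : ℕ)))‖ ≤ δ / 4 ∧
      ‖W.F (s i + (-κ + 2 * κ / N * (k : ℕ))) - W.F (s i) -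
        (W.F (s j + (-κ + 2 * κ / N * (k : ℕ))) - W.F (s j))‖ ≤ δ / 4 := by
    intro k
    have h1 := (dist_le_pi_dist (x i) (x j) k).trans hd.le
    rw [Prod.dist_eq, max_le_iff, dist_eq_norm, dist_eq_norm] at h1
    exact h1
  -- a nearby grid point
  have hnear : ∀ r, |r| ≤ κ → ∃ k : Fin (N + 1), |r - (-κ + 2 * κ / N * (k : ℕ))| ≤ δ / 4 := by
    intro r hr
    rw [abs_le] at hr
    set q : ℝ := (r + κ) * N / (2 * κ) with hq
    have hq0 : 0 ≤ q := div_nonneg (mul_nonneg (by linarith [hr.1]) hN0.le) (by linarith)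
    have hqN : q ≤ N := by
      rw [hq, div_le_iff₀ (by linarith)]
      nlinarith [hr.2]
    have hfl : ⌊q⌋₊ ≤ N := by
      have := Nat.floor_le_floor hqN
      rwa [Nat.floor_natCast] at this
    refine ⟨⟨⌊q⌋₊, Nat.lt_succ_of_le hfl⟩, ?_⟩
    have h1 := Nat.floor_le hq0
    have h2 := Nat.lt_floor_add_one q
    have h3 : 2 * κ / N * q = r + κ := by rw [hq]; field_simp
    have h4 : r - (-κ + 2 * κ / N * (⌊q⌋₊ : ℝ)) = 2 * κ / N * (q - ⌊q⌋₊) := by
      rw [mul_sub, h3]; ring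
    simp only
    rw [h4, abs_of_nonneg (mul_nonneg (by positivity) (by linarith))]
    have h5 : q - ⌊q⌋₊ ≤ 1 := by linarith
    calc 2 * κ / N * (q - ⌊q⌋₊) ≤ 2 * κ / N * 1 := mul_le_mul_of_nonneg_left h5 (by positivity)
      _ ≤ δ / 4 := by rw [mul_one]; exact hstep
  constructor
  · intro r hr
    obtain ⟨k, hk⟩ := hnear r hr
    obtain ⟨c1, c2⟩ := hcomp k
    set ρ : ℝ := -κ + 2 * κ / N * (k : ℕ)
    have e : W.a (s i + r) - W.a (s j + r) = (W.a (s i + r) - W.a (s i + ρ)) +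
        (W.a (s i + ρ) - W.a (s j + ρ)) + (W.a (s j + ρ) - W.a (s j + r)) := by abel
    rw [e]
    refine norm_add₃_le.trans ?_
    have l1 := W.lip_a (s i + r) (s i + ρ)
    have l2 := W.lip_a (s j + ρ) (s j + r)
    rw [add_sub_add_left_eq_sub] at l1 l2
    rw [abs_sub_comm] at l2
    linarith
  · intro r hr
    obtain ⟨k, hk⟩ := hnear r hr
    obtain ⟨c1, c2⟩ := hcomp k
    set ρ : ℝ := -κ + 2 * κ / N * (k : ℕ)
    have e : W.F (s i + r) - W.F (s i) - (W.F (s j + r) - W.F (s j)) =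
        (W.F (s i + r) - W.F (s i + ρ)) +
        (W.F (s i + ρ) - W.F (s i) - (W.F (s j + ρ) - W.F (s j))) +
        (W.F (s j + ρ) - W.F (s j + r)) := by ring
    rw [e]
    refine norm_add₃_le.trans ?_
    have l1 := W.lip_F (s i + r) (s i + ρ)
    have l2 := W.lip_F (s j + ρ) (s j + r)
    rw [add_sub_add_left_eq_sub] at l1 l2
    rw [abs_sub_comm] at l2
    linarith

/-- Two distant parameters at which the second factor nearly returns. -/
theorem tight_pair {δ : ℝ} (hδ : 0 < δ) : ∃ v w, 0 < v ∧ v + 1 ≤ w ∧ ‖W.b w - W.b v‖ ≤ δ := by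
  obtain ⟨i, j, hij, hd⟩ := close_pair (x := fun n : ℕ => W.b (n + 1))
    (isBounded_closedBall (x := (0 : ℍ[ℝ])) (r := 1))
    (fun n => by rw [mem_closedBall_zero_iff, W.ub]) hδ
  refine ⟨i + 1, j + 1, by positivity, ?_, ?_⟩
  · have : ((i : ℝ) + 1) ≤ j := by exact_mod_cast hij
    linarith
  · rw [dist_comm, dist_eq_norm] at hd
    exact hd.le

variable {W}

/-- The main argument for windows of definite bending. -/
theorem no_windows {c φ : ℝ} (hc : W.Cone c φ)
    (hwin : ∀ κ > 0, ∃ m > 0, ∀ κ' > 0, ∃ m' > 0, ∀ L, ∃ s ≥ L, W.Win κ m s ∧ W.Win κ' m' s) :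
    False := by
  have hc0 := hc.1
  have hc1 := hc.2.1
  set κ : ℝ := c ^ 2 / 256 with hκd
  have hκ : 0 < κ := by positivity
  have hκs : κ ≤ 1 / 256 := by rw [hκd]; nlinarith
  obtain ⟨m0, hm0, hwin2⟩ := hwin κ hκ
  set m : ℝ := min m0 κ with hmd
  have hm : 0 < m := lt_min hm0 hκ
  have hmκ : m ≤ κ := min_le_right _ _
  have hmm0 : m ≤ m0 := min_le_left _ _
  obtain ⟨ε0, hε0, hεb⟩ := W.eb (c / 4) (by positivity)
  set δ2 : ℝ := min (min (m / 16) (ε0 / 2)) (c ^ 2 / 16) with hδ2d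
  have hδ2 : 0 < δ2 := by positivity
  have hδ2m : δ2 ≤ m / 16 := (min_le_left _ _).trans (min_le_left _ _)
  have hδ2ε : δ2 ≤ ε0 / 2 := (min_le_left _ _).trans (min_le_right _ _)
  have hδ2c : δ2 ≤ c ^ 2 / 16 := min_le_right _ _
  set κ' : ℝ := c * δ2 / 64 with hκ'd
  have hκ' : 0 < κ' := by positivity
  have hκ'δ : κ' ≤ δ2 / 64 := by rw [hκ'd]; nlinarith
  obtain ⟨m', hm', hwin3⟩ := hwin2 κ' hκ'
  set c3 : ℝ := min (min κ' (m' / 8) / 2) (m' * κ' / 4) with hc3d
  have hc3 : 0 < c3 := by positivity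
  set δ : ℝ := min (c3 / 16) (m / 32) with hδd
  have hδ : 0 < δ := by positivity
  have hδc : δ ≤ c3 / 16 := min_le_left _ _
  have hδm : δ ≤ m / 32 := min_le_right _ _
  obtain ⟨s, t, ⟨ws, ws'⟩, ⟨wt, wt'⟩, hst, hca, hcF⟩ := W.window_pair
    (fun s => W.Win κ m s ∧ W.Win κ' m' s)
    (fun L => by
      obtain ⟨s, hs, h1, h2⟩ := hwin3 L
      exact ⟨s, hs, h1.mono W hmm0, h2⟩) hκ hδ
  have hκc : κ ≤ c ^ 2 / 256 := le_of_eq hκd
  have Bs : Base W c φ κ m s s := ⟨hc, hκ, hκc, hm, hmκ, ws, by rw [sub_self, norm_zero]; positivity⟩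
  have Bt : Base W c φ κ m s t := ⟨hc, hκ, hκc, hm, hmκ, wt, by
    have := hca 0 (by rw [abs_zero]; exact hκ.le)
    rw [add_zero, add_zero, norm_sub_rev] at this
    linarith⟩
  have hsm' := Bs.small'
  obtain ⟨y0, hy0, hlow⟩ := lower_a Bt hκ' (by linarith) hm' ws' (by
    rw [abs_sub_comm, abs_of_nonneg (by linarith)]; linarith)
  -- the sign of the separation of the two sheets
  have h1m : ‖(1 : ℍ[ℝ]) - 1‖ ≤ m / 4 := by rw [sub_self, norm_zero]; positivity
  have hone_cont : Continuous (fun v => Bt.ht v 1) := by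
    rw [Metric.continuous_iff]
    intro v ε hε
    refine ⟨ε / 8, by positivity, fun v' hv' => ?_⟩
    have h1 := Bt.cmp_v (v := v') (v' := v) h1m h1m
    rw [sub_self, norm_zero, mul_zero, zero_add] at h1
    rw [Real.dist_eq] at hv' ⊢
    linarith
  have hone_ne : ∀ v, Bt.ht v 1 ≠ 0 := fun v h => by
    have := hlow v
    rw [h, abs_zero] at this
    linarith
  have hone_sgn : ∀ v w, 0 < Bt.ht v 1 * Bt.ht w 1 := by
    intro v w
    rcases le_total v w with h | h
    · exact sign_const h hone_cont.continuousOn (fun x _ => hone_ne x)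
    · rw [mul_comm]
      exact sign_const h hone_cont.continuousOn (fun x _ => hone_ne x)
  -- a tight pair
  set δ3 : ℝ := min (y0 / 8) κ' with hδ3d
  have hδ3 : 0 < δ3 := by positivity
  have hδ3y : δ3 ≤ y0 / 8 := min_le_left _ _
  have hδ3κ : δ3 ≤ κ' := min_le_right _ _
  obtain ⟨v1, w1, hv1, hvw1, htight⟩ := W.tight_pair hδ3
  -- the key contradiction for an ordered pair with opposite signs
  have key : ∀ v0 v0' : ℝ, 0 < v0 → c / 4 < |v0' - v0| → ‖W.b v0' - W.b v0‖ ≤ δ3 →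
      Bs.ht v0 (W.b v0' * star (W.b v0)) * Bt.ht v0 (W.b v0' * star (W.b v0)) < 0 → False := by
    intro v0 v0' hv0 hvv hb hsgn
    have hb' : ‖W.b v0' * star (W.b v0) - 1‖ ≤ δ3 := by rw [W.norm_b_star]; exact hb
    obtain ⟨T, v, v', hT, hvc, hvc', hv00, hv00', hip, hpath, hend⟩ := drag hc hδ2
      (show δ2 < ε0 by linarith) hεb (by nlinarith) hv0 hvv (by linarith)
    have hQ : ∀ τ ∈ Icc 0 T, ‖W.b (v' τ) * star (W.b (v τ)) - 1‖ ≤ m / 4 := fun τ hτ => by
      have := (hpath τ hτ).1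
      linarith
    have hcont : ∀ (p : ℝ) (B : Base W c φ κ m s p),
        ContinuousOn (fun τ => B.ht (v τ) (W.b (v' τ) * star (W.b (v τ)))) (Icc 0 T) := by
      intro p B
      have hcb := W.cont_b
      have hEc : Continuous (fun τ => W.b (v' τ) * star (W.b (v τ))) := by fun_prop
      intro τ hτ
      rw [ContinuousWithinAt, Metric.tendsto_nhdsWithin_nhds]
      intro ε hε
      obtain ⟨d1, hd1, hd2⟩ := Metric.continuous_iff.1 hEc τ (ε / 4) (by positivity)
      obtain ⟨d3, hd3, hd4⟩ := Metric.continuous_iff.1 hvc τ (ε / 16) (by positivity)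
      refine ⟨min d1 d3, lt_min hd1 hd3, fun {τ'} hτ' hdist => ?_⟩
      have h1 := hd2 τ' (lt_of_lt_of_le hdist (min_le_left _ _))
      have h2 := hd4 τ' (lt_of_lt_of_le hdist (min_le_right _ _))
      have h3 := B.cmp_v (v := v τ') (v' := v τ) (hQ τ' hτ') (hQ τ hτ)
      rw [dist_eq_norm] at h1
      rw [Real.dist_eq] at h2 ⊢
      linarith
    have hrw : ∀ τ, W.b (v' τ) * star (W.b (v τ)) =
        star (W.a s) * W.a s * (W.b (v' τ) * star (W.b (v τ))) := fun τ => by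
      rw [star_mul_self1 (W.ua s), one_mul]
    have hne_s : ∀ τ ∈ Icc 0 T, Bs.ht (v τ) (W.b (v' τ) * star (W.b (v τ))) ≠ 0 := by
      intro τ hτ h
      have h1 := hQ τ hτ
      rw [hrw τ] at h h1
      have h2 := (Bs.zero_height h1 h).2
      have h3 := (hpath τ hτ).2
      linarith
    have hne_t : ∀ τ ∈ Icc 0 T, Bt.ht (v τ) (W.b (v' τ) * star (W.b (v τ))) ≠ 0 := by
      intro τ hτ h
      have h1 := hQ τ hτ
      rw [hrw τ] at h h1
      have h2 := (Bt.zero_height h1 h).1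
      rw [abs_lt] at h2
      linarith [h2.1, h2.2]
    have s1 := sign_const hT (hcont s Bs) hne_s
    have s2 := sign_const hT (hcont t Bt) hne_t
    rw [hv00, hv00'] at s1 s2
    have hlb := lower_b Bs (v := v T) (v' := v' T) hδ2 (by linarith) hm' ws'
      (hpath T ⟨hT, le_refl T⟩).2 hend (by
        rw [hip T]
        have e : ip (W.b v0' * star (W.b v0)) (hat (ei φ)) =
            ip (W.b v0' * star (W.b v0) - 1) (hat (ei φ)) := by
          rw [ip_sub]
          have : ip (1 : ℍ[ℝ]) (hat (ei φ)) = 0 := by rw [ip_eq]; simp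
          rw [this, sub_zero]
        rw [e]
        have h1 := abs_ip_le (W.b v0' * star (W.b v0) - 1) (hat (ei φ))
        rw [norm_hat, norm_ei, mul_one] at h1
        linarith)
    have hcmp := cmp_p Bs Bt hδ.le (by linarith) hca hcF (hQ T ⟨hT, le_refl T⟩) (v := v T)
    set X := Bs.ht (v T) (W.b (v' T) * star (W.b (v T)))
    set Y := Bt.ht (v T) (W.b (v' T) * star (W.b (v T)))
    set X0 := Bs.ht v0 (W.b v0' * star (W.b v0))
    set Y0 := Bt.ht v0 (W.b v0' * star (W.b v0))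
    have hlb' : c3 ≤ |X| := hlb
    have hcmp' : |X - Y| ≤ c3 / 2 := by linarith
    -- X and Y have the same sign
    have hXY : 0 < X * Y := by
      rw [abs_le] at hcmp'
      rcases le_abs.1 hlb' with h | h
      · have : 0 < Y := by linarith [hcmp'.2]
        have : 0 < X := by linarith
        positivity
      · have h1 : Y < 0 := by linarith [hcmp'.1]
        have h2 : X < 0 := by linarith
        exact mul_pos_of_neg_of_neg h2 h1
    have : 0 < (X0 * X) * (Y0 * Y) := mul_pos s1 s2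
    have h2 : (X0 * X) * (Y0 * Y) = (X0 * Y0) * (X * Y) := by ring
    rw [h2] at this
    have h3 : (X0 * Y0) * (X * Y) < 0 := mul_neg_of_neg_of_pos hsgn hXY
    linarith
  -- sign of the heights over the second sheet
  have hnear : ∀ v0 v0' : ℝ, ‖W.b v0' - W.b v0‖ ≤ δ3 →
      0 < Bt.ht v0 (W.b v0' * star (W.b v0)) * Bt.ht v0 1 := by
    intro v0 v0' hb
    have hb' : ‖W.b v0' * star (W.b v0) - 1‖ ≤ δ3 := by rw [W.norm_b_star]; exact hb
    have h1 := Bt.cmp_v (v := v0) (v' := v0) (Q := W.b v0' * star (W.b v0)) (R := 1)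
      (by linarith) h1m
    rw [sub_self, abs_zero, mul_zero, add_zero] at h1
    have h2 := hlow v0
    have h3 : |Bt.ht v0 (W.b v0' * star (W.b v0)) - Bt.ht v0 1| ≤ y0 / 4 := by linarith
    rw [abs_le] at h3
    rcases le_abs.1 h2 with h | h
    · have : 0 < Bt.ht v0 (W.b v0' * star (W.b v0)) := by linarith [h3.1]
      have : 0 < Bt.ht v0 1 := by linarith
      positivity
    · have h4 : Bt.ht v0 (W.b v0' * star (W.b v0)) < 0 := by linarith [h3.2]
      have h5 : Bt.ht v0 1 < 0 := by linarith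
      exact mul_pos_of_neg_of_neg h4 h5
  have hflip := flip Bs (v := v1) (v' := w1) (by
      rw [abs_of_nonneg (by linarith)]; linarith) (by rw [W.norm_b_star]; linarith)
  have n1 := hnear v1 w1 htight
  have n2 := hnear w1 v1 (by rw [norm_sub_rev]; exact htight)
  have n3 := hone_sgn v1 w1
  set X1 := Bs.ht v1 (W.b w1 * star (W.b v1)) with hX1
  set X2 := Bs.ht w1 (W.b v1 * star (W.b w1)) with hX2
  set Y1 := Bt.ht v1 (W.b w1 * star (W.b v1)) with hY1
  set Y2 := Bt.ht w1 (W.b v1 * star (W.b w1)) with hY2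
  set Z1 := Bt.ht v1 1
  set Z2 := Bt.ht w1 1
  have hgap1 : c / 4 < |w1 - v1| := by rw [abs_of_nonneg (by linarith)]; linarith
  have hgap2 : c / 4 < |v1 - w1| := by rw [abs_sub_comm]; exact hgap1
  rcases lt_or_ge (X1 * Y1) 0 with h | h
  · exact key v1 w1 hv1 hgap1 htight h
  · -- then the swapped pair has opposite signs
    refine key w1 v1 (by linarith) hgap2 (by rw [norm_sub_rev]; exact htight) ?_
    -- signs
    by_contra hcon
    push Not at hcon
    -- product of everything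
    have hY : 0 < Y1 * Y2 := by
      have h4 : 0 < (Y1 * Z1) * (Y2 * Z2) := mul_pos n1 n2
      have h5 : (Y1 * Z1) * (Y2 * Z2) = (Y1 * Y2) * (Z1 * Z2) := by ring
      rw [h5] at h4
      exact (pos_iff_pos_of_mul_pos h4).2 n3
    have h6 : 0 ≤ (X1 * Y1) * (X2 * Y2) := mul_nonneg h hcon
    have h7 : (X1 * Y1) * (X2 * Y2) = (X1 * X2) * (Y1 * Y2) := by ring
    rw [h7] at h6
    have h8 : (X1 * X2) * (Y1 * Y2) < 0 := mul_neg_of_neg_of_pos hflip hY
    linarith

end Web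

end Pool.Agent.Helper253.Emb
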