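import Pool.Agent.Helper253.Emb.Height

set_option autoImplicit false

namespace Pool.Agent.Helper253.Emb

open Quaternion Topology Set Metric
open scoped ContDiff
open Pool.Agent.Helper253.Net

theorem ip_hat (θ φ : ℝ) : ip (hat (ei θ)) (hat (ei φ)) = Real.cos (θ - φ) := by
  rw [ip_eq, Real.cos_sub]
  simp [ei_re, ei_im]

theorem hasDerivAt_ip {g : ℝ → ℍ[ℝ]} {g' : ℍ[ℝ]} {x : ℝ} (h : HasDerivAt g g' x) (y : ℍ[ℝ]) :
    HasDerivAt (fun x => ip (g x) y) (ip g' y) x := by
  have h1 := h.mul_const (star y)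
  exact reL.hasFDerivAt.comp_hasDerivAt x h1

namespace Web

variable {W : Web}

theorem a_inj (W : Web) : Function.Injective W.a := fun u u' h =>
  (W.abi u 0 u' 0 (by rw [h])).1

theorem b_inj (W : Web) : Function.Injective W.b := fun v v' h =>
  (W.abi 0 v 0 v' (by rw [h])).2

/-- Rates of the chord function. -/
theorem Cone.rate {c φ : ℝ} (hc : W.Cone c φ) (x : ℝ) {q : ℍ[ℝ]} {η : ℝ} (hq : ‖q - 1‖ ≤ η) :
    c - η ≤ ip (hat (ei (W.θ2 x)) * q) (hat (ei φ)) := by
  have e : hat (ei (W.θ2 x)) * q = hat (ei (W.θ2 x)) + hat (ei (W.θ2 x)) * (q - 1) := by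
    noncomm_ring
  rw [e, ip_add, ip_hat]
  have h1 := hc.2.2 x
  have h2 := abs_ip_le (hat (ei (W.θ2 x)) * (q - 1)) (hat (ei φ))
  rw [norm_mul, norm_hat, norm_hat, norm_ei, norm_ei, one_mul, mul_one, abs_le] at h2
  linarith [h2.1]

theorem Cone.rate' {c φ : ℝ} (hc : W.Cone c φ) (x : ℝ) {q : ℍ[ℝ]} {η : ℝ} (hq : ‖q - 1‖ ≤ η) :
    c - η ≤ ip (q * hat (ei (W.θ2 x))) (hat (ei φ)) := by
  have e : q * hat (ei (W.θ2 x)) = hat (ei (W.θ2 x)) + (q - 1) * hat (ei (W.θ2 x)) := by
    noncomm_ring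
  rw [e, ip_add, ip_hat]
  have h1 := hc.2.2 x
  have h2 := abs_ip_le ((q - 1) * hat (ei (W.θ2 x))) (hat (ei φ))
  rw [norm_mul, norm_hat, norm_hat, norm_ei, norm_ei, mul_one, mul_one, abs_le] at h2
  linarith [h2.1]

theorem norm_b_star (W : Web) (v v' : ℝ) : ‖W.b v' * star (W.b v) - 1‖ = ‖W.b v' - W.b v‖ := by
  have e : W.b v' * star (W.b v) - 1 = (W.b v' - W.b v) * star (W.b v) := by
    rw [sub_mul, self_mul_star1 (W.ub v)]
  rw [e, norm_mul, norm_star, W.ub, mul_one]

theorem norm_a_star (W : Web) (u u' : ℝ) : ‖star (W.a u) * W.a u' - 1‖ = ‖W.a u' - W.a u‖ := by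
  have e : star (W.a u) * W.a u' - 1 = star (W.a u) * (W.a u' - W.a u) := by
    rw [mul_sub, star_mul_self1 (W.ua u)]
  rw [e, norm_mul, norm_star, W.ua, one_mul]

/-- Chord cone for the second factor. -/
theorem Cone.chord {c φ : ℝ} (hc : W.Cone c φ) {v w : ℝ} (h : |w - v| ≤ c / 2) :
    c / 2 * |w - v| ≤ |ip (W.b w * star (W.b v)) (hat (ei φ))| := by
  have hc0 := hc.1
  have hd : ∀ x, HasDerivAt (fun x => ip (W.b x * star (W.b v)) (hat (ei φ)))
      (ip (hat (ei (W.θ2 x)) * (W.b x * star (W.b v))) (hat (ei φ))) x := fun x => by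
    have := hasDerivAt_ip ((W.db x).mul_const (star (W.b v))) (hat (ei φ))
    rwa [mul_assoc] at this
  have hg := (convex_Icc (v - c / 2) (v + c / 2)).mul_sub_le_image_sub_of_le_deriv
    (f := fun x => ip (W.b x * star (W.b v)) (hat (ei φ))) (C := c / 2)
    (fun x _ => (hd x).continuousAt.continuousWithinAt)
    (fun x _ => (hd x).differentiableAt.differentiableWithinAt)
    (fun x hx => by
      rw [(hd x).deriv]
      have hx' := interior_subset hx
      have h1 : ‖W.b x * star (W.b v) - 1‖ ≤ c / 2 := by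
        rw [W.norm_b_star]
        refine (W.lip_b x v).trans ?_
        rw [abs_le]; constructor <;> linarith [hx'.1, hx'.2]
      have := hc.rate x h1
      linarith)
  have hv0 : ip (W.b v * star (W.b v)) (hat (ei φ)) = 0 := by
    rw [self_mul_star1 (W.ub v), ip_eq]; simp
  rw [abs_le] at h
  have hvm : v ∈ Icc (v - c / 2) (v + c / 2) := ⟨by linarith, by linarith⟩
  have hwm : w ∈ Icc (v - c / 2) (v + c / 2) := ⟨by linarith [h.1], by linarith [h.2]⟩
  rcases le_total v w with hvw | hvw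
  · have h1 := hg v hvm w hwm hvw
    simp only [hv0, sub_zero] at h1
    rw [abs_of_nonneg (by linarith : 0 ≤ w - v)]
    exact h1.trans (le_abs_self _)
  · have h1 := hg w hwm v hvm hvw
    simp only [hv0, zero_sub] at h1
    rw [abs_sub_comm, abs_of_nonneg (by linarith : 0 ≤ v - w)]
    exact h1.trans (neg_le_abs _)

namespace Base

variable {c φ κ m s p : ℝ} (B : Base W c φ κ m s p)

include B

theorem f_lip (v : ℝ) {z z' : ℂ} (hz : ‖z‖ < m) (hz' : ‖z'‖ < m) :
    ‖W.f (W.F p + W.G v + z) - W.f (W.F p + W.G v + z')‖ ≤ ‖z - z'‖ := by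
  have key := (convex_ball (0 : ℂ) m).norm_image_sub_le_of_norm_hasFDerivWithin_le
    (f := fun z => W.f (W.F p + W.G v + z))
    (f' := fun z => lr (W.a (W.Pinv (W.F p + W.G v + z)).1) (W.b (W.Pinv (W.F p + W.G v + z)).2))
    (C := 1) (x := z') (y := z)
    (fun x hx => by
      rw [mem_ball_zero_iff] at hx
      obtain ⟨h1, h2, h3, h4⟩ := B.coords v hx
      have h5 := W.df (W.Pinv (W.F p + W.G v + x)).1 (W.Pinv (W.F p + W.G v + x)).2
      rw [h4] at h5
      have h6 : HasFDerivAt (fun z : ℂ => W.F p + W.G v + z) (ContinuousLinearMap.id ℝ ℂ) x :=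
        (hasFDerivAt_id x).const_add _
      exact (HasFDerivAt.comp x (g := W.f) h5 h6).hasFDerivWithinAt)
    (fun x hx => by
      refine ContinuousLinearMap.opNorm_le_bound _ zero_le_one fun ζ => ?_
      rw [lr_apply, norm_mul, norm_mul, W.ua, W.ub, norm_hat]
      linarith)
    (by rwa [mem_ball_zero_iff]) (by rwa [mem_ball_zero_iff])
  rwa [one_mul] at key

theorem S_lip_v (v v' : ℝ) {z : ℂ} (hz : ‖z‖ < m) :
    ‖star (W.a s) * W.f (W.F p + W.G v + z) * star (W.b v) -
      star (W.a s) * W.f (W.F p + W.G v' + z) * star (W.b v')‖ ≤ 2 * |v - v'| := by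
  have hd : ∀ x, HasDerivAt (fun x => W.f (W.F p + W.G x + z) * star (W.b x))
      (lr (W.a (W.Pinv (W.F p + W.G x + z)).1) (W.b (W.Pinv (W.F p + W.G x + z)).2)
        (ei (W.θ2 x)) * star (W.b x) +
        W.f (W.F p + W.G x + z) * star (hat (ei (W.θ2 x)) * W.b x)) x := by
    intro x
    obtain ⟨h1, h2, h3, h4⟩ := B.coords x hz
    have h5 := W.df (W.Pinv (W.F p + W.G x + z)).1 (W.Pinv (W.F p + W.G x + z)).2
    rw [h4] at h5
    have h6 : HasDerivAt (fun x => W.F p + W.G x + z) (ei (W.θ2 x)) x :=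
      ((W.dG x).const_add _).add_const _
    exact (HasFDerivAt.comp_hasDerivAt (f := fun x => W.F p + W.G x + z) x h5 h6).mul
      (hasDerivAt_star (W.db x))
  have key := Convex.norm_image_sub_le_of_norm_hasDerivWithin_le
    (f := fun x => W.f (W.F p + W.G x + z) * star (W.b x)) (s := univ) (C := 2) (x := v') (y := v)
    (fun x _ => (hd x).hasDerivWithinAt)
    (fun x _ => by
      refine (norm_add_le _ _).trans ?_
      obtain ⟨h1, h2, h3, h4⟩ := B.coords x hz
      have hu : ‖W.f (W.F p + W.G x + z)‖ = 1 := by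
        rw [← h4, W.hf, norm_mul, W.ua, W.ub, one_mul]
      rw [norm_mul, norm_mul, lr_apply, norm_mul, norm_mul, norm_star, norm_star, norm_mul, W.ua,
        W.ub, norm_hat, norm_ei, W.ub, hu]
      norm_num) convex_univ (mem_univ _) (mem_univ _)
  have e : star (W.a s) * W.f (W.F p + W.G v + z) * star (W.b v) -
      star (W.a s) * W.f (W.F p + W.G v' + z) * star (W.b v') =
      star (W.a s) * (W.f (W.F p + W.G v + z) * star (W.b v) -
        W.f (W.F p + W.G v' + z) * star (W.b v')) := by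
    rw [mul_sub, mul_assoc, mul_assoc]
  rw [e, norm_mul, norm_star, W.ua, one_mul]
  rwa [Real.norm_eq_abs] at key

/-- The height is Lipschitz. -/
theorem cmp_v {v v' : ℝ} {Q R : ℍ[ℝ]} (hQ : ‖Q - 1‖ ≤ m / 4) (hR : ‖R - 1‖ ≤ m / 4) :
    |B.ht v Q - B.ht v' R| ≤ 2 * ‖Q - R‖ + 8 * |v - v'| := by
  have hm := B.hm
  have h := Sheet.compare (B.sheet v) (B.sheet v') rfl (δ := 2 * |v - v'|)
    (fun z hz => by
      rw [mem_closedBall_zero_iff, B.rho] at hz
      exact B.S_lip_v v v' (by linarith)) (B.mem_cb hQ) (B.mem_cb hR)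
  have h2 := abs_kL_le ((B.sheet v).g Q - (B.sheet v').g R)
  rw [map_sub] at h2
  unfold ht
  linarith

end Base

/-- Comparison of the heights over two nearby windows. -/
theorem cmp_p {c φ κ m s t δ : ℝ} (Bs : Base W c φ κ m s s) (Bt : Base W c φ κ m s t)
    (hδ0 : 0 ≤ δ) (hδ : δ < m / 4)
    (h1 : ∀ r, |r| ≤ κ → ‖W.a (s + r) - W.a (t + r)‖ ≤ δ)
    (h2 : ∀ r, |r| ≤ κ → ‖W.F (s + r) - W.F s - (W.F (t + r) - W.F t)‖ ≤ δ)
    {v : ℝ} {Q : ℍ[ℝ]} (hQ : ‖Q - 1‖ ≤ m / 4) : |Bs.ht v Q - Bt.ht v Q| ≤ 8 * δ := by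
  have hm := Bs.hm
  have h := Sheet.compare (Bs.sheet v) (Bt.sheet v) rfl (δ := 2 * δ)
    (fun z hz => by
      rw [mem_closedBall_zero_iff, Bs.rho] at hz
      obtain ⟨g1, g2, g3, g4⟩ := Bs.coords v (z := z) (by linarith)
      set u := (W.Pinv (W.F s + W.G v + z)).1 with hu
      set w := (W.Pinv (W.F s + W.G v + z)).2 with hw
      show ‖star (W.a s) * W.f (W.F s + W.G v + z) * star (W.b v) -
        star (W.a s) * W.f (W.F t + W.G v + z) * star (W.b v)‖ ≤ 2 * δ
      have k1 := h1 (u - s) g2.le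
      have k2 := h2 (u - s) g2.le
      have e1 : s + (u - s) = u := by ring
      rw [e1] at k1 k2
      set z' : ℂ := W.F (t + (u - s)) - W.F t + W.G w - W.G v with hz'
      have e2 : z - z' = W.F u - W.F s - (W.F (t + (u - s)) - W.F t) := by
        have : z = W.F u + W.G w - W.F s - W.G v := by rw [g4]; ring
        rw [this, hz']; ring
      have k3 : ‖z'‖ < m := by
        have : ‖z'‖ ≤ ‖z‖ + ‖z - z'‖ := by
          have e3 : z' = z - (z - z') := by ring
          calc ‖z'‖ = ‖z - (z - z')‖ := by rw [← e3]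
            _ ≤ _ := norm_sub_le _ _
        rw [e2] at this
        linarith
      have k4 := Bt.f_lip v (z := z') (z' := z) k3 (by linarith)
      rw [norm_sub_rev z' z, e2] at k4
      have e4 : W.f (W.F t + W.G v + z') = W.a (t + (u - s)) * W.b w := by
        rw [← W.hf]
        congr 1
        rw [hz']; ring
      have e5 : W.f (W.F s + W.G v + z) = W.a u * W.b w := by rw [← W.hf, g4]
      have e6 : star (W.a s) * W.f (W.F s + W.G v + z) * star (W.b v) -
          star (W.a s) * W.f (W.F t + W.G v + z) * star (W.b v) =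
          star (W.a s) * ((W.a u - W.a (t + (u - s))) * W.b w +
            (W.f (W.F t + W.G v + z') - W.f (W.F t + W.G v + z))) * star (W.b v) := by
        rw [e4, e5]; noncomm_ring
      rw [e6, norm_mul, norm_mul, norm_star, norm_star, W.ua, W.ub, one_mul, mul_one]
      refine (norm_add_le _ _).trans ?_
      rw [norm_mul, W.ub, mul_one]
      linarith) (Bs.mem_cb hQ) (Bt.mem_cb hQ)
  have h3 := abs_kL_le ((Bs.sheet v).g Q - (Bt.sheet v).g Q)
  rw [map_sub] at h3
  rw [sub_self, norm_zero] at h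
  unfold Base.ht
  linarith

/-- Lower bound for the separation of two sheets, uniform along the second factor. -/
theorem lower_a {c φ κ m s t κ' m' : ℝ} (B : Base W c φ κ m s t) (hκ' : 0 < κ')
    (hκm : κ' < m / 4) (hm' : 0 < m') (hW' : W.Win κ' m' s) (hst : 2 * κ ≤ |s - t|) :
    ∃ y0 > 0, ∀ v, y0 ≤ |B.ht v 1| := by
  have hm := B.hm
  have hmκ := B.hmκ
  have hκ := B.hκ
  -- separation of the two windows
  obtain ⟨δ0, hδ0, hsep⟩ : ∃ δ0 > 0, ∀ u ∈ Icc (t - κ) (t + κ), ∀ u' ∈ Icc (s - κ') (s + κ'),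
      δ0 ≤ ‖W.a u - W.a u'‖ := by
    have hcomp : IsCompact (Icc (t - κ) (t + κ) ×ˢ Icc (s - κ') (s + κ')) :=
      isCompact_Icc.prod isCompact_Icc
    have hca := W.cont_a
    have hcont : Continuous (fun q : ℝ × ℝ => ‖W.a q.1 - W.a q.2‖) := by fun_prop
    obtain ⟨q, hq, hmin⟩ := hcomp.exists_isMinOn
      ⟨(t, s), ⟨⟨by simp only; linarith, by simp only; linarith⟩,
        ⟨by simp only; linarith, by simp only; linarith⟩⟩⟩ hcont.continuousOn
    refine ⟨‖W.a q.1 - W.a q.2‖, ?_, fun u hu u' hu' => hmin (show (u, u') ∈ _ from ⟨hu, hu'⟩)⟩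
    rw [gt_iff_lt, norm_pos_iff, sub_ne_zero]
    intro h
    have h1 := W.a_inj h
    have h2 := hq.1
    have h3 := hq.2
    rw [h1] at h2
    rcases le_abs.1 hst with h4 | h4 <;> linarith [h2.1, h2.2, h3.1, h3.2]
  set η : ℝ := δ0 / 2 with hη
  have hη0 : 0 < η := by positivity
  set h0 : ℝ := min (δ0 / 4) (η * m' / 8) with hh0
  have hh0p : 0 < h0 := by positivity
  have hh1 : h0 ≤ δ0 / 4 := min_le_left _ _
  have hh2 : h0 ≤ η * m' / 8 := min_le_right _ _
  refine ⟨min (h0 / 2) (1 / 4 * m' * η), by positivity, fun v => ?_⟩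
  by_cases hbig : h0 / 2 ≤ |B.ht v 1|
  · exact (min_le_left _ _).trans hbig
  push Not at hbig
  refine (min_le_right _ _).trans ?_
  have hQ : ∀ x, |x| ≤ κ' → ‖star (W.a s) * W.a (s + x) - 1‖ < m / 4 := fun x hx => by
    rw [W.norm_a_star]
    have := W.lip_a (s + x) s
    rw [add_sub_cancel_left] at this
    linarith
  have hunit : ∀ x, star (W.a s) * W.a (s + x) =
      star (W.a s) * W.a (s + x) * (W.b v * star (W.b v)) := fun x => by
    rw [self_mul_star1 (W.ub v), mul_one]
  have hex : ∀ x, |x| ≤ κ' → ∃ h', HasDerivAt (fun σ => B.ht v (star (W.a s) * W.a (s + σ))) h' x ∧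
      (v ≤ (B.foot v (star (W.a s) * W.a (s + x))).2 →
        1 / 2 * cr (W.G (B.foot v (star (W.a s) * W.a (s + x))).2 - W.G v)
          (ei (W.θ1 (s + x))) - 2 * |B.ht v (star (W.a s) * W.a (s + x))| ≤ h') ∧
      ((B.foot v (star (W.a s) * W.a (s + x))).2 ≤ v → h' ≤
        1 / 2 * cr (W.G (B.foot v (star (W.a s) * W.a (s + x))).2 - W.G v)
          (ei (W.θ1 (s + x))) + 2 * |B.ht v (star (W.a s) * W.a (s + x))|) :=
    fun x hx => B.slope_a v (hQ x hx)
  choose! h' hd hsp hsn using hex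
  have hfar : ∀ x, |x| ≤ κ' → |B.ht v (star (W.a s) * W.a (s + x))| ≤ h0 →
      η ≤ |(B.foot v (star (W.a s) * W.a (s + x))).2 - v| := by
    intro x hx hxh
    obtain ⟨f1, f2, f3⟩ := B.foot_spec (v := v) (hQ x hx).le
    have hu : ‖star (W.a s) * W.a (s + x)‖ = 1 := by
      rw [norm_mul, norm_star, W.ua, W.ua, one_mul]
    have g2 := ((B.sheet v).g_norm (B.mem_cb (v := v) (hQ x hx).le) hu).2.1
    rw [f3] at g2
    change _ ≤ 2 * |B.ht v (star (W.a s) * W.a (s + x))| at g2
    set u := (B.foot v (star (W.a s) * W.a (s + x))).1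
    set w := (B.foot v (star (W.a s) * W.a (s + x))).2
    have e1 : star (W.a s) * W.a (s + x) - star (W.a s) * W.a u * (W.b w * star (W.b v)) =
        star (W.a s) * ((W.a (s + x) - W.a u) - W.a u * (W.b w * star (W.b v) - 1)) := by
      noncomm_ring
    rw [e1, norm_mul, norm_star, W.ua, one_mul] at g2
    have e2 : ‖W.a (s + x) - W.a u‖ ≤ ‖(W.a (s + x) - W.a u) - W.a u * (W.b w * star (W.b v) - 1)‖
        + ‖W.a u * (W.b w * star (W.b v) - 1)‖ := by
      have := norm_add_le ((W.a (s + x) - W.a u) - W.a u * (W.b w * star (W.b v) - 1))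
        (W.a u * (W.b w * star (W.b v) - 1))
      rwa [sub_add_cancel] at this
    rw [norm_mul, W.ua, one_mul, W.norm_b_star] at e2
    have e3 := W.lip_b w v
    rw [abs_lt] at f1
    rw [abs_le] at hx
    have e4 := hsep u ⟨by linarith [f1.1], by linarith [f1.2]⟩ (s + x)
      ⟨by linarith [hx.1], by linarith [hx.2]⟩
    rw [norm_sub_rev] at e4
    linarith
  have hmono : ∀ x y : ℝ, (0 : ℝ) ≤ cr (ei (W.θ2 y)) (ei (W.θ1 (s + x))) := fun x y => by
    rw [cr_ei]; exact (W.sin_pos _ _).le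
  have hshift : ∀ x, HasDerivAt (fun x => W.F (s + x)) (ei (W.θ1 (s + x))) x :=
    fun x => hasDerivAt_shift W.dF s x
  have hG : ∀ (x : ℝ) {y z : ℝ}, y ≤ z → 0 ≤ cr (W.G z - W.G y) (ei (W.θ1 (s + x))) := by
    intro x y z hyz
    have := W.cross_growth (fun y => hmono x y) hyz
    rwa [zero_mul] at this
  have key := exit_two (h := fun x => B.ht v (star (W.a s) * W.a (s + x))) (h' := h')
    (r := fun x => (B.foot v (star (W.a s) * W.a (s + x))).2 - v)
    (Γp := fun x => 1 / 2 * cr (W.G (v + η) - W.G v) (W.F (s + x)))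
    (Γp' := fun x => 1 / 2 * cr (W.G (v + η) - W.G v) (ei (W.θ1 (s + x))))
    (Γn := fun x => 1 / 2 * cr (W.G v - W.G (v - η)) (W.F (s + x)))
    (Γn' := fun x => 1 / 2 * cr (W.G v - W.G (v - η)) (ei (W.θ1 (s + x))))
    (T := κ') (e := 2 * h0) (h0 := h0) (R := 1 / 2 * (m' * η)) hκ'.le (by positivity)
    hd (fun x hx => by
      have hc : ContinuousAt (fun x => star (W.a s) * W.a (s + x)) x := by
        have := W.cont_a
        fun_prop
      have h1 := B.foot_cont (v := v) hc (hQ x hx)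
      exact (continuous_snd.continuousAt.comp h1).sub continuousAt_const)
    (fun x => (hasDerivAt_cr_right (hshift x) _).const_mul _)
    (fun x => (hasDerivAt_cr_right (hshift x) _).const_mul _)
    (fun x => mul_nonneg (by norm_num) (hG x (by linarith)))
    (fun x => mul_nonneg (by norm_num) (hG x (by linarith)))
    (fun x hx h => by
      have h1 := hQ x hx
      rw [hunit x] at h h1
      obtain ⟨k1, k2⟩ := B.zero_height h1.le h
      rw [abs_lt] at k1
      rw [abs_le] at hx
      rcases le_abs.1 hst with h4 | h4 <;> linarith [k1.1, k1.2, hx.1, hx.2])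
    (fun x hx hxh h => by
      have := hfar x hx hxh
      rw [h, abs_zero] at this
      linarith)
    (fun x hx hxh hr => by
      have h1 := hfar x hx hxh
      rw [abs_of_pos hr] at h1
      have h2 := hsp x hx (by linarith)
      have h3 := hG x (show v + η ≤ (B.foot v (star (W.a s) * W.a (s + x))).2 by linarith)
      rw [cr_sub_left] at h2 h3 ⊢
      linarith)
    (fun x hx hxh hr => by
      have h1 := hfar x hx hxh
      rw [abs_of_neg hr] at h1
      have h2 := hsn x hx (by linarith)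
      have h3 := hG x (show (B.foot v (star (W.a s) * W.a (s + x))).2 ≤ v - η by linarith)
      rw [cr_sub_left] at h2 h3 ⊢
      linarith)
    (by
      simp only [add_zero]
      rw [star_mul_self1 (W.ua s)]
      have : κ' ≤ 1 / 256 := by have := B.small.1; linarith
      nlinarith)
    (by
      have := W.cross_growth hW'.1 (show v ≤ v + η by linarith)
      simp only [add_zero]
      rw [cr_sub_right] at this
      linarith)
    (by
      have := W.cross_growth hW'.2 (show v ≤ v + η by linarith)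
      simp only [add_zero]
      rw [cr_sub_right, ← sub_eq_add_neg] at *
      linarith)
    (by
      have := W.cross_growth hW'.1 (show v - η ≤ v by linarith)
      simp only [add_zero]
      rw [cr_sub_right] at this
      linarith)
    (by
      have := W.cross_growth hW'.2 (show v - η ≤ v by linarith)
      simp only [add_zero]
      rw [cr_sub_right, ← sub_eq_add_neg] at *
      linarith)
  simp only [add_zero] at key
  rw [star_mul_self1 (W.ua s)] at key
  have h5 : κ' ≤ 1 / 256 := by have := B.small.1; linarith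
  have h6 : 2 * h0 * κ' ≤ 1 / 4 * (m' * η) := by
    have : h0 * κ' ≤ h0 * 1 := mul_le_mul_of_nonneg_left (by linarith) hh0p.le
    nlinarith
  linarith

end Web

end Pool.Agent.Helper253.Emb
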