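import Pool.Agent.Helper253.Sad.BU

set_option autoImplicit false

namespace Pool.Agent.Helper253.Emb

open Pool.Agent.Helper253.Sad Set

/-- Clamping to `[-1, 1]`. -/
noncomputable def cl (x : ℝ) : ℝ := max (-1) (min 1 x)

theorem cl_cont : Continuous cl := by unfold cl; fun_prop

theorem cl_mem (x : ℝ) : cl x ∈ Icc (-1 : ℝ) 1 := by
  unfold cl
  constructor
  · exact le_max_left _ _
  · exact max_le (by norm_num) (min_le_left _ _)

theorem cl_of_mem {x : ℝ} (h : x ∈ Icc (-1 : ℝ) 1) : cl x = x := by
  unfold cl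
  rw [min_eq_right h.2, max_eq_right h.1]

theorem cl_of_ge {x : ℝ} (h : 1 ≤ x) : cl x = 1 := by
  unfold cl
  rw [min_eq_left h]; norm_num

theorem cl_of_le {x : ℝ} (h : x ≤ -1) : cl x = -1 := by
  unfold cl
  rw [min_eq_right (by linarith), max_eq_left h]

theorem cl_neg (x : ℝ) : cl (-x) = -cl x := by
  rcases le_total x (-1) with h | h
  · rw [cl_of_le h, cl_of_ge (by linarith)]; norm_num
  · rcases le_total x 1 with h' | h'
    · rw [cl_of_mem ⟨h, h'⟩, cl_of_mem ⟨by linarith, by linarith⟩]
    · rw [cl_of_ge h', cl_of_le (by linarith)]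

/-- The Poincaré–Miranda theorem in dimension three. -/
theorem miranda (f : (Fin 3 → ℝ) → (Fin 3 → ℝ)) (hf : Continuous f)
    (hp : ∀ x i, (∀ j, x j ∈ Icc (-1 : ℝ) 1) → x i = 1 → 0 < f x i)
    (hn : ∀ x i, (∀ j, x j ∈ Icc (-1 : ℝ) 1) → x i = -1 → f x i < 0) :
    ∃ x, (∀ j, x j ∈ Icc (-1 : ℝ) 1) ∧ f x = 0 := by
  by_contra hcon
  push Not at hcon
  -- the clamped point
  set c : (Fin 3 → ℝ) → (Fin 3 → ℝ) := fun x j => cl (12 * x j) with hc
  have hcc : Continuous c := by
    rw [hc]
    exact continuous_pi fun j => cl_cont.comp (continuous_const.mul (continuous_apply j))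
  have hcm : ∀ x j, c x j ∈ Icc (-1 : ℝ) 1 := fun x j => cl_mem _
  set lam : (Fin 3 → ℝ) → ℝ := fun x => max 0 (min 1 (12 * ‖x‖ - 1)) with hlam
  have hlc : Continuous lam := by rw [hlam]; fun_prop
  have hl0 : ∀ x, 0 ≤ lam x := fun x => le_max_left _ _
  have hl1 : ∀ x, lam x ≤ 1 := fun x => max_le zero_le_one (min_le_left _ _)
  set g : (Fin 3 → ℝ) → (Fin 3 → ℝ) := fun x => (1 - lam x) • f (c x) + lam x • x with hg
  have hgc : Continuous g := by
    rw [hg]
    exact ((continuous_const.sub hlc).smul (hf.comp hcc)).add (hlc.smul continuous_id)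
  have hgx : ∀ x, 1 / 6 ≤ ‖x‖ → g x = x := by
    intro x hx
    have : lam x = 1 := by
      simp only [hlam]
      rw [min_eq_left (by linarith)]; norm_num
    simp only [hg, this, sub_self, zero_smul, zero_add, one_smul]
  have hgne : ∀ x, g x ≠ 0 := by
    intro x hx
    rcases le_or_gt ‖x‖ (1 / 12) with h | h
    · have : lam x = 0 := by
        simp only [hlam]
        rw [min_eq_right (by linarith), max_eq_left (by linarith)]
      simp only [hg, this, sub_zero, one_smul, zero_smul, add_zero] at hx
      exact hcon (c x) (hcm x) hx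
    · -- some coordinate is large
      obtain ⟨i, hi⟩ : ∃ i, 1 / 12 < |x i| := by
        by_contra hcon2
        push Not at hcon2
        have : ‖x‖ ≤ 1 / 12 := by
          rw [pi_norm_le_iff_of_nonneg (by norm_num)]
          exact fun i => by rw [Real.norm_eq_abs]; exact hcon2 i
        linarith
      have hxi := congrFun hx i
      simp only [hg, Pi.add_apply, Pi.smul_apply, smul_eq_mul, Pi.zero_apply] at hxi
      have h1 := hl0 x
      have h2 := hl1 x
      rcases lt_abs.1 hi with h3 | h3
      · have h4 : c x i = 1 := cl_of_ge (by linarith)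
        have h5 := hp (c x) i (hcm x) h4
        have h6 : 0 ≤ (1 - lam x) * f (c x) i := mul_nonneg (by linarith) h5.le
        have h7 : 0 ≤ lam x * x i := mul_nonneg h1 (by linarith)
        rcases eq_or_lt_of_le h1 with h8 | h8
        · rw [← h8] at hxi; linarith
        · have : 0 < lam x * x i := mul_pos h8 (by linarith)
          linarith
      · have h4 : c x i = -1 := cl_of_le (by linarith)
        have h5 := hn (c x) i (hcm x) h4
        have h6 : (1 - lam x) * f (c x) i ≤ 0 := mul_nonpos_of_nonneg_of_nonpos (by linarith) h5.le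
        have h7 : lam x * x i ≤ 0 := mul_nonpos_of_nonneg_of_nonpos h1 (by linarith)
        rcases eq_or_lt_of_le h1 with h8 | h8
        · rw [← h8] at hxi; linarith
        · have : lam x * x i < 0 := mul_neg_of_pos_of_neg h8 (by linarith)
          linarith
  -- the odd map
  set pr : (Fin 4 → ℝ) → (Fin 3 → ℝ) := fun x j => x (Fin.castSucc j) with hpr
  have hprc : Continuous pr := by
    rw [hpr]; exact continuous_pi fun j => continuous_apply _
  set F : (Fin 4 → ℝ) → (Fin 3 → ℝ) := fun x =>
    (1 / 2 : ℝ) • ((1 + cl (2 * x 3)) • g (pr x) - (1 - cl (2 * x 3)) • g (-pr x)) with hF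
  have hFc : Continuous F := by
    rw [hF]
    have h3 : Continuous (fun x : Fin 4 → ℝ => cl (2 * x 3)) :=
      cl_cont.comp (continuous_const.mul (continuous_apply 3))
    exact ((((continuous_const.add h3).smul (hgc.comp hprc)).sub
      ((continuous_const.sub h3).smul (hgc.comp hprc.neg)))).const_smul (1 / 2 : ℝ)
  have hFodd : ∀ x, F (-x) = -F x := by
    intro x
    have e1 : pr (-x) = -pr x := by funext j; simp [hpr]
    have e2 : cl (2 * (-x) 3) = -cl (2 * x 3) := by
      rw [← cl_neg]; congr 1; simp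
    simp only [hF, e1, e2, neg_neg]
    module
  obtain ⟨x, hx, hFx⟩ := BU.borsuk_ulam 3 F hFc hFodd
  have hsum : |x 0| + |x 1| + |x 2| + |x 3| = 1 := by
    have : ∑ i, |x i| = 1 := hx
    rw [Fin.sum_univ_four] at this
    exact this
  rcases le_or_gt (1 / 6) ‖pr x‖ with h | h
  · have h1 : g (pr x) = pr x := hgx _ h
    have h2 : g (-pr x) = -pr x := hgx _ (by rw [norm_neg]; exact h)
    have h3 : F x = pr x := by
      simp only [hF, h1, h2]; module
    rw [h3] at hFx
    rw [hFx, norm_zero] at h
    norm_num at h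
  · have hb : ∀ j : Fin 3, |x (Fin.castSucc j)| < 1 / 6 := fun j => by
      have := norm_le_pi_norm (pr x) j
      rw [Real.norm_eq_abs] at this
      exact lt_of_le_of_lt this h
    have b0 : |x 0| < 1 / 6 := hb 0
    have b1 : |x 1| < 1 / 6 := hb 1
    have b2 : |x 2| < 1 / 6 := hb 2
    have h3 : 1 / 2 < |x 3| := by linarith
    rcases lt_abs.1 h3 with h4 | h4
    · have h5 : cl (2 * x 3) = 1 := cl_of_ge (by linarith)
      have h6 : F x = g (pr x) := by
        simp only [hF, h5]; module
      rw [h6] at hFx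
      exact hgne _ hFx
    · have h5 : cl (2 * x 3) = -1 := cl_of_le (by linarith)
      have h6 : F x = -g (-pr x) := by
        simp only [hF, h5]; module
      rw [h6, neg_eq_zero] at hFx
      exact hgne _ hFx

end Pool.Agent.Helper253.Emb
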