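import Pool.Agent.Helper253.Emb.NArg
import Pool.Agent.Helper253.Emb.Miranda

set_option autoImplicit false

namespace Pool.Agent.Helper253.Emb

open Quaternion Topology Set Metric Filter
open Pool.Agent.Helper253.Net

/-- First complex coordinate. -/
noncomputable def k1 : ℍ[ℝ] →L[ℝ] ℂ :=
  LinearMap.toContinuousLinearMap
    { toFun := fun q => ⟨q.re, q.imI⟩
      map_add' := fun x y => by apply Complex.ext <;> simp
      map_smul' := fun r x => by apply Complex.ext <;> simp }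

/-- Second complex coordinate. -/
noncomputable def k2 : ℍ[ℝ] →L[ℝ] ℂ :=
  LinearMap.toContinuousLinearMap
    { toFun := fun q => ⟨q.imJ, q.imK⟩
      map_add' := fun x y => by apply Complex.ext <;> simp
      map_smul' := fun r x => by apply Complex.ext <;> simp }

theorem k1_re (q : ℍ[ℝ]) : (k1 q).re = q.re := rfl
theorem k1_im (q : ℍ[ℝ]) : (k1 q).im = q.imI := rfl
theorem k2_re (q : ℍ[ℝ]) : (k2 q).re = q.imJ := rfl
theorem k2_im (q : ℍ[ℝ]) : (k2 q).im = q.imK := rfl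

theorem norm_k (q : ℍ[ℝ]) : ‖q‖ ^ 2 = ‖k1 q‖ ^ 2 + ‖k2 q‖ ^ 2 := by
  rw [norm_sq_eq, ← Complex.normSq_eq_norm_sq, ← Complex.normSq_eq_norm_sq, Complex.normSq_apply,
    Complex.normSq_apply, k1_re, k1_im, k2_re, k2_im]
  ring

theorem norm_k1_le (q : ℍ[ℝ]) : ‖k1 q‖ ≤ ‖q‖ := by
  apply (sq_le_sq₀ (norm_nonneg _) (norm_nonneg _)).1
  rw [norm_k q]; nlinarith [sq_nonneg ‖k2 q‖]

theorem norm_k2_le (q : ℍ[ℝ]) : ‖k2 q‖ ≤ ‖q‖ := by
  apply (sq_le_sq₀ (norm_nonneg _) (norm_nonneg _)).1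
  rw [norm_k q]; nlinarith [sq_nonneg ‖k1 q‖]

theorem ext_k {p q : ℍ[ℝ]} (h1 : k1 p = k1 q) (h2 : k2 p = k2 q) : p = q := by
  have a1 := congrArg Complex.re h1
  have a2 := congrArg Complex.im h1
  have a3 := congrArg Complex.re h2
  have a4 := congrArg Complex.im h2
  rw [k1_re, k1_re] at a1
  rw [k1_im, k1_im] at a2
  rw [k2_re, k2_re] at a3
  rw [k2_im, k2_im] at a4
  exact Quaternion.ext _ _ a1 a2 a3 a4

/-- The circle subgroup through the first unit. -/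
noncomputable def Ei (s : ℝ) : ℍ[ℝ] := mkq (Real.cos s) (Real.sin s) 0 0

theorem norm_Ei (s : ℝ) : ‖Ei s‖ = 1 := by
  have h1 : ‖Ei s‖ ^ 2 = 1 ^ 2 := by
    rw [norm_sq_eq]; simp [Ei]
  exact (sq_eq_sq₀ (norm_nonneg _) zero_le_one).1 h1

theorem star_Ei (s : ℝ) : star (Ei s) = Ei (-s) := by
  ext <;> simp [Ei]

theorem k1_conj (α β : ℝ) (q : ℍ[ℝ]) : k1 (Ei α * q * Ei β) = ei (α + β) * k1 q := by
  apply Complex.ext
  · rw [Complex.mul_re, ei_re, ei_im, k1_re, k1_re, k1_im, Real.cos_add, Real.sin_add]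
    simp [Ei]; ring
  · rw [Complex.mul_im, ei_re, ei_im, k1_re, k1_im, k1_im, Real.cos_add, Real.sin_add]
    simp [Ei]; ring

theorem k2_conj (α β : ℝ) (q : ℍ[ℝ]) : k2 (Ei α * q * Ei β) = ei (α - β) * k2 q := by
  apply Complex.ext
  · rw [Complex.mul_re, ei_re, ei_im, k2_re, k2_re, k2_im, Real.cos_sub, Real.sin_sub]
    simp [Ei]; ring
  · rw [Complex.mul_im, ei_re, ei_im, k2_re, k2_im, k2_im, Real.cos_sub, Real.sin_sub]
    simp [Ei]; ring

theorem Ei_cont : Continuous Ei := by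
  have h : Ei = fun s => Real.cos s • (1 : ℍ[ℝ]) + Real.sin s • mkq 0 1 0 0 := by
    funext s
    ext <;> simp [Ei]
  rw [h]
  fun_prop

/-- Continuous angle functions on the line. -/
theorem exists_angle {w : ℝ → ℂ} (hw : Continuous w) (h0 : ∀ t, w t ≠ 0) :
    ∃ φ : ℝ → ℝ, Continuous φ ∧ ∀ t, w t = (‖w t‖ : ℂ) * ei (φ t) := by
  obtain ⟨z₀, hz₀⟩ : ∃ z₀ : ℂ, Complex.exp z₀ = w 0 := ⟨_, Complex.exp_log (h0 _)⟩
  obtain ⟨G, ⟨-, hG⟩, -⟩ := Complex.isCoveringMapOn_exp.existsUnique_continuousMap_lifts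
    (⟨w, hw⟩ : C(ℝ, ℂ)) (a₀ := 0) (e₀ := z₀) hz₀ (fun a => h0 a)
  have hG' : ∀ z, Complex.exp (G z) = w z := fun z => congrFun hG z
  refine ⟨fun t => (G t).im, Complex.continuous_im.comp G.continuous, fun t => ?_⟩
  have h2 : ‖w t‖ = Real.exp (G t).re := by rw [← hG', Complex.norm_exp]
  rw [h2, ← hG', ei, Complex.ofReal_exp, ← Complex.exp_add]
  congr 1
  rw [Complex.re_add_im]

theorem eq_of_phase {z w : ℂ} (hn : ‖z‖ = ‖w‖) (him : (z * (starRingEnd ℂ) w).im = 0)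
    (hre : 0 < (z * (starRingEnd ℂ) w).re) : z = w := by
  have h1 : z * (starRingEnd ℂ) w = ((z * (starRingEnd ℂ) w).re : ℂ) := by
    apply Complex.ext
    · simp
    · rw [him]; simp
  have h2 : ‖z * (starRingEnd ℂ) w‖ = (z * (starRingEnd ℂ) w).re := by
    rw [h1, Complex.norm_real, Real.norm_eq_abs, Complex.ofReal_re, abs_of_pos hre]
  rw [norm_mul, Complex.norm_conj, hn] at h2
  rw [← h2] at h1
  have h3 : w * (starRingEnd ℂ) w = ((‖w‖ * ‖w‖ : ℝ) : ℂ) := by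
    rw [Complex.mul_conj, Complex.normSq_eq_norm_sq, sq]
  have h4 : (z - w) * (starRingEnd ℂ) w = 0 := by
    rw [sub_mul, h1, h3, sub_self]
  rcases mul_eq_zero.1 h4 with h5 | h5
  · exact sub_eq_zero.1 h5
  · rw [h5] at hre
    simp at hre

theorem close_lemma {a' aX U b' bX aU : ℍ[ℝ]} {E1 E2 : ℍ[ℝ]} {ε : ℝ} (hU : U = aU)
    (n1 : ‖U‖ = 1) (n2 : ‖b'‖ = 1) (n3 : ‖bX‖ = 1) (n4 : ‖aX‖ = 1) (n5 : ‖E1‖ = 1)
    (h1 : ‖a' - aX * E1‖ ≤ 2 * ε) (h2 : ‖b' - E2 * bX‖ ≤ 2 * ε) :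
    ‖star a' * U * b' * star bX - star E1 * (star aX * aU) * E2‖ ≤ 4 * ε := by
  have e : star a' * U * b' * star bX - star E1 * (star aX * aU) * E2 =
      star (a' - aX * E1) * U * b' * star bX +
      star E1 * star aX * U * ((b' - E2 * bX) * star bX) := by
    have h3 : E2 * bX * star bX = E2 := by rw [mul_assoc, self_mul_star1 n3, mul_one]
    rw [sub_mul b', h3, star_sub, star_mul, ← hU]
    noncomm_ring
  rw [e]
  refine (norm_add_le _ _).trans ?_
  simp only [norm_mul, norm_star, n1, n2, n3, n4, n5, one_mul, mul_one]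
  linarith

set_option maxHeartbeats 4000000 in
/-- Two factors which are both asymptotic to the same circle produce a double point. -/
theorem D_core {a b : ℝ → ℍ[ℝ]} (ca : Continuous a) (cb : Continuous b) (ua : ∀ u, ‖a u‖ = 1)
    (ub : ∀ v, ‖b v‖ = 1)
    (abi : ∀ u v u' v', a u * b v = a u' * b v' → u = u' ∧ v = v') {x y : ℕ → ℝ}
    (hx : Tendsto (fun n => |x n|) atTop atTop)
    (hA : ∀ S > 0, ∀ ε > 0, ∃ N, ∀ n ≥ N, ∀ s, |s| ≤ S → ‖a (x n + s) - a (x n) * Ei s‖ ≤ ε)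
    (hB : ∀ S > 0, ∀ ε > 0, ∃ N, ∀ n ≥ N, ∀ s, |s| ≤ S → ‖b (y n + s) - Ei s * b (y n)‖ ≤ ε)
    (na : ∀ q, ‖q‖ = 1 → ∃ u, k2 (star q * a u) ≠ 0)
    (nb : ∀ q, ‖q‖ = 1 → ∃ v, k2 (b v * star q) ≠ 0) : False := by
  -- limits
  obtain ⟨⟨A, B⟩, -, φ, hφ, hlim⟩ := tendsto_subseq_of_bounded
    (isBounded_closedBall (x := (0 : ℍ[ℝ] × ℍ[ℝ])) (r := 1))
    (x := fun n => (a (x n), b (y n))) (fun n => by
      rw [mem_closedBall_zero_iff, Prod.norm_def]
      simp only [ua, ub, max_self, le_refl])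
  have hlA : Tendsto (fun n => a (x (φ n))) atTop (𝓝 A) :=
    (continuous_fst.tendsto _).comp hlim
  have hlB : Tendsto (fun n => b (y (φ n))) atTop (𝓝 B) :=
    (continuous_snd.tendsto _).comp hlim
  have uA : ‖A‖ = 1 := by
    have h1 := (continuous_norm.tendsto _).comp hlA
    refine tendsto_nhds_unique h1 ?_
    simp only [Function.comp_def, ua]
    exact tendsto_const_nhds
  have uB : ‖B‖ = 1 := by
    have h1 := (continuous_norm.tendsto _).comp hlB
    refine tendsto_nhds_unique h1 ?_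
    simp only [Function.comp_def, ub]
    exact tendsto_const_nhds
  set g : ℝ → ℍ[ℝ] := fun u => star A * a u with hg
  set h : ℝ → ℍ[ℝ] := fun v => b v * star B with hh
  have hgc : Continuous g := by rw [hg]; fun_prop
  have hhc : Continuous h := by rw [hh]; fun_prop
  have ug : ∀ u, ‖g u‖ = 1 := fun u => by simp only [hg, norm_mul, norm_star, uA, ua, one_mul]
  have uh : ∀ v, ‖h v‖ = 1 := fun v => by simp only [hh, norm_mul, norm_star, uB, ub, one_mul]
  obtain ⟨us, hus⟩ := na A uA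
  obtain ⟨vs, hvs⟩ := nb B uB
  have k21 : k2 (1 : ℍ[ℝ]) = 0 := by apply Complex.ext <;> simp [k2_re, k2_im]
  have hg1 : Tendsto (fun n => ‖k2 (g (x (φ n)))‖) atTop (𝓝 0) := by
    have h1 : Tendsto (fun n => k2 (star A * a (x (φ n)))) atTop (𝓝 (k2 (star A * A))) :=
      (k2.continuous.tendsto _).comp (hlA.const_mul (star A))
    rw [star_mul_self1 uA, k21] at h1
    simpa using h1.norm
  have hh1 : Tendsto (fun n => ‖k2 (h (y (φ n)))‖) atTop (𝓝 0) := by
    have h1 : Tendsto (fun n => k2 (b (y (φ n)) * star B)) atTop (𝓝 (k2 (B * star B))) :=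
      (k2.continuous.tendsto _).comp (hlB.mul_const (star B))
    rw [self_mul_star1 uB, k21] at h1
    simpa using h1.norm
  set r0 : ℝ := min (min (1 / 2) (4 / 5 * ‖k2 (g us)‖)) ‖k2 (h vs)‖ with hr0d
  have hgs : 0 < ‖k2 (g us)‖ := norm_pos_iff.2 hus
  have hhs : 0 < ‖k2 (h vs)‖ := norm_pos_iff.2 hvs
  have hr0 : 0 < r0 := by positivity
  have hr1 : r0 ≤ 1 / 2 := (min_le_left _ _).trans (min_le_left _ _)
  have hr2 : r0 ≤ 4 / 5 * ‖k2 (g us)‖ := (min_le_left _ _).trans (min_le_right _ _)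
  have hr3 : r0 ≤ ‖k2 (h vs)‖ := min_le_right _ _
  obtain ⟨v0, hv0⟩ : r0 ∈ range (fun v => ‖k2 (h v)‖) := by
    refine mem_range_of_exists_le_of_exists_ge (by fun_prop) ?_ ⟨vs, hr3⟩
    obtain ⟨n, hn⟩ := (hh1.eventually (gt_mem_nhds hr0)).exists
    exact ⟨y (φ n), hn.le⟩
  simp only at hv0
  obtain ⟨n0, hn0⟩ := (hg1.eventually (gt_mem_nhds (show 0 < 3 * r0 / 4 by positivity))).exists
  -- the segment between `us` and the far point
  set U : ℝ → ℝ := fun l => us + l * (x (φ n0) - us) with hU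
  have hUc : Continuous U := by rw [hU]; fun_prop
  set M : ℝ → ℝ := fun l => ‖k2 (g (U l))‖ with hM
  have hMc : Continuous M := by rw [hM]; fun_prop
  have hM0 : 5 * r0 / 4 ≤ M 0 := by
    simp only [hM, hU, zero_mul, add_zero]; linarith
  have hM1 : M 1 < 3 * r0 / 4 := by
    simp only [hM, hU, one_mul, add_sub_cancel]; exact hn0
  obtain ⟨lm, hlm, hlmin⟩ := (isCompact_Icc.inter_right (isClosed_le hMc
    (continuous_const (y := 3 * r0 / 4)))).exists_isLeast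
    (show (Icc (0 : ℝ) 1 ∩ {l | M l ≤ 3 * r0 / 4}).Nonempty from
      ⟨1, ⟨zero_le_one, le_refl 1⟩, hM1.le⟩)
  have hMlm : M lm = 3 * r0 / 4 := by
    obtain ⟨l', hl', hl'e⟩ := intermediate_value_Icc' hlm.1.1 hMc.continuousOn
      (show 3 * r0 / 4 ∈ Icc (M lm) (M 0) from ⟨hlm.2, by linarith⟩)
    have h1 := hlmin (show l' ∈ Icc (0 : ℝ) 1 ∩ {l | M l ≤ 3 * r0 / 4} from
      ⟨⟨hl'.1, hl'.2.trans hlm.1.2⟩, hl'e.le⟩)
    rw [← le_antisymm hl'.2 h1]; exact hl'e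
  have hMlow : ∀ l ∈ Icc (0 : ℝ) lm, 3 * r0 / 4 ≤ M l := by
    intro l hl
    by_contra hcon
    push Not at hcon
    have h1 := hlmin (show l ∈ Icc (0 : ℝ) 1 ∩ {l | M l ≤ 3 * r0 / 4} from
      ⟨⟨hl.1, hl.2.trans hlm.1.2⟩, hcon.le⟩)
    rw [le_antisymm hl.2 h1] at hcon
    linarith
  obtain ⟨lp, hlp, hlmax⟩ := (isCompact_Icc.inter_right (isClosed_le
    (continuous_const (y := 5 * r0 / 4)) hMc)).exists_isGreatest
    (show (Icc (0 : ℝ) lm ∩ {l | 5 * r0 / 4 ≤ M l}).Nonempty from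
      ⟨0, ⟨le_refl 0, hlm.1.1⟩, hM0⟩)
  have hMlp : M lp = 5 * r0 / 4 := by
    obtain ⟨l', hl', hl'e⟩ := intermediate_value_Icc' hlp.1.2 hMc.continuousOn
      (show 5 * r0 / 4 ∈ Icc (M lm) (M lp) from ⟨by linarith, hlp.2⟩)
    have h1 := hlmax (show l' ∈ Icc (0 : ℝ) lm ∩ {l | 5 * r0 / 4 ≤ M l} from
      ⟨⟨hlp.1.1.trans hl'.1, hl'.2⟩, hl'e.ge⟩)
    rw [← le_antisymm h1 hl'.1]; exact hl'e
  have hMhigh : ∀ l ∈ Icc lp lm, M l ≤ 5 * r0 / 4 := by
    intro l hl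
    by_contra hcon
    push Not at hcon
    have h1 := hlmax (show l ∈ Icc (0 : ℝ) lm ∩ {l | 5 * r0 / 4 ≤ M l} from
      ⟨⟨hlp.1.1.trans hl.1, hl.2⟩, hcon.le⟩)
    rw [le_antisymm h1 hl.1] at hcon
    linarith
  -- the clamped parameter
  set lam : ℝ → ℝ := fun t => lp + (lm - lp) * ((1 - cl t) / 2) with hlam
  have hlamc : Continuous lam := by
    rw [hlam]; have := cl_cont; fun_prop
  have hlamm : ∀ t, lam t ∈ Icc lp lm := by
    intro t
    have h1 := cl_mem t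
    have h2 := hlp.1.2
    simp only [hlam]
    constructor
    · have : 0 ≤ (lm - lp) * ((1 - cl t) / 2) := mul_nonneg (by linarith) (by linarith [h1.2])
      linarith
    · have : (lm - lp) * ((1 - cl t) / 2) ≤ (lm - lp) * 1 :=
        mul_le_mul_of_nonneg_left (by linarith [h1.1]) (by linarith)
      linarith
  have hMb : ∀ t, 3 * r0 / 4 ≤ ‖k2 (g (U (lam t)))‖ ∧ ‖k2 (g (U (lam t)))‖ ≤ 5 * r0 / 4 :=
    fun t => ⟨hMlow _ ⟨hlp.1.1.trans (hlamm t).1, (hlamm t).2⟩, hMhigh _ (hlamm t)⟩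
  have hk1h : 3 / 4 ≤ ‖k1 (h v0)‖ ^ 2 := by
    have h1 := norm_k (h v0)
    rw [uh, hv0] at h1
    nlinarith
  have hk1g : ∀ t, 1 / 2 ≤ ‖k1 (g (U (lam t)))‖ ^ 2 := by
    intro t
    have h1 := norm_k (g (U (lam t)))
    rw [ug] at h1
    have h2 := (hMb t).2
    have h3 := norm_nonneg (k2 (g (U (lam t))))
    nlinarith
  -- phases
  set w1 : ℝ → ℂ := fun t => k1 (h v0) * (starRingEnd ℂ) (k1 (g (U (lam t)))) with hw1
  set w2 : ℝ → ℂ := fun t => k2 (h v0) * (starRingEnd ℂ) (k2 (g (U (lam t)))) with hw2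
  have hw1n : ∀ t, ‖w1 t‖ = ‖k1 (h v0)‖ * ‖k1 (g (U (lam t)))‖ := fun t => by
    simp only [hw1]; rw [norm_mul, Complex.norm_conj]
  have hw2n : ∀ t, ‖w2 t‖ = ‖k2 (h v0)‖ * ‖k2 (g (U (lam t)))‖ := fun t => by
    simp only [hw2]; rw [norm_mul, Complex.norm_conj]
  have hw1l : ∀ t, 1 / 2 ≤ ‖w1 t‖ := by
    intro t
    have h1 : (1 / 2 : ℝ) ^ 2 ≤ ‖w1 t‖ ^ 2 := by
      rw [hw1n, mul_pow]
      have := hk1g t
      nlinarith
    exact (sq_le_sq₀ (by norm_num) (norm_nonneg _)).1 h1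
  have hw2l : ∀ t, 3 / 4 * r0 ^ 2 ≤ ‖w2 t‖ := by
    intro t
    rw [hw2n, hv0]
    have := (hMb t).1
    nlinarith
  have hw1c : Continuous w1 := by
    simp only [hw1]
    exact continuous_const.mul (Complex.continuous_conj.comp (k1.continuous.comp
      (hgc.comp (hUc.comp hlamc))))
  have hw2c : Continuous w2 := by
    simp only [hw2]
    exact continuous_const.mul (Complex.continuous_conj.comp (k2.continuous.comp
      (hgc.comp (hUc.comp hlamc))))
  obtain ⟨φ1, hφ1c, hφ1⟩ := exists_angle hw1c (fun t ht => by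
    have := hw1l t
    rw [ht, norm_zero] at this
    norm_num at this)
  obtain ⟨φ2, hφ2c, hφ2⟩ := exists_angle hw2c (fun t ht => by
    have := hw2l t
    rw [ht, norm_zero] at this
    nlinarith)
  -- bounds for the phases
  obtain ⟨C, hC⟩ : ∃ C, ∀ t ∈ Icc (-1 : ℝ) 1, |φ1 t| + |φ2 t| ≤ C := by
    obtain ⟨t0, -, ht0⟩ := (isCompact_Icc (a := (-1 : ℝ)) (b := 1)).exists_isMaxOn
      ⟨0, by constructor <;> norm_num⟩ (show ContinuousOn (fun t => |φ1 t| + |φ2 t|) _ from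
        (hφ1c.abs.add hφ2c.abs).continuousOn)
    exact ⟨_, fun t ht => ht0 ht⟩
  have hC0 : 0 ≤ C := (add_nonneg (abs_nonneg _) (abs_nonneg _)).trans
    (hC 0 (by constructor <;> norm_num))
  set ε : ℝ := r0 ^ 2 / 32 with hε
  have hε0 : 0 < ε := by positivity
  obtain ⟨N1, hN1⟩ := hA (C + 1) (by linarith) ε hε0
  obtain ⟨N2, hN2⟩ := hB (C + 1) (by linarith) ε hε0
  have e3 : ∀ᶠ n in atTop, ‖a (x (φ n)) - A‖ < ε := by
    have := Metric.tendsto_nhds.1 hlA ε hε0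
    simpa [dist_eq_norm] using this
  have e4 : ∀ᶠ n in atTop, ‖b (y (φ n)) - B‖ < ε := by
    have := Metric.tendsto_nhds.1 hlB ε hε0
    simpa [dist_eq_norm] using this
  have e5 : ∀ᶠ n in atTop, |us| + |x (φ n0) - us| + C + 1 < |x (φ n)| :=
    (hx.comp hφ.tendsto_atTop).eventually (eventually_gt_atTop _)
  have e6 : ∀ᶠ n in atTop, N1 ≤ φ n ∧ N2 ≤ φ n := by
    filter_upwards [hφ.tendsto_atTop.eventually (eventually_ge_atTop N1),
      hφ.tendsto_atTop.eventually (eventually_ge_atTop N2)] with n h1 h2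
    exact ⟨h1, h2⟩
  obtain ⟨n, hn3, hn4, hn5, hn6⟩ := (e3.and (e4.and (e5.and e6))).exists
  set X := x (φ n) with hX
  set Y := y (φ n) with hY
  -- the shifts
  set s : (Fin 3 → ℝ) → ℝ := fun p => ((φ1 (p 2) + p 0) - (φ2 (p 2) + p 1)) / 2 with hs
  set s' : (Fin 3 → ℝ) → ℝ := fun p => -((φ1 (p 2) + p 0) + (φ2 (p 2) + p 1)) / 2 with hs'
  have hsc : Continuous s := by rw [hs]; fun_prop
  have hsc' : Continuous s' := by rw [hs']; fun_prop
  have hsb : ∀ p : Fin 3 → ℝ, (∀ j, p j ∈ Icc (-1 : ℝ) 1) → |s p| ≤ C + 1 ∧ |s' p| ≤ C + 1 := by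
    intro p hp
    have h1 := hC (p 2) (hp 2)
    have h2 := hp 0
    have h3 := hp 1
    have h4 := abs_le.1 (le_refl |φ1 (p 2)|)
    have h5 := abs_le.1 (le_refl |φ2 (p 2)|)
    simp only [hs, hs']
    constructor <;> rw [abs_le] <;> constructor <;> linarith [h2.1, h2.2, h3.1, h3.2, h4.1, h4.2,
      h5.1, h5.2]
  set Gn : (Fin 3 → ℝ) → ℍ[ℝ] := fun p =>
    star (a (X + s' p)) * a (U (lam (p 2))) * b (Y + s p) * star B with hGn
  have hGnc : Continuous Gn := by rw [hGn]; fun_prop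
  have hGnu : ∀ p, ‖Gn p‖ = 1 := fun p => by
    simp only [hGn, norm_mul, norm_star, ua, ub, uB, one_mul]
  set Gi : (Fin 3 → ℝ) → ℍ[ℝ] := fun p => Ei (-(s' p)) * g (U (lam (p 2))) * Ei (s p) with hGi
  have hclose : ∀ p : Fin 3 → ℝ, (∀ j, p j ∈ Icc (-1 : ℝ) 1) → ‖Gn p - Gi p‖ ≤ r0 ^ 2 / 8 := by
    intro p hp
    obtain ⟨b1, b2⟩ := hsb p hp
    have c1 : ‖a (X + s' p) - A * Ei (s' p)‖ ≤ 2 * ε := by
      have d1 := hN1 (φ n) hn6.1 (s' p) b2
      have e : a (X + s' p) - A * Ei (s' p) =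
          (a (X + s' p) - a X * Ei (s' p)) + (a X - A) * Ei (s' p) := by noncomm_ring
      rw [e]
      refine (norm_add_le _ _).trans ?_
      rw [norm_mul, norm_Ei, mul_one]
      linarith
    have c2 : ‖b (Y + s p) - Ei (s p) * B‖ ≤ 2 * ε := by
      have d1 := hN2 (φ n) hn6.2 (s p) b1
      have e : b (Y + s p) - Ei (s p) * B =
          (b (Y + s p) - Ei (s p) * b Y) + Ei (s p) * (b Y - B) := by noncomm_ring
      rw [e]
      refine (norm_add_le _ _).trans ?_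
      rw [norm_mul, norm_Ei, one_mul]
      linarith
    have := close_lemma (a' := a (X + s' p)) (aX := A) (U := a (U (lam (p 2))))
      (aU := a (U (lam (p 2)))) (b' := b (Y + s p)) (bX := B) (E1 := Ei (s' p)) (E2 := Ei (s p))
      (ε := ε) rfl (ua _) (ub _) uB uA (norm_Ei _) c1 c2
    rw [star_Ei] at this
    have e : 4 * ε = r0 ^ 2 / 8 := by rw [hε]; ring
    rw [← e]
    exact this
  have hi1 : ∀ p, k1 (Gi p) * (starRingEnd ℂ) (k1 (h v0)) = (‖w1 (p 2)‖ : ℂ) * ei (p 0) := by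
    intro p
    simp only [hGi]
    rw [k1_conj]
    have e1 : -(s' p) + s p = φ1 (p 2) + p 0 := by simp only [hs, hs']; ring
    rw [e1]
    have e2 : k1 (g (U (lam (p 2)))) * (starRingEnd ℂ) (k1 (h v0)) =
        (starRingEnd ℂ) (w1 (p 2)) := by
      simp only [hw1, map_mul, Complex.conj_conj]; ring
    rw [mul_assoc, e2]
    conv_lhs => rw [hφ1 (p 2)]
    rw [map_mul, Complex.conj_ofReal]
    have e3 : ei (φ1 (p 2) + p 0) = ei (φ1 (p 2)) * ei (p 0) := by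
      simp only [ei]; rw [← Complex.exp_add]; congr 1; push_cast; ring
    have e4 : ei (φ1 (p 2)) * (starRingEnd ℂ) (ei (φ1 (p 2))) = 1 := by
      rw [Complex.mul_conj, Complex.normSq_eq_norm_sq, norm_ei]; simp
    rw [e3]
    linear_combination ((‖w1 (p 2)‖ : ℂ) * ei (p 0)) * e4
  have hi2 : ∀ p, k2 (Gi p) * (starRingEnd ℂ) (k2 (h v0)) = (‖w2 (p 2)‖ : ℂ) * ei (p 1) := by
    intro p
    simp only [hGi]
    rw [k2_conj]
    have e1 : -(s' p) - s p = φ2 (p 2) + p 1 := by simp only [hs, hs']; ring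
    rw [e1]
    have e2 : k2 (g (U (lam (p 2)))) * (starRingEnd ℂ) (k2 (h v0)) =
        (starRingEnd ℂ) (w2 (p 2)) := by
      simp only [hw2, map_mul, Complex.conj_conj]; ring
    rw [mul_assoc, e2]
    conv_lhs => rw [hφ2 (p 2)]
    rw [map_mul, Complex.conj_ofReal]
    have e3 : ei (φ2 (p 2) + p 1) = ei (φ2 (p 2)) * ei (p 1) := by
      simp only [ei]; rw [← Complex.exp_add]; congr 1; push_cast; ring
    have e4 : ei (φ2 (p 2)) * (starRingEnd ℂ) (ei (φ2 (p 2))) = 1 := by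
      rw [Complex.mul_conj, Complex.normSq_eq_norm_sq, norm_ei]; simp
    rw [e3]
    linear_combination ((‖w2 (p 2)‖ : ℂ) * ei (p 1)) * e4
  have hi3 : ∀ p, ‖k2 (Gi p)‖ = ‖k2 (g (U (lam (p 2))))‖ := by
    intro p
    simp only [hGi]
    rw [k2_conj, norm_mul, norm_ei, one_mul]
  -- perturbation estimates
  have hp1 : ∀ p : Fin 3 → ℝ, (∀ j, p j ∈ Icc (-1 : ℝ) 1) →
      ‖k1 (Gn p) * (starRingEnd ℂ) (k1 (h v0)) - (‖w1 (p 2)‖ : ℂ) * ei (p 0)‖ ≤ r0 ^ 2 / 8 := by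
    intro p hp
    rw [← hi1 p, ← sub_mul, ← map_sub, norm_mul, Complex.norm_conj]
    have h1 := (norm_k1_le (Gn p - Gi p)).trans (hclose p hp)
    have h2 : ‖k1 (h v0)‖ ≤ 1 := by rw [← uh v0]; exact norm_k1_le _
    have h3 := mul_le_mul h1 h2 (norm_nonneg _) (by positivity)
    linarith
  have hp2 : ∀ p : Fin 3 → ℝ, (∀ j, p j ∈ Icc (-1 : ℝ) 1) →
      ‖k2 (Gn p) * (starRingEnd ℂ) (k2 (h v0)) - (‖w2 (p 2)‖ : ℂ) * ei (p 1)‖ ≤ r0 ^ 2 / 8 := by
    intro p hp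
    rw [← hi2 p, ← sub_mul, ← map_sub, norm_mul, Complex.norm_conj]
    have h1 := (norm_k2_le (Gn p - Gi p)).trans (hclose p hp)
    have h2 : ‖k2 (h v0)‖ ≤ 1 := by rw [← uh v0]; exact norm_k2_le _
    have h3 := mul_le_mul h1 h2 (norm_nonneg _) (by positivity)
    linarith
  have hp3 : ∀ p : Fin 3 → ℝ, (∀ j, p j ∈ Icc (-1 : ℝ) 1) →
      |‖k2 (Gn p)‖ - ‖k2 (g (U (lam (p 2))))‖| ≤ r0 ^ 2 / 8 := by
    intro p hp
    rw [← hi3 p]
    have h1 := abs_norm_sub_norm_le (k2 (Gn p)) (k2 (Gi p))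
    rw [← map_sub] at h1
    exact h1.trans ((norm_k2_le _).trans (hclose p hp))
  have him : ∀ (r t : ℝ), ((r : ℂ) * ei t).im = r * Real.sin t := fun r t => by
    rw [Complex.im_ofReal_mul, ei_im]
  have hre : ∀ (r t : ℝ), ((r : ℂ) * ei t).re = r * Real.cos t := fun r t => by
    rw [Complex.re_ofReal_mul, ei_re]
  have himd : ∀ z w : ℂ, |z.im - w.im| ≤ ‖z - w‖ := fun z w => by
    rw [← Complex.sub_im]; exact Complex.abs_im_le_norm _
  have hred : ∀ z w : ℂ, |z.re - w.re| ≤ ‖z - w‖ := fun z w => by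
    rw [← Complex.sub_re]; exact Complex.abs_re_le_norm _
  have hsin1 : 3 / 4 < Real.sin 1 := by
    have := Real.sin_gt_sub_cube (x := 1) one_pos
    norm_num at this
    linarith
  have hr0sq : r0 ^ 2 ≤ 1 / 4 := by nlinarith
  have hr0sq' : r0 ^ 2 ≤ r0 / 2 := by nlinarith
  obtain ⟨p, hpm, hp0⟩ := miranda (fun p => ![(k1 (Gn p) * (starRingEnd ℂ) (k1 (h v0))).im,
      (k2 (Gn p) * (starRingEnd ℂ) (k2 (h v0))).im, ‖k2 (Gn p)‖ - r0])
    (by
      refine continuous_pi fun j => ?_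
      have c1 : Continuous (fun p => (k1 (Gn p) * (starRingEnd ℂ) (k1 (h v0))).im) :=
        Complex.continuous_im.comp ((k1.continuous.comp hGnc).mul continuous_const)
      have c2 : Continuous (fun p => (k2 (Gn p) * (starRingEnd ℂ) (k2 (h v0))).im) :=
        Complex.continuous_im.comp ((k2.continuous.comp hGnc).mul continuous_const)
      have c3 : Continuous (fun p => ‖k2 (Gn p)‖ - r0) :=
        (k2.continuous.comp hGnc).norm.sub continuous_const
      fin_cases j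
      · exact c1
      · exact c2
      · exact c3)
    (by
      intro p i hp hi
      fin_cases i
      · show 0 < (k1 (Gn p) * (starRingEnd ℂ) (k1 (h v0))).im
        have h1 := (himd _ _).trans (hp1 p hp)
        have hi' : p 0 = 1 := hi
        rw [him, hi', abs_le] at h1
        have h2 := hw1l (p 2)
        nlinarith [h1.1]
      · show 0 < (k2 (Gn p) * (starRingEnd ℂ) (k2 (h v0))).im
        have h1 := (himd _ _).trans (hp2 p hp)
        have hi' : p 1 = 1 := hi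
        rw [him, hi', abs_le] at h1
        have h2 := hw2l (p 2)
        nlinarith [h1.1, sq_pos_of_pos hr0]
      · show 0 < ‖k2 (Gn p)‖ - r0
        have h1 := hp3 p hp
        have hi' : p 2 = 1 := hi
        have h2 : lam 1 = lp := by
          simp only [hlam]; rw [cl_of_ge le_rfl]; ring
        rw [hi', h2] at h1
        have h3 : ‖k2 (g (U lp))‖ = 5 * r0 / 4 := hMlp
        rw [h3, abs_le] at h1
        linarith [h1.1])
    (by
      intro p i hp hi
      fin_cases i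
      · show (k1 (Gn p) * (starRingEnd ℂ) (k1 (h v0))).im < 0
        have h1 := (himd _ _).trans (hp1 p hp)
        have hi' : p 0 = -1 := hi
        rw [him, hi', Real.sin_neg, abs_le] at h1
        have h2 := hw1l (p 2)
        nlinarith [h1.2]
      · show (k2 (Gn p) * (starRingEnd ℂ) (k2 (h v0))).im < 0
        have h1 := (himd _ _).trans (hp2 p hp)
        have hi' : p 1 = -1 := hi
        rw [him, hi', Real.sin_neg, abs_le] at h1
        have h2 := hw2l (p 2)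
        nlinarith [h1.2, sq_pos_of_pos hr0]
      · show ‖k2 (Gn p)‖ - r0 < 0
        have h1 := hp3 p hp
        have hi' : p 2 = -1 := hi
        have h2 : lam (-1) = lm := by
          simp only [hlam]; rw [cl_of_le le_rfl]; ring
        rw [hi', h2] at h1
        have h3 : ‖k2 (g (U lm))‖ = 3 * r0 / 4 := hMlm
        rw [h3, abs_le] at h1
        linarith [h1.2])
  have z1 : (k1 (Gn p) * (starRingEnd ℂ) (k1 (h v0))).im = 0 := congrFun hp0 0
  have z2 : (k2 (Gn p) * (starRingEnd ℂ) (k2 (h v0))).im = 0 := congrFun hp0 1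
  have z3 : ‖k2 (Gn p)‖ - r0 = 0 := congrFun hp0 2
  have hcos : ∀ t ∈ Icc (-1 : ℝ) 1, 1 / 2 ≤ Real.cos t := fun t ht => by
    have h1 := Real.one_sub_sq_div_two_le_cos (x := t)
    nlinarith [ht.1, ht.2]
  have y1 : 0 < (k1 (Gn p) * (starRingEnd ℂ) (k1 (h v0))).re := by
    have h1 := (hred _ _).trans (hp1 p hpm)
    rw [hre, abs_le] at h1
    have h2 := hw1l (p 2)
    have h3 := hcos (p 0) (hpm 0)
    nlinarith [h1.1]
  have y2 : 0 < (k2 (Gn p) * (starRingEnd ℂ) (k2 (h v0))).re := by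
    have h1 := (hred _ _).trans (hp2 p hpm)
    rw [hre, abs_le] at h1
    have h2 := hw2l (p 2)
    have h3 := hcos (p 1) (hpm 1)
    have h4 : 3 / 4 * r0 ^ 2 * (1 / 2) ≤ ‖w2 (p 2)‖ * Real.cos (p 1) :=
      mul_le_mul h2 h3 (by norm_num) (norm_nonneg _)
    nlinarith [h1.1, sq_pos_of_pos hr0]
  have hk2eq : k2 (Gn p) = k2 (h v0) := eq_of_phase (by rw [hv0]; linarith) z2 y2
  have hk1eq : k1 (Gn p) = k1 (h v0) := by
    refine eq_of_phase ?_ z1 y1
    have h1 := norm_k (Gn p)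
    have h2 := norm_k (h v0)
    rw [hGnu, hk2eq] at h1
    rw [uh] at h2
    have h3 : ‖k1 (Gn p)‖ ^ 2 = ‖k1 (h v0)‖ ^ 2 := by linarith
    exact (sq_eq_sq₀ (norm_nonneg _) (norm_nonneg _)).1 h3
  have hfin : Gn p = h v0 := ext_k hk1eq hk2eq
  have hab : a (U (lam (p 2))) * b (Y + s p) = a (X + s' p) * b v0 := by
    have h1 : a (X + s' p) * Gn p * B = a (X + s' p) * h v0 * B := by rw [hfin]
    simp only [hGn, hh] at h1
    have e1 : a (X + s' p) * (star (a (X + s' p)) * a (U (lam (p 2))) * b (Y + s p) * star B) * B =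
        (a (X + s' p) * star (a (X + s' p))) * a (U (lam (p 2))) * b (Y + s p) * (star B * B) := by
      simp only [mul_assoc]
    have e2 : a (X + s' p) * (b v0 * star B) * B = a (X + s' p) * b v0 * (star B * B) := by
      simp only [mul_assoc]
    rw [e1, e2, self_mul_star1 (ua _), star_mul_self1 uB, one_mul, mul_one, mul_one] at h1
    exact h1
  have hUeq := (abi _ _ _ _ hab).1
  have hUb : |U (lam (p 2))| ≤ |us| + |x (φ n0) - us| := by
    simp only [hU]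
    refine (abs_add_le _ _).trans ?_
    rw [abs_mul]
    have h1 := hlamm (p 2)
    have h2 : |lam (p 2)| ≤ 1 := by
      rw [abs_le]
      constructor
      · linarith [h1.1, hlp.1.1]
      · exact h1.2.trans hlm.1.2
    have h3 := mul_le_mul_of_nonneg_right h2 (abs_nonneg (x (φ n0) - us))
    linarith
  have hXb : |X| ≤ |U (lam (p 2))| + |s' p| := by
    rw [hUeq]
    have : X = (X + s' p) - s' p := by ring
    calc |X| = |(X + s' p) - s' p| := by rw [← this]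
      _ ≤ _ := abs_sub _ _
  have := (hsb p hpm).2
  linarith

end Pool.Agent.Helper253.Emb
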