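import Pool.Agent.Helper253.Emb.OfImm

set_option autoImplicit false

namespace Pool.Agent.Helper253

open Quaternion Topology Set Filter
open scoped ContDiff NNReal InnerProductSpace
open Net Emb

/-- Reduction of the theorem to asymptotic webs. -/
theorem no_embedding_of (h : Emb.Web → False) :
    ¬ ∃ f : EuclideanSpace ℝ (Fin 2) → EuclideanSpace ℝ (Fin 4),
        ContDiff ℝ ((⊤ : ℕ∞) : WithTop ℕ∞) f ∧
        (∀ x, ‖f x‖ = 1) ∧
        (∀ x v, ‖fderiv ℝ f x v‖ = ‖v‖) ∧
        Topology.IsEmbedding f := by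
  rintro ⟨f, hF, hunit, hiso, hemb⟩
  have hSf : (toImm hF hunit hiso).f = fun z => isoQ.symm (f (isoT z)) := rfl
  have hSemb : IsEmbedding (toImm hF hunit hiso).f := by
    rw [hSf]
    exact (isoQ.symm.toHomeomorph.isEmbedding.comp hemb).comp isoT.toHomeomorph.isEmbedding
  obtain ⟨W, -⟩ := (toImm hF hunit hiso).exists_web hSemb
  exact h W

end Pool.Agent.Helper253
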