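import Pool.Agent.Helper253.Emb.Bounds

set_option autoImplicit false

namespace Pool.Agent.Helper253.Emb

open Quaternion Topology Set Metric
open scoped ContDiff
open Pool.Agent.Helper253.Net

namespace Web

variable {W : Web}

/-- Lower bound for the height of a strand displaced across the sheet. -/
theorem lower_b {c φ κ m s : ℝ} (B : Base W c φ κ m s s) {δ2 m' : ℝ} (hδ : 0 < δ2)
    (hδm : δ2 ≤ m / 8) (hm' : 0 < m') (hW' : W.Win (c * δ2 / 64) m' s) {v v' : ℝ}
    (hvv : c / 4 ≤ |v' - v|) (h1 : ‖W.b v' * star (W.b v) - 1‖ = δ2)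
    (h2 : |ip (W.b v' * star (W.b v)) (hat (ei φ))| ≤ c * δ2 / 64) :
    min (min (c * δ2 / 64) (m' / 8) / 2) (m' * (c * δ2 / 64) / 4) ≤
      |B.ht v (W.b v' * star (W.b v))| := by
  have hc0 := B.hc.1
  have hc1 := B.hc.2.1
  have hm := B.hm
  have hmκ := B.hmκ
  have hsm := B.small.1
  have hsm' := B.small'
  set τ : ℝ := c * δ2 / 64 with hτ
  have hτ0 : 0 < τ := by positivity
  have hτδ : τ ≤ δ2 / 64 := by rw [hτ]; nlinarith
  have hτc : τ ≤ c / 64 := by rw [hτ]; nlinarith
  set h0 : ℝ := min τ (m' / 8) with hh0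
  have hh0p : 0 < h0 := by positivity
  have hh1 : h0 ≤ τ := min_le_left _ _
  have hh2 : h0 ≤ m' / 8 := min_le_right _ _
  by_cases hbig : h0 / 2 ≤ |B.ht v (W.b v' * star (W.b v))|
  · exact (min_le_left _ _).trans hbig
  push Not at hbig
  refine (min_le_right _ _).trans ?_
  have hshift : ∀ x, ‖W.b (v' + x) * star (W.b v) - W.b v' * star (W.b v)‖ ≤ |x| := fun x => by
    rw [← sub_mul, norm_mul, norm_star, W.ub, mul_one]
    have := W.lip_b (v' + x) v'
    rwa [add_sub_cancel_left] at this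
  have hQ : ∀ x, |x| ≤ τ → ‖W.b (v' + x) * star (W.b v) - 1‖ < m / 4 := fun x hx => by
    have e := norm_add_le (W.b (v' + x) * star (W.b v) - W.b v' * star (W.b v))
      (W.b v' * star (W.b v) - 1)
    rw [sub_add_sub_cancel, h1] at e
    have := hshift x
    linarith
  have hex : ∀ x, |x| ≤ τ → ∃ h', HasDerivAt (fun σ => B.ht v (W.b (v' + σ) * star (W.b v))) h' x ∧
      (s ≤ (B.foot v (W.b (v' + x) * star (W.b v))).1 →
        1 / 2 * cr (ei (W.θ2 (v' + x))) (W.F (B.foot v (W.b (v' + x) * star (W.b v))).1 - W.F s)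
          - 2 * |B.ht v (W.b (v' + x) * star (W.b v))| ≤ h') ∧
      ((B.foot v (W.b (v' + x) * star (W.b v))).1 ≤ s → h' ≤
        1 / 2 * cr (ei (W.θ2 (v' + x))) (W.F (B.foot v (W.b (v' + x) * star (W.b v))).1 - W.F s)
          + 2 * |B.ht v (W.b (v' + x) * star (W.b v))|) :=
    fun x hx => slope_b B v v' (hQ x hx)
  choose! h' hd hsp hsn using hex
  have hfar : ∀ x, |x| ≤ τ → |B.ht v (W.b (v' + x) * star (W.b v))| ≤ h0 →
      τ ≤ |(B.foot v (W.b (v' + x) * star (W.b v))).1 - s| := by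
    intro x hx hxh
    by_contra hcon
    push Not at hcon
    obtain ⟨f1, f2, f3⟩ := B.foot_spec (v := v) (hQ x hx).le
    have hu : ‖W.b (v' + x) * star (W.b v)‖ = 1 := by
      rw [norm_mul, norm_star, W.ub, W.ub, one_mul]
    have g2 := ((B.sheet v).g_norm (B.mem_cb (v := v) (hQ x hx).le) hu).2.1
    rw [f3] at g2
    change _ ≤ 2 * |B.ht v (W.b (v' + x) * star (W.b v))| at g2
    set u := (B.foot v (W.b (v' + x) * star (W.b v))).1
    set w := (B.foot v (W.b (v' + x) * star (W.b v))).2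
    have e1 : ‖star (W.a s) * W.a u * (W.b w * star (W.b v)) - W.b w * star (W.b v)‖ ≤ τ := by
      have e : star (W.a s) * W.a u * (W.b w * star (W.b v)) - W.b w * star (W.b v) =
          (star (W.a s) * W.a u - 1) * (W.b w * star (W.b v)) := by noncomm_ring
      rw [e, norm_mul, norm_mul, norm_star, W.ub, W.ub, W.norm_a_star, one_mul, mul_one]
      exact (W.lip_a u s).trans hcon.le
    have e2 : ‖W.b v' * star (W.b v) - W.b w * star (W.b v)‖ ≤ 4 * τ := by
      have e : W.b v' * star (W.b v) - W.b w * star (W.b v) =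
          -(W.b (v' + x) * star (W.b v) - W.b v' * star (W.b v)) +
          (W.b (v' + x) * star (W.b v) - star (W.a s) * W.a u * (W.b w * star (W.b v))) +
          (star (W.a s) * W.a u * (W.b w * star (W.b v)) - W.b w * star (W.b v)) := by abel
      rw [e]
      refine (norm_add₃_le).trans ?_
      rw [norm_neg]
      have := hshift x
      linarith
    have e3 : |ip (W.b w * star (W.b v)) (hat (ei φ))| ≤ 5 * τ := by
      have e : ip (W.b w * star (W.b v)) (hat (ei φ)) = ip (W.b v' * star (W.b v)) (hat (ei φ)) -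
          ip (W.b v' * star (W.b v) - W.b w * star (W.b v)) (hat (ei φ)) := by
        rw [ip_sub]; ring
      rw [e]
      have e4 := abs_ip_le (W.b v' * star (W.b v) - W.b w * star (W.b v)) (hat (ei φ))
      rw [norm_hat, norm_ei, mul_one] at e4
      refine (abs_sub _ _).trans ?_
      linarith
    have e5 := B.hc.chord (v := v) (w := w) (by linarith)
    have e6 : ‖W.b v' * star (W.b v) - 1‖ ≤ 4 * τ + |w - v| := by
      have e := norm_add_le (W.b v' * star (W.b v) - W.b w * star (W.b v))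
        (W.b w * star (W.b v) - 1)
      rw [sub_add_sub_cancel, W.norm_b_star v w] at e
      have := W.lip_b w v
      linarith
    rw [h1] at e6
    have e7 : c * |w - v| ≤ 10 * τ := by linarith
    have e8 : |w - v| ≤ 10 * (δ2 / 64) := by
      have : c * |w - v| ≤ c * (10 * (δ2 / 64)) := by
        have : c * (10 * (δ2 / 64)) = 10 * τ := by rw [hτ]; ring
        rw [this]; exact e7
      exact le_of_mul_le_mul_left this hc0
    linarith
  have hFm : ∀ (x : ℝ) {y z : ℝ}, y ≤ z → 0 ≤ cr (ei (W.θ2 x)) (W.F z - W.F y) := by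
    intro x y z hyz
    have := growth (C := 0) (fun y => hasDerivAt_cr_right (W.dF y) (ei (W.θ2 x)))
      (fun y => by rw [cr_ei]; exact (W.sin_pos _ _).le) hyz
    rw [cr_sub_right]
    linarith
  have hlin : ∀ x : ℝ, HasDerivAt (fun x => 1 / 2 * m' * x) (1 / 2 * m') x := fun x => by
    have := (hasDerivAt_id x).const_mul (1 / 2 * m')
    rw [mul_one] at this
    exact this
  have key := exit_two (h := fun x => B.ht v (W.b (v' + x) * star (W.b v))) (h' := h')
    (r := fun x => (B.foot v (W.b (v' + x) * star (W.b v))).1 - s)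
    (Γp := fun x => 1 / 2 * m' * x) (Γp' := fun _ => 1 / 2 * m')
    (Γn := fun x => 1 / 2 * m' * x) (Γn' := fun _ => 1 / 2 * m')
    (T := τ) (e := 2 * h0) (h0 := h0) (R := 1 / 2 * m' * τ) hτ0.le (by positivity)
    hd (fun x hx => by
      have hc : ContinuousAt (fun x => W.b (v' + x) * star (W.b v)) x := by
        have := W.cont_b
        fun_prop
      have h1 := B.foot_cont (v := v) hc (hQ x hx)
      exact (continuous_fst.continuousAt.comp h1).sub continuousAt_const)
    hlin hlin (fun x => by positivity) (fun x => by positivity)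
    (fun x hx h => by
      have h1 := hQ x hx
      have e : W.b (v' + x) * star (W.b v) =
          star (W.a s) * W.a s * (W.b (v' + x) * star (W.b v)) := by
        rw [star_mul_self1 (W.ua s), one_mul]
      rw [e] at h h1
      obtain ⟨k1, k2⟩ := B.zero_height h1.le h
      rw [abs_le] at hx k2
      rcases le_abs.1 hvv with h4 | h4 <;> linarith [k2.1, k2.2, hx.1, hx.2])
    (fun x hx hxh h => by
      have := hfar x hx hxh
      rw [h, abs_zero] at this
      linarith)
    (fun x hx hxh hr => by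
      have h1 := hfar x hx hxh
      rw [abs_of_pos hr] at h1
      have h2 := hsp x hx (by linarith)
      have h3 := hFm (v' + x) (show s + τ ≤ (B.foot v (W.b (v' + x) * star (W.b v))).1 by linarith)
      have h4 := hW'.1 (v' + x)
      rw [cr_sub_right] at h2 h3 h4
      linarith)
    (fun x hx hxh hr => by
      have h1 := hfar x hx hxh
      rw [abs_of_neg hr] at h1
      have h2 := hsn x hx (by linarith)
      have h3 := hFm (v' + x) (show (B.foot v (W.b (v' + x) * star (W.b v))).1 ≤ s - τ by linarith)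
      have h4 := hW'.2 (v' + x)
      rw [cr_sub_right] at h2 h3 h4
      linarith)
    (by
      simp only [add_zero]
      nlinarith)
    (by simp) (by simp) (by simp) (by simp)
  simp only [add_zero] at key
  have h6 : 2 * h0 * τ ≤ m' * τ / 4 := by nlinarith
  linarith

theorem g_one {c φ κ m s : ℝ} (B : Base W c φ κ m s s) (v : ℝ) (r : ℝ) (hr : |r| ≤ m / 4) :
    (B.sheet v).g ((1 + r) • (1 : ℍ[ℝ])) = r • (1 : ℍ[ℝ]) := by
  have hm := B.hm
  have hS0 : (B.sheet v).S 0 = 1 := by
    show star (W.a s) * W.f (W.F s + W.G v + 0) * star (W.b v) = 1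
    rw [add_zero, W.hf, ← mul_assoc, star_mul_self1 (W.ua s), one_mul, self_mul_star1 (W.ub v)]
  have h1 : (B.sheet v).Φ (r • (1 : ℍ[ℝ])) = (1 + r) • (1 : ℍ[ℝ]) := by
    have e1 : reL (r • (1 : ℍ[ℝ])) = r := by simp [reL_apply]
    have e2 : zL (r • (1 : ℍ[ℝ])) = 0 := by apply Complex.ext <;> simp [zL_re, zL_im]
    have e3 : kL (r • (1 : ℍ[ℝ])) = 0 := by simp [kL_apply]
    unfold Sheet.Φ
    rw [e1, e2, e3, hS0, zero_smul, add_zero]
  have hn : ‖r • (1 : ℍ[ℝ])‖ = |r| := by rw [norm_smul, norm_one, mul_one, Real.norm_eq_abs]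
  rw [← h1]
  apply Sheet.g_Φ
  · rw [mem_closedBall_zero_iff, B.rho, hn]; linarith
  · rw [h1]
    apply B.mem_cb
    have : (1 + r) • (1 : ℍ[ℝ]) - 1 = r • (1 : ℍ[ℝ]) := by module
    rw [this, hn]
    exact hr

theorem flip_alg {X i h R : ℝ} (hi : 0 < i) (hh : h ≠ 0) (hR : 15 / 16 ≤ R)
    (hap : |X + i * h * R| ≤ 1 / 4 * |i * h|) : X * h < 0 := by
  rw [abs_mul, abs_of_pos hi] at hap
  rcases lt_or_gt_of_ne hh with h8 | h8
  · rw [abs_of_neg h8, abs_le] at hap
    have h9 : 0 < i * (-h) := mul_pos hi (by linarith)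
    have h10 : i * (-h) * (15 / 16) ≤ i * (-h) * R := mul_le_mul_of_nonneg_left hR h9.le
    have h11 : 0 < X := by linarith [hap.1]
    exact mul_neg_of_pos_of_neg h11 h8
  · rw [abs_of_pos h8, abs_le] at hap
    have h9 : 0 < i * h := mul_pos hi h8
    have h10 : i * h * (15 / 16) ≤ i * h * R := mul_le_mul_of_nonneg_left hR h9.le
    have h11 : X < 0 := by linarith [hap.2]
    exact mul_neg_of_neg_of_pos h11 h8

theorem flip_alg2 {x y h : ℝ} (h1 : 0 < x * y) (h2 : y * h < 0) : x * h < 0 := by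
  by_contra hcon
  push Not at hcon
  have h3 : 0 ≤ (x * y) * (x * h) := mul_nonneg h1.le hcon
  have h4 : (x * y) * (x * h) = x ^ 2 * (y * h) := by ring
  have h5 : x ≠ 0 := by
    intro h; rw [h, zero_mul] at h1; exact lt_irrefl _ h1
  have h6 : 0 < x ^ 2 := by positivity
  have h7 : x ^ 2 * (y * h) < 0 := mul_neg_of_pos_of_neg h6 h2
  linarith

/-- Exchanging the two parameters changes the sign of the height. -/
theorem flip {c φ κ m s : ℝ} (B : Base W c φ κ m s s) {v v' : ℝ} (hvv : c / 4 ≤ |v' - v|)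
    (hE : ‖W.b v' * star (W.b v) - 1‖ ≤ m / 16) :
    B.ht v (W.b v' * star (W.b v)) * B.ht v' (W.b v * star (W.b v')) < 0 := by
  have hm := B.hm
  have hc0 := B.hc.1
  have hsm' := B.small'
  have hsm := B.small.1
  have hmκ := B.hmκ
  have hE' : ‖W.b v * star (W.b v') - 1‖ ≤ m / 16 := by
    rw [W.norm_b_star, norm_sub_rev, ← W.norm_b_star]; exact hE
  have hcb := B.mem_cb (v := v') (Q := W.b v * star (W.b v')) (by linarith)
  have hg1 : (B.sheet v').g 1 = 0 := by
    have := g_one B v' 0 (by rw [abs_zero]; linarith)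
    simpa using this
  have h1cb := B.mem_cb (v := v') (Q := 1) (by rw [sub_self, norm_zero]; linarith)
  have hga := (B.sheet v').g_approx hcb h1cb
  rw [hg1, sub_zero] at hga
  set y := (B.sheet v').g (W.b v * star (W.b v')) with hy
  have hyn : ‖y‖ ≤ 5 / 64 * m := by
    have e : y = (y - (W.b v * star (W.b v') - 1)) + (W.b v * star (W.b v') - 1) := by abel
    have : ‖y‖ ≤ ‖y - (W.b v * star (W.b v') - 1)‖ + ‖W.b v * star (W.b v') - 1‖ := by
      calc ‖y‖ = ‖(y - (W.b v * star (W.b v') - 1)) + (W.b v * star (W.b v') - 1)‖ := by rw [← e]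
        _ ≤ _ := norm_add_le _ _
    linarith
  set z := zL y with hz
  have hzn : ‖z‖ ≤ 5 / 64 * m := (norm_zL_le y).trans hyn
  have htn : |reL y| ≤ 5 / 64 * m := (abs_reL_le y).trans hyn
  have heq := (B.sheet v').g_eq hcb
  rw [← hy, ← hz] at heq
  -- the path in the second sheet
  set Q : ℝ → ℍ[ℝ] := fun θ => star (W.a s) * W.f (W.F s + W.G v' + θ • z) * star (W.b v) with hQ
  have hθz : ∀ θ ∈ Icc (0 : ℝ) 1, ‖θ • z‖ ≤ 5 / 64 * m := fun θ hθ => by
    rw [norm_smul, Real.norm_eq_abs, abs_of_nonneg hθ.1]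
    exact (mul_le_of_le_one_left (norm_nonneg _) hθ.2).trans hzn
  have hQn : ∀ θ ∈ Icc (0 : ℝ) 1, ‖Q θ - 1‖ ≤ m / 4 := by
    intro θ hθ
    have h1 := B.f_lip v' (z := θ • z) (z' := 0) (by have := hθz θ hθ; linarith)
      (by rw [norm_zero]; exact hm)
    rw [sub_zero, add_zero, W.hf] at h1
    have e : Q θ - 1 = star (W.a s) * (W.f (W.F s + W.G v' + θ • z) - W.a s * W.b v') *
        star (W.b v) + (W.b v' * star (W.b v) - 1) := by
      have e1 : star (W.a s) * (W.a s * W.b v') = W.b v' := by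
        rw [← mul_assoc, star_mul_self1 (W.ua s), one_mul]
      simp only [hQ]
      rw [mul_sub, sub_mul, e1]
      abel
    rw [e]
    refine (norm_add_le _ _).trans ?_
    rw [norm_mul, norm_mul, norm_star, norm_star, W.ua, W.ub, one_mul, mul_one]
    have := hθz θ hθ
    linarith
  have hQne : ∀ θ ∈ Icc (0 : ℝ) 1, B.ht v (Q θ) ≠ 0 := by
    intro θ hθ h0
    obtain ⟨g1, g2, g3, g4⟩ := B.coords v' (z := θ • z) (by have := hθz θ hθ; linarith)
    have e : Q θ = star (W.a s) * W.a (W.Pinv (W.F s + W.G v' + θ • z)).1 *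
        (W.b (W.Pinv (W.F s + W.G v' + θ • z)).2 * star (W.b v)) := by
      simp only [hQ]
      conv_lhs => rw [← g4, W.hf]
      simp only [mul_assoc]
    have hn := hQn θ hθ
    rw [e] at h0 hn
    obtain ⟨k1, k2⟩ := B.zero_height hn h0
    rw [abs_le] at k2 g3
    rcases le_abs.1 hvv with h4 | h4 <;> linarith [k2.1, k2.2, g3.1, g3.2]
  have hQc : ContinuousOn (fun θ => B.ht v (Q θ)) (Icc 0 1) := by
    have hQcont : Continuous Q := by
      have := W.sf.continuous
      simp only [hQ]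
      fun_prop
    intro θ hθ
    rw [ContinuousWithinAt, Metric.tendsto_nhdsWithin_nhds]
    intro ε hε
    obtain ⟨d, hd, hd2⟩ := Metric.continuous_iff.1 hQcont θ (ε / 2) (by positivity)
    refine ⟨d, hd, fun {θ'} hθ' hdist => ?_⟩
    have h1 := hd2 θ' hdist
    have h2 := B.cmp_v (v := v) (v' := v) (hQn θ' hθ') (hQn θ hθ)
    rw [sub_self, abs_zero, mul_zero, add_zero] at h2
    rw [dist_eq_norm] at h1
    rw [Real.dist_eq]
    linarith
  have hQ0 : Q 0 = W.b v' * star (W.b v) := by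
    simp only [hQ]
    rw [zero_smul, add_zero, W.hf, ← mul_assoc (star (W.a s)), star_mul_self1 (W.ua s), one_mul]
  have hsgn : 0 < B.ht v (Q 0) * B.ht v (Q 1) := by
    by_contra hcon
    push Not at hcon
    have h2 : (0 : ℝ) ∈ Icc (B.ht v (Q 0) * B.ht v (Q 1)) (B.ht v (Q 0) * B.ht v (Q 0)) :=
      ⟨hcon, mul_self_nonneg _⟩
    obtain ⟨x, hx, hx0⟩ := intermediate_value_Icc' (f := fun θ => B.ht v (Q 0) * B.ht v (Q θ))
      zero_le_one (continuousOn_const.mul hQc) h2
    exact (mul_ne_zero (hQne 0 ⟨le_refl 0, zero_le_one⟩) (hQne x hx)) hx0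
  -- the endpoint
  set t := reL y with ht
  set h := kL y with hh
  have ht1 : 63 / 64 ≤ 1 + t := by rw [abs_le] at htn; nlinarith [htn.1]
  have hne : 1 + t ≠ 0 := by linarith
  set r : ℝ := (1 + t)⁻¹ - 1 with hr
  have hrn : |r| ≤ m / 4 := by
    have e : r = -t * (1 + t)⁻¹ := by rw [hr]; field_simp; ring
    rw [e, abs_mul, abs_neg]
    have h1 : |(1 + t)⁻¹| ≤ 2 := by
      rw [abs_of_pos (by positivity), inv_le_comm₀ (by linarith) (by norm_num)]
      linarith
    calc |t| * |(1 + t)⁻¹| ≤ (5 / 64 * m) * 2 :=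
          mul_le_mul htn h1 (abs_nonneg _) (by positivity)
      _ ≤ m / 4 := by linarith
  have hg2 := g_one B v r hrn
  have hQ1 : Q 1 = (1 + r) • (1 : ℍ[ℝ]) - ((1 + t)⁻¹ * h) • (kq * (W.b v' * star (W.b v))) := by
    have e1 : (B.sheet v').S z = star (W.a s) * W.f (W.F s + W.G v' + z) * star (W.b v') := rfl
    have e2 : Q 1 = (B.sheet v').S z * (W.b v' * star (W.b v)) := by
      rw [e1]
      simp only [hQ]
      rw [one_smul, ← mul_assoc _ (W.b v'), mul_assoc _ (star (W.b v')), star_mul_self1 (W.ub v'),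
        mul_one]
    have e3 : (B.sheet v').S z = (1 + t)⁻¹ • (W.b v * star (W.b v') - h • kq) := by
      rw [← heq, add_sub_cancel_right, smul_smul, inv_mul_cancel₀ hne, one_smul]
    have e4 : W.b v * star (W.b v') * (W.b v' * star (W.b v)) = 1 := by
      rw [mul_assoc, ← mul_assoc (star (W.b v')), star_mul_self1 (W.ub v'), one_mul,
        self_mul_star1 (W.ub v)]
    have e5 : 1 + r = (1 + t)⁻¹ := by rw [hr]; ring
    rw [e2, e3, e5, smul_mul_assoc, sub_mul, e4, smul_mul_assoc, smul_sub, smul_smul]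
  have hn1 := hQn 1 ⟨zero_le_one, le_refl 1⟩
  have hcb1 := B.mem_cb (v := v) hn1
  have hcb2 := B.mem_cb (v := v) (Q := (1 + r) • (1 : ℍ[ℝ])) (by
    have : (1 + r) • (1 : ℍ[ℝ]) - 1 = r • (1 : ℍ[ℝ]) := by module
    rw [this, norm_smul, norm_one, mul_one, Real.norm_eq_abs]
    exact hrn)
  have hap := (B.sheet v).g_approx hcb1 hcb2
  rw [hg2] at hap
  have hdiff : Q 1 - (1 + r) • (1 : ℍ[ℝ]) = -(((1 + t)⁻¹ * h) • (kq * (W.b v' * star (W.b v)))) := by
    rw [hQ1]; abel
  rw [hdiff] at hap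
  have hap2 := (abs_kL_le _).trans hap
  rw [norm_neg, norm_smul, norm_mul kq, norm_mul (W.b v'), norm_kq, norm_star, W.ub, W.ub,
    one_mul, mul_one, mul_one] at hap2
  have e6 : kL ((B.sheet v).g (Q 1) - r • (1 : ℍ[ℝ]) -
      -(((1 + t)⁻¹ * h) • (kq * (W.b v' * star (W.b v))))) =
      B.ht v (Q 1) + (1 + t)⁻¹ * h * (W.b v' * star (W.b v)).re := by
    rw [map_sub, map_sub, map_neg, map_smul, map_smul]
    have k1 : kL (1 : ℍ[ℝ]) = 0 := by simp [kL_apply]
    have k2 : kL (kq * (W.b v' * star (W.b v))) = (W.b v' * star (W.b v)).re := by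
      generalize W.b v' * star (W.b v) = q
      simp [kL_apply]
    rw [k1, k2]
    simp only [smul_eq_mul, mul_zero, sub_zero, sub_neg_eq_add]
    rfl
  rw [e6] at hap2
  have hre : 15 / 16 ≤ (W.b v' * star (W.b v)).re := by
    have h3 := (abs_reL_le (W.b v' * star (W.b v) - 1)).trans hE
    rw [reL_apply, Quaternion.re_sub, Quaternion.re_one, abs_le] at h3
    linarith [h3.1]
  have hh0 : h ≠ 0 := by
    intro h0
    have e : W.b v * star (W.b v') = star (W.a s) * W.a s * (W.b v * star (W.b v')) := by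
      rw [star_mul_self1 (W.ua s), one_mul]
    have h3 : B.ht v' (W.b v * star (W.b v')) = 0 := h0
    rw [e] at h3
    obtain ⟨k1, k2⟩ := B.zero_height (by rw [← e]; linarith) h3
    rw [abs_le] at k2
    rcases le_abs.1 hvv with h4 | h4 <;> linarith [k2.1, k2.2]
  have hinv : 0 < (1 + t)⁻¹ := by positivity
  have hprod : B.ht v (Q 1) * h < 0 := flip_alg hinv hh0 hre (by
    rw [← Real.norm_eq_abs ((1 + t)⁻¹ * h)]; exact hap2)
  rw [hQ0] at hsgn
  exact flip_alg2 hsgn hprod

end Web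

end Pool.Agent.Helper253.Emb
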