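import Pool.Agent.Helper253.Emb.Flip

set_option autoImplicit false

namespace Pool.Agent.Helper253.Emb

open Quaternion Topology Set Metric
open scoped ContDiff NNReal
open Pool.Agent.Helper253.Net

/-- Global existence for a bounded smooth planar vector field. -/
theorem exists_flow {v : ℂ → ℂ} (hv : ContDiff ℝ ∞ v) (hb : ∀ z, ‖v z‖ ≤ 1) (x0 : ℂ) :
    ∃ α : ℝ → ℂ, α 0 = x0 ∧ ∀ t, HasDerivAt α (v (α t)) t := by
  have hK : ∀ a : ℝ, ∃ K : ℝ≥0, LipschitzOnWith K v (closedBall x0 a) := fun a =>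
    LocallyLipschitzOn.exists_lipschitzOnWith_of_compact (isCompact_closedBall x0 a)
      ((hv.of_le (by exact_mod_cast le_top)).locallyLipschitz.locallyLipschitzOn)
  choose K hKl using hK
  have hloc : ∀ a : ℝ, 0 < a → ∃ γ : ℝ → ℂ, γ 0 = x0 ∧
      ∀ t ∈ Ioo (-a) a, HasDerivAt γ (v (γ t)) t := by
    intro a ha
    have hP : IsPicardLindelof (fun _ => v) (tmin := -a) (tmax := a)
        ⟨0, by constructor <;> linarith⟩ (x0 : ℂ) (⟨a, ha.le⟩ : ℝ≥0) 0 1 (K a) := by
      apply IsPicardLindelof.of_time_independent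
      · intro x _; exact hb x
      · exact hKl a
      · simp only [NNReal.coe_one, one_mul, sub_zero, zero_sub, neg_neg, max_self,
          NNReal.coe_zero]
        exact le_refl a
    obtain ⟨γ, h0, hγ⟩ := hP.exists_eq_forall_mem_Icc_hasDerivWithinAt₀
    exact ⟨γ, h0, fun t ht => (hγ t ⟨ht.1.le, ht.2.le⟩).hasDerivAt (Icc_mem_nhds ht.1 ht.2)⟩
  choose! γ h0 hγ using hloc
  have hball : ∀ a b : ℝ, 0 < a → a ≤ b → ∀ t ∈ Ioo (-a) a, γ b t ∈ closedBall x0 a := by
    intro a b ha hab t ht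
    have h1 := (convex_Ioo (-a) a).norm_image_sub_le_of_norm_hasDerivWithin_le (f := γ b)
      (f' := fun t => v (γ b t)) (C := 1) (x := 0) (y := t)
      (fun x hx => (hγ b (by linarith) x
        ⟨by linarith [hx.1], by linarith [hx.2]⟩).hasDerivWithinAt)
      (fun x _ => hb _) ⟨by linarith, ha⟩ ht
    rw [h0 b (by linarith), one_mul, sub_zero, Real.norm_eq_abs] at h1
    rw [mem_closedBall, dist_eq_norm]
    have : |t| ≤ a := by rw [abs_le]; constructor <;> linarith [ht.1, ht.2]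
    linarith
  have huniq : ∀ a b : ℝ, 0 < a → a ≤ b → EqOn (γ a) (γ b) (Ioo (-a) a) := by
    intro a b ha hab
    apply ODE_solution_unique_of_mem_Ioo (v := fun _ => v) (s := fun _ => closedBall x0 a)
      (K := K a) (t₀ := 0) (fun t _ => hKl a) ⟨by linarith, ha⟩
    · intro t ht
      exact ⟨hγ a ha t ht, hball a a ha le_rfl t ht⟩
    · intro t ht
      exact ⟨hγ b (by linarith) t ⟨by linarith [ht.1], by linarith [ht.2]⟩, hball a b ha hab t ht⟩
    · rw [h0 a ha, h0 b (by linarith)]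
  refine ⟨fun t => γ (|t| + 1) t, ?_, ?_⟩
  · simp only [abs_zero, zero_add]
    exact h0 1 one_pos
  · intro t
    have ht : t ∈ Ioo (-(|t| + 1)) (|t| + 1) := by
      rw [mem_Ioo, ← abs_lt]; linarith
    have h1 := hγ (|t| + 1) (by positivity) t ht
    refine h1.congr_of_eventuallyEq ?_
    filter_upwards [Ioo_mem_nhds ht.1 ht.2] with s hs
    rcases le_total (|s| + 1) (|t| + 1) with h | h
    · exact huniq (|s| + 1) (|t| + 1) (by positivity) h
        (by rw [mem_Ioo, ← abs_lt]; linarith)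
    · exact (huniq (|t| + 1) (|s| + 1) (by positivity) h hs).symm

theorem sign_const {h : ℝ → ℝ} {a b : ℝ} (hab : a ≤ b) (hc : ContinuousOn h (Icc a b))
    (hne : ∀ x ∈ Icc a b, h x ≠ 0) : 0 < h a * h b := by
  by_contra hcon
  push Not at hcon
  have h2 : (0 : ℝ) ∈ Icc (h a * h b) (h a * h a) := ⟨hcon, mul_self_nonneg _⟩
  obtain ⟨x, hx, hx0⟩ := intermediate_value_Icc' (f := fun θ => h a * h θ)
    hab (continuousOn_const.mul hc) h2
  exact (mul_ne_zero (hne a ⟨le_refl a, hab⟩) (hne x hx)) hx0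

namespace Web

variable (W : Web)

theorem smooth_b : ContDiff ℝ ∞ W.b := by
  have hei : ContDiff ℝ ∞ (fun v => hat (ei (W.θ2 v))) :=
    hat.contDiff.comp (contDiff_ei.comp W.c2)
  rw [contDiff_infty]
  intro n
  induction n with
  | zero => exact contDiff_zero.2 W.cont_b
  | succ n ih =>
    rw [Nat.cast_succ, contDiff_succ_iff_deriv]
    refine ⟨fun t => (W.db t).differentiableAt, by simp, ?_⟩
    have h : deriv W.b = fun t => hat (ei (W.θ2 t)) * W.b t := funext fun t => (W.db t).deriv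
    rw [h]
    exact (hei.of_le (by exact_mod_cast le_top)).mul ih

/-- The planar field moving both parameters of a chord. -/
noncomputable def field (φ : ℝ) (y : ℂ) : ℂ :=
  (((-(1 / 2) * ip (hat (ei (W.θ2 y.im)) * (W.b y.im * star (W.b y.re))) (hat (ei φ)) : ℝ) : ℂ) +
  ((-(1 / 2) * ip ((W.b y.im * star (W.b y.re)) * hat (ei (W.θ2 y.re))) (hat (ei φ)) : ℝ) : ℂ) *
    Complex.I)

theorem field_re (φ : ℝ) (y : ℂ) : (W.field φ y).re =
    -(1 / 2) * ip (hat (ei (W.θ2 y.im)) * (W.b y.im * star (W.b y.re))) (hat (ei φ)) := by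
  simp [field]

theorem field_im (φ : ℝ) (y : ℂ) : (W.field φ y).im =
    -(1 / 2) * ip ((W.b y.im * star (W.b y.re)) * hat (ei (W.θ2 y.re))) (hat (ei φ)) := by
  simp [field]

theorem field_smooth (φ : ℝ) : ContDiff ℝ ∞ (W.field φ) := by
  have hre : ContDiff ℝ ∞ (fun y : ℂ => y.re) := Complex.reCLM.contDiff
  have him : ContDiff ℝ ∞ (fun y : ℂ => y.im) := Complex.imCLM.contDiff
  have hei : ContDiff ℝ ∞ (fun v => hat (ei (W.θ2 v))) :=
    hat.contDiff.comp (contDiff_ei.comp W.c2)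
  have hb1 : ContDiff ℝ ∞ (fun y : ℂ => W.b y.im) := W.smooth_b.comp him
  have hb2 : ContDiff ℝ ∞ (fun y : ℂ => star (W.b y.re)) := contDiff_star (W.smooth_b.comp hre)
  have hB : ContDiff ℝ ∞ (fun y : ℂ => W.b y.im * star (W.b y.re)) := hb1.mul hb2
  have h1 : ContDiff ℝ ∞ (fun y : ℂ => hat (ei (W.θ2 y.im)) * (W.b y.im * star (W.b y.re))) :=
    (hei.comp him).mul hB
  have h2 : ContDiff ℝ ∞ (fun y : ℂ => (W.b y.im * star (W.b y.re)) * hat (ei (W.θ2 y.re))) :=
    hB.mul (hei.comp hre)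
  have h3 : ContDiff ℝ ∞ (fun y : ℂ => (-(1 / 2) *
      ip (hat (ei (W.θ2 y.im)) * (W.b y.im * star (W.b y.re))) (hat (ei φ)) : ℝ)) :=
    contDiff_const.mul (reL.contDiff.comp (h1.mul contDiff_const))
  have h4 : ContDiff ℝ ∞ (fun y : ℂ => (-(1 / 2) *
      ip ((W.b y.im * star (W.b y.re)) * hat (ei (W.θ2 y.re))) (hat (ei φ)) : ℝ)) :=
    contDiff_const.mul (reL.contDiff.comp (h2.mul contDiff_const))
  exact (Complex.ofRealCLM.contDiff.comp h3).add
    ((Complex.ofRealCLM.contDiff.comp h4).mul contDiff_const)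

theorem field_norm (φ : ℝ) (y : ℂ) : ‖W.field φ y‖ ≤ 1 := by
  refine (norm_add_le _ _).trans ?_
  rw [norm_mul, Complex.norm_I, mul_one, Complex.norm_real, Complex.norm_real, Real.norm_eq_abs,
    Real.norm_eq_abs, abs_mul, abs_mul, abs_neg]
  have h1 := abs_ip_le (hat (ei (W.θ2 y.im)) * (W.b y.im * star (W.b y.re))) (hat (ei φ))
  have h2 := abs_ip_le ((W.b y.im * star (W.b y.re)) * hat (ei (W.θ2 y.re))) (hat (ei φ))
  rw [norm_mul, norm_mul, norm_hat, norm_hat, norm_ei, norm_ei, norm_star, W.ub, W.ub] at h1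
  rw [norm_mul, norm_mul, norm_hat, norm_hat, norm_ei, norm_ei, norm_star, W.ub, W.ub] at h2
  have h3 : |(1 / 2 : ℝ)| = 1 / 2 := by norm_num
  rw [h3]
  linarith

variable {W}

/-- Dragging a chord until it has a definite length. -/
theorem drag {c φ δ2 ε0 v0 v0' : ℝ} (hc : W.Cone c φ) (hδ : 0 < δ2) (hδε : δ2 < ε0)
    (hε : ∀ v, ‖W.b v - W.b 0‖ < ε0 → |v| < c / 4) (hδc : δ2 < c ^ 2 / 8)
    (hv0 : 0 < v0) (hvv : c / 4 < |v0' - v0|) (h0 : ‖W.b v0' * star (W.b v0) - 1‖ < δ2) :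
    ∃ (T : ℝ) (v v' : ℝ → ℝ), 0 ≤ T ∧ Continuous v ∧ Continuous v' ∧ v 0 = v0 ∧ v' 0 = v0' ∧
      (∀ τ, ip (W.b (v' τ) * star (W.b (v τ))) (hat (ei φ)) =
        ip (W.b v0' * star (W.b v0)) (hat (ei φ))) ∧
      (∀ τ ∈ Icc 0 T, ‖W.b (v' τ) * star (W.b (v τ)) - 1‖ ≤ δ2 ∧ c / 4 ≤ |v' τ - v τ|) ∧
      ‖W.b (v' T) * star (W.b (v T)) - 1‖ = δ2 := by
  have hc0 := hc.1
  have hc1 := hc.2.1
  obtain ⟨y, hy0, hy⟩ := exists_flow (W.field_smooth φ) (W.field_norm φ)
    ((v0 : ℂ) + (v0' : ℂ) * Complex.I)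
  set v : ℝ → ℝ := fun τ => (y τ).re with hv
  set v' : ℝ → ℝ := fun τ => (y τ).im with hv'
  have hdv : ∀ τ, HasDerivAt v (W.field φ (y τ)).re τ := fun τ => hasDerivAt_re (hy τ)
  have hdv' : ∀ τ, HasDerivAt v' (W.field φ (y τ)).im τ := fun τ => hasDerivAt_im (hy τ)
  have hvc : Continuous v := continuous_iff_continuousAt.2 fun τ => (hdv τ).continuousAt
  have hvc' : Continuous v' := continuous_iff_continuousAt.2 fun τ => (hdv' τ).continuousAt
  have hv00 : v 0 = v0 := by simp only [hv, hy0]; simp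
  have hv00' : v' 0 = v0' := by simp only [hv', hy0]; simp
  have hcb := W.cont_b
  set D : ℝ → ℝ := fun τ => ‖W.b (v' τ) * star (W.b (v τ)) - 1‖ with hD
  have hDc : Continuous D := by
    simp only [hD]; fun_prop
  have hip : ∀ τ, HasDerivAt (fun τ => ip (W.b (v' τ) * star (W.b (v τ))) (hat (ei φ))) 0 τ := by
    intro τ
    have h1 : HasDerivAt (fun τ => W.b (v' τ))
        ((W.field φ (y τ)).im • (hat (ei (W.θ2 (v' τ))) * W.b (v' τ))) τ :=
      HasDerivAt.scomp τ (W.db (v' τ)) (hdv' τ)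
    have h2 : HasDerivAt (fun τ => W.b (v τ))
        ((W.field φ (y τ)).re • (hat (ei (W.θ2 (v τ))) * W.b (v τ))) τ :=
      HasDerivAt.scomp τ (W.db (v τ)) (hdv τ)
    have h3 := hasDerivAt_ip (h1.mul (hasDerivAt_star h2)) (hat (ei φ))
    refine h3.congr_deriv ?_
    have e1 : (W.field φ (y τ)).im • (hat (ei (W.θ2 (v' τ))) * W.b (v' τ)) * star (W.b (v τ)) +
        W.b (v' τ) * star ((W.field φ (y τ)).re • (hat (ei (W.θ2 (v τ))) * W.b (v τ))) =
        (W.field φ (y τ)).im • (hat (ei (W.θ2 (v' τ))) * (W.b (v' τ) * star (W.b (v τ)))) -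
        (W.field φ (y τ)).re • (W.b (v' τ) * star (W.b (v τ)) * hat (ei (W.θ2 (v τ)))) := by
      rw [Quaternion.star_smul, star_mul, star_hat, smul_mul_assoc, mul_smul_comm]
      simp only [mul_neg, smul_neg, mul_assoc, sub_eq_add_neg]
    rw [e1, ip_sub, ip_smul, ip_smul, W.field_re, W.field_im]
    ring
  have hipc : ∀ τ, ip (W.b (v' τ) * star (W.b (v τ))) (hat (ei φ)) =
      ip (W.b v0' * star (W.b v0)) (hat (ei φ)) := by
    intro τ
    have := const_of_deriv hip τ 0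
    rw [this, hv00, hv00']
  -- the parameter distance stays away from c / 4
  have hfar : ∀ T, 0 ≤ T → (∀ τ ∈ Icc 0 T, D τ ≤ δ2) → ∀ τ ∈ Icc 0 T, c / 4 < |v' τ - v τ| := by
    intro T hT hDT τ hτ
    by_contra hcon
    push Not at hcon
    have h1 : c / 4 ∈ Icc |v' τ - v τ| |v' 0 - v 0| := ⟨hcon, by rw [hv00, hv00']; exact hvv.le⟩
    obtain ⟨x, hx, hxe⟩ := intermediate_value_Icc' (f := fun τ => |v' τ - v τ|) hτ.1
      ((hvc'.sub hvc).abs.continuousOn) h1
    have h2 := hc.chord (v := v x) (w := v' x) (by simp only at hxe; rw [hxe]; linarith)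
    simp only at hxe
    rw [hxe] at h2
    have h3 : |ip (W.b (v' x) * star (W.b (v x))) (hat (ei φ))| ≤ D x := by
      have e : ip (W.b (v' x) * star (W.b (v x))) (hat (ei φ)) =
          ip (W.b (v' x) * star (W.b (v x)) - 1) (hat (ei φ)) := by
        rw [ip_sub]
        have : ip (1 : ℍ[ℝ]) (hat (ei φ)) = 0 := by rw [ip_eq]; simp
        rw [this, sub_zero]
      rw [e]
      have := abs_ip_le (W.b (v' x) * star (W.b (v x)) - 1) (hat (ei φ))
      rwa [norm_hat, norm_ei, mul_one] at this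
    have h4 := hDT x ⟨hx.1, hx.2.trans hτ.2⟩
    nlinarith
  -- the chord must become long
  have hhit : ∃ τ, 0 ≤ τ ∧ δ2 ≤ D τ := by
    by_contra hcon
    push Not at hcon
    have hrate : ∀ τ ∈ Ici (0 : ℝ), (W.field φ (y τ)).re ≤ -(c / 4) := by
      intro τ hτ
      rw [W.field_re]
      have h1 := hc.rate (v' τ) (q := W.b (v' τ) * star (W.b (v τ))) (hcon τ hτ).le
      have h2 : δ2 ≤ c / 8 := by nlinarith
      have h3 : c / 2 ≤ ip (hat (ei (W.θ2 (y τ).im)) * (W.b (y τ).im * star (W.b (y τ).re)))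
          (hat (ei φ)) := by
        have : ip (hat (ei (W.θ2 (v' τ))) * (W.b (v' τ) * star (W.b (v τ)))) (hat (ei φ)) =
          ip (hat (ei (W.θ2 (y τ).im)) * (W.b (y τ).im * star (W.b (y τ).re))) (hat (ei φ)) := rfl
        rw [← this]
        linarith
      linarith
    set T : ℝ := 4 * v0 / c with hT
    have hT0 : 0 < T := by positivity
    have hneg : v T ≤ 0 := by
      have h1 := (convex_Icc (0 : ℝ) T).image_sub_le_mul_sub_of_deriv_le (f := v) (C := -(c / 4))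
        hvc.continuousOn (fun x _ => (hdv x).differentiableAt.differentiableWithinAt)
        (fun x hx => by
          rw [(hdv x).deriv]
          exact hrate x (interior_subset hx).1) 0 ⟨le_refl 0, hT0.le⟩ T ⟨hT0.le, le_refl T⟩ hT0.le
      rw [hv00] at h1
      have h2 : c / 4 * T = v0 := by rw [hT]; field_simp
      linarith
    have h1 : (0 : ℝ) ∈ Icc (v T) (v 0) := ⟨hneg, by rw [hv00]; exact hv0.le⟩
    obtain ⟨x, hx, hxe⟩ := intermediate_value_Icc' hT0.le hvc.continuousOn h1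
    have h2 := hcon x hx.1
    simp only [hD] at h2
    rw [W.norm_b_star, hxe] at h2
    have h3 := hε (v' x) (h2.trans hδε)
    have h4 := hfar T hT0.le (fun τ hτ => (hcon τ hτ.1).le) x hx
    rw [hxe, sub_zero] at h4
    linarith
  obtain ⟨τ0, hτ0, hDτ0⟩ := hhit
  have hD0 : D 0 < δ2 := by simp only [hD, hv00, hv00']; exact h0
  -- first hitting time
  set S : Set ℝ := {τ ∈ Icc (0 : ℝ) τ0 | δ2 ≤ D τ} with hS
  have hSc : IsCompact S :=
    isCompact_Icc.inter_right (isClosed_le continuous_const hDc)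
  obtain ⟨T, hT, hTmin⟩ := hSc.exists_isLeast ⟨τ0, ⟨hτ0, le_refl _⟩, hDτ0⟩
  have hlt : ∀ τ ∈ Icc (0 : ℝ) T, τ < T → D τ < δ2 := by
    intro τ hτ hlt
    by_contra hcon
    push Not at hcon
    exact absurd (hTmin ⟨⟨hτ.1, hτ.2.trans hT.1.2⟩, hcon⟩) (not_le.2 hlt)
  have hDT : D T = δ2 := by
    apply le_antisymm _ hT.2
    by_contra hcon
    push Not at hcon
    obtain ⟨x, hx, hxe⟩ := intermediate_value_Icc hT.1.1 hDc.continuousOn
      (show (δ2 + D T) / 2 ∈ Icc (D 0) (D T) from ⟨by linarith, by linarith⟩)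
    rcases eq_or_lt_of_le hx.2 with h | h
    · rw [h] at hxe; linarith
    · have := hlt x hx h
      linarith
  have hle : ∀ τ ∈ Icc (0 : ℝ) T, D τ ≤ δ2 := by
    intro τ hτ
    rcases eq_or_lt_of_le hτ.2 with h | h
    · rw [h, hDT]
    · exact (hlt τ hτ h).le
  exact ⟨T, v, v', hT.1.1, hvc, hvc', hv00, hv00', hipc,
    fun τ hτ => ⟨hle τ hτ, (hfar T hT.1.1 hle τ hτ).le⟩, hDT⟩

end Web

end Pool.Agent.Helper253.Emb
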