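import Pool.Agent.Helper253.Emb.Leaf

set_option autoImplicit false

namespace Pool.Agent.Helper253.Emb

open Quaternion Topology Set Metric
open scoped ContDiff
open Pool.Agent.Helper253.Net

namespace Sheet

variable (W : Sheet)

theorem g_norm {Q : ℍ[ℝ]} (hQ : Q ∈ closedBall (1 : ℍ[ℝ]) (W.ρ / 2)) (h1 : ‖Q‖ = 1) :
    |reL (W.g Q)| ≤ |kL (W.g Q)| ∧ ‖Q - W.S (zL (W.g Q))‖ ≤ 2 * |kL (W.g Q)| ∧
    63 / 64 ≤ 1 + reL (W.g Q) ∧ 1 + reL (W.g Q) ≤ 65 / 64 := by
  obtain ⟨h2, h3⟩ := W.g_spec hQ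
  have hz := W.mem_of _ h2
  have h4 := W.g_eq hQ
  set t := reL (W.g Q) with ht
  set h := kL (W.g Q) with hh
  set z := zL (W.g Q) with hzd
  have h5 : |t| ≤ 1 / 64 := by
    rw [mem_closedBall_zero_iff] at h2
    exact (abs_reL_le (W.g Q)).trans (h2.trans W.hρ1)
  rw [abs_le] at h5
  have h6 : ‖(1 + t) • W.S z‖ = 1 + t := by
    rw [norm_smul, W.S_unit hz, mul_one, Real.norm_eq_abs, abs_of_pos (by linarith [h5.1])]
  have h7 : ‖h • kq‖ = |h| := by rw [norm_smul, norm_kq, mul_one, Real.norm_eq_abs]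
  have h8 : (1 + t) • W.S z = Q - h • kq := by rw [← h4]; abel
  have h9 : |t| ≤ |h| := by
    rw [abs_le]
    constructor
    · have := norm_sub_norm_le Q (h • kq)
      rw [h1, h7, ← h8, h6] at this
      linarith
    · have := norm_sub_le Q (h • kq)
      rw [h1, h7, ← h8, h6] at this
      linarith
  refine ⟨h9, ?_, by linarith [h5.1], by linarith [h5.2]⟩
  have h10 : Q - W.S z = t • W.S z + h • kq := by rw [← h4]; module
  rw [h10]
  refine (norm_add_le _ _).trans ?_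
  rw [norm_smul, W.S_unit hz, mul_one, h7, Real.norm_eq_abs]
  linarith

end Sheet

theorem ip_kq (x : ℍ[ℝ]) : ip x kq = kL x := by
  rw [ip_eq, kL_apply]; simp

/-- Elementary estimate for the slope. -/
theorem slope_alg {h' n t y C h e : ℝ} (hn : 1 / 2 ≤ n) (hn1 : n ≤ 1) (ht : 63 / 64 ≤ t)
    (he : |e| ≤ 1) (heq : t * y + h * e = h' * n) :
    (0 ≤ C → C ≤ y → 1 / 2 * C - 2 * |h| ≤ h') ∧ (C ≤ 0 → y ≤ C → h' ≤ 1 / 2 * C + 2 * |h|) := by
  have hhe : |h * e| ≤ |h| := by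
    rw [abs_mul]; exact mul_le_of_le_one_right (abs_nonneg _) he
  rw [abs_le] at hhe
  have h0 := abs_nonneg h
  have hn0 : 0 < n := by linarith
  constructor
  · intro hC hy
    have h1 : 1 / 2 * C ≤ t * y := by nlinarith
    have h2 : (1 / 2 * C - 2 * |h|) * n ≤ h' * n := by
      rw [← heq]
      have : 1 / 2 * C * n ≤ 1 / 2 * C := mul_le_of_le_one_right (by positivity) hn1
      nlinarith [hhe.1]
    exact le_of_mul_le_mul_right h2 hn0
  · intro hC hy
    have h1 : t * y ≤ 1 / 2 * C := by nlinarith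
    have h2 : h' * n ≤ (1 / 2 * C + 2 * |h|) * n := by
      rw [← heq]
      have : 1 / 2 * C ≤ 1 / 2 * C * n := by nlinarith
      nlinarith [hhe.2]
    exact le_of_mul_le_mul_right h2 hn0

namespace Web

variable {W : Web}

namespace Base

variable {c φ κ m s p : ℝ} (B : Base W c φ κ m s p)

include B

/-- The height of a point over the sheet. -/
noncomputable def ht (v : ℝ) (Q : ℍ[ℝ]) : ℝ := kL ((B.sheet v).g Q)

/-- The asymptotic coordinates of the foot. -/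
noncomputable def foot (v : ℝ) (Q : ℍ[ℝ]) : ℝ × ℝ :=
  W.Pinv (W.F p + W.G v + zL ((B.sheet v).g Q))

theorem rho (v : ℝ) : (B.sheet v).ρ = m / 2 := rfl

theorem mem_cb {v : ℝ} {Q : ℍ[ℝ]} (hQ : ‖Q - 1‖ ≤ m / 4) :
    Q ∈ closedBall (1 : ℍ[ℝ]) ((B.sheet v).ρ / 2) := by
  rw [mem_closedBall, dist_eq_norm, B.rho]; linarith

theorem mem_b {v : ℝ} {Q : ℍ[ℝ]} (hQ : ‖Q - 1‖ < m / 4) :
    Q ∈ ball (1 : ℍ[ℝ]) ((B.sheet v).ρ / 2) := by
  rw [mem_ball, dist_eq_norm, B.rho]; linarith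

theorem z_small {v : ℝ} {Q : ℍ[ℝ]} (hQ : ‖Q - 1‖ ≤ m / 4) : ‖zL ((B.sheet v).g Q)‖ < m := by
  have h1 := ((B.sheet v).g_spec (B.mem_cb hQ)).1
  rw [mem_closedBall_zero_iff, B.rho] at h1
  have := norm_zL_le ((B.sheet v).g Q)
  have := B.hm
  linarith

theorem foot_spec {v : ℝ} {Q : ℍ[ℝ]} (hQ : ‖Q - 1‖ ≤ m / 4) :
    |(B.foot v Q).1 - p| < κ ∧ |(B.foot v Q).2 - v| ≤ 2 * κ / c ∧
    (B.sheet v).S (zL ((B.sheet v).g Q)) =
      star (W.a s) * W.a (B.foot v Q).1 * (W.b (B.foot v Q).2 * star (W.b v)) := by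
  obtain ⟨h1, h2, h3, h4⟩ := B.coords v (B.z_small (v := v) hQ)
  refine ⟨h2, h3, ?_⟩
  have h5 := (B.sheet v).hS (zL ((B.sheet v).g Q))
    ((B.sheet v).mem_of _ ((B.sheet v).g_spec (B.mem_cb hQ)).1)
  exact h5

theorem foot_cont {v : ℝ} {E : ℝ → ℍ[ℝ]} {σ : ℝ} (hE : ContinuousAt E σ)
    (hQ : ‖E σ - 1‖ < m / 4) : ContinuousAt (fun σ => B.foot v (E σ)) σ := by
  have h1 : ContinuousAt (fun σ => (B.sheet v).g (E σ)) σ :=
    ContinuousAt.comp (f := E) ((B.sheet v).g_cont (B.mem_b hQ)) hE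
  have h2 : ContinuousAt (fun σ => W.F p + W.G v + zL ((B.sheet v).g (E σ))) σ :=
    continuousAt_const.add (zL.continuous.continuousAt.comp h1)
  have h3 := (B.coords v (B.z_small (v := v) hQ.le)).1
  exact ContinuousAt.comp (f := fun σ => W.F p + W.G v + zL ((B.sheet v).g (E σ)))
    (W.Pinv_cont h3) h2

/-- Vanishing height forces the point to be on the sheet. -/
theorem zero_height {v u' v' : ℝ}
    (hQ : ‖star (W.a s) * W.a u' * (W.b v' * star (W.b v)) - 1‖ ≤ m / 4)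
    (h : B.ht v (star (W.a s) * W.a u' * (W.b v' * star (W.b v))) = 0) :
    |u' - p| < κ ∧ |v' - v| ≤ 2 * κ / c := by
  set Q := star (W.a s) * W.a u' * (W.b v' * star (W.b v)) with hQdef
  have hu : ‖Q‖ = 1 := by
    rw [hQdef, norm_mul, norm_mul, norm_mul, norm_star, norm_star, W.ua, W.ua, W.ub, W.ub]
    norm_num
  obtain ⟨h1, h2, h3⟩ := B.foot_spec (v := v) hQ
  have h4 := ((B.sheet v).g_norm (B.mem_cb hQ) hu).2.1
  unfold ht at h
  rw [h, abs_zero, mul_zero] at h4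
  have h5 : Q = (B.sheet v).S (zL ((B.sheet v).g Q)) :=
    sub_eq_zero.1 (norm_eq_zero.1 (le_antisymm h4 (norm_nonneg _)))
  rw [h3] at h5
  generalize (B.foot v Q) = w at h1 h2 h5
  rw [hQdef] at h5
  have h6 : W.a u' * W.b v' = W.a w.1 * W.b w.2 := by
    have h7 : W.a s * (star (W.a s) * W.a u' * (W.b v' * star (W.b v))) * W.b v =
        W.a s * (star (W.a s) * W.a w.1 * (W.b w.2 * star (W.b v))) * W.b v := by rw [h5]
    have e : ∀ x y : ℍ[ℝ], W.a s * (star (W.a s) * x * (y * star (W.b v))) * W.b v = x * y := by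
      intro x y
      have e1 := self_mul_star1 (W.ua s)
      have e2 := star_mul_self1 (W.ub v)
      calc W.a s * (star (W.a s) * x * (y * star (W.b v))) * W.b v =
          (W.a s * star (W.a s)) * x * y * (star (W.b v) * W.b v) := by
            simp only [mul_assoc]
        _ = x * y := by rw [e1, e2, one_mul, mul_one]
    rw [e, e] at h7
    exact h7
  obtain ⟨e1, e2⟩ := W.abi _ _ _ _ h6
  rw [e1, e2]
  exact ⟨h1, h2⟩

/-- Slope of the height when the third point moves along the first factor. -/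
theorem slope_a (v : ℝ) {σ : ℝ} (hQ : ‖star (W.a s) * W.a (s + σ) - 1‖ < m / 4) :
    ∃ h', HasDerivAt (fun σ => B.ht v (star (W.a s) * W.a (s + σ))) h' σ ∧
      (v ≤ (B.foot v (star (W.a s) * W.a (s + σ))).2 →
        1 / 2 * cr (W.G (B.foot v (star (W.a s) * W.a (s + σ))).2 - W.G v)
          (ei (W.θ1 (s + σ))) - 2 * |B.ht v (star (W.a s) * W.a (s + σ))| ≤ h') ∧
      ((B.foot v (star (W.a s) * W.a (s + σ))).2 ≤ v → h' ≤
        1 / 2 * cr (W.G (B.foot v (star (W.a s) * W.a (s + σ))).2 - W.G v)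
          (ei (W.θ1 (s + σ))) + 2 * |B.ht v (star (W.a s) * W.a (s + σ))|) := by
  set E : ℝ → ℍ[ℝ] := fun σ => star (W.a s) * W.a (s + σ) with hE
  have hEd : HasDerivAt E (E σ * hat (ei (W.θ1 (s + σ)))) σ := by
    have := (hasDerivAt_shift W.da s σ).const_mul (star (W.a s))
    simp only [hE]
    rw [mul_assoc]
    exact this
  obtain ⟨h', h1, h2⟩ := (B.sheet v).height_deriv hEd (B.mem_b hQ)
  have hu : ‖E σ‖ = 1 := by
    simp only [hE]
    rw [norm_mul, norm_star, W.ua, W.ua, one_mul]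
  have hcb := B.mem_cb (v := v) (Q := E σ) hQ.le
  obtain ⟨g1, g2, g3, g4⟩ := (B.sheet v).g_norm hcb hu
  have hz := (B.sheet v).mem_of _ ((B.sheet v).g_spec hcb).1
  have h3 := (B.sheet v).ip_k_lower hz
  have h4 := (B.sheet v).g_eq hcb
  have h5 := (B.sheet v).hS _ hz
  have uA := (B.sheet v).unitA _ hz
  have uB := (B.sheet v).unitB _ hz
  have hB : (B.sheet v).B (zL ((B.sheet v).g (E σ))) = W.b (B.foot v (E σ)).2 * star (W.b v) := rfl
  obtain ⟨f1, f2, f3⟩ := B.foot_spec (v := v) (Q := E σ) hQ.le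
  have hpos := pos_b W.ub W.db W.dG (W.θ1 (s + σ)) (fun u => (W.sin_pos _ _).le) v
    (B.foot v (E σ)).2 (f2.trans (by have := B.small.2; linarith))
  rw [← hB] at hpos
  set A := (B.sheet v).A (zL ((B.sheet v).g (E σ))) with hA
  set Bq := (B.sheet v).B (zL ((B.sheet v).g (E σ))) with hBq
  have hst : W.b (B.foot v (E σ)).2 * star (W.b v) = Bq := rfl
  refine ⟨h', h1, ?_⟩
  have hval : ip (E σ * hat (ei (W.θ1 (s + σ)))) (A * kq * Bq) =
      (1 + reL ((B.sheet v).g (E σ))) * kL (Bq * hat (ei (W.θ1 (s + σ))) * star Bq) +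
      kL ((B.sheet v).g (E σ)) * ip (kq * hat (ei (W.θ1 (s + σ)))) (A * kq * Bq) := by
    have e1 : A * Bq * hat (ei (W.θ1 (s + σ))) = A * (Bq * hat (ei (W.θ1 (s + σ)))) :=
      mul_assoc _ _ _
    have e2 : A * kq * Bq = A * (kq * Bq) := mul_assoc _ _ _
    have e3 : Bq * hat (ei (W.θ1 (s + σ))) =
        Bq * hat (ei (W.θ1 (s + σ))) * star Bq * Bq := by
      rw [mul_assoc _ (star Bq) Bq, star_mul_self1 uB, mul_one]
    have e4 : ip (A * Bq * hat (ei (W.θ1 (s + σ)))) (A * kq * Bq) =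
        kL (Bq * hat (ei (W.θ1 (s + σ))) * star Bq) := by
      rw [e1, e2, ip_mul_left uA]
      conv_lhs => rw [e3]
      rw [ip_mul_right uB, ip_kq]
    conv_lhs => rw [← h4, h5]
    rw [add_mul, smul_mul_assoc, smul_mul_assoc, ip_add, ip_smul, ip_smul, e4]
  rw [hval] at h2
  have he : |ip (kq * hat (ei (W.θ1 (s + σ)))) (A * kq * Bq)| ≤ 1 := by
    refine (abs_ip_le _ _).trans ?_
    rw [norm_mul, norm_mul, norm_mul, norm_kq, norm_hat, norm_ei, uA, uB]
    norm_num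
  have halg := slope_alg (C := cr (W.G (B.foot v (E σ)).2 - W.G v) (ei (W.θ1 (s + σ))))
    h3.1 h3.2 g3 he h2
  have hmono : ∀ x, (0 : ℝ) ≤ cr (ei (W.θ2 x)) (ei (W.θ1 (s + σ))) := fun x => by
    rw [cr_ei]; exact (W.sin_pos _ _).le
  constructor
  · intro hv
    refine halg.1 ?_ (hpos.1 hv)
    have := W.cross_growth hmono hv
    linarith
  · intro hv
    refine halg.2 ?_ (hpos.2 hv)
    have := W.cross_growth hmono hv
    rw [cr_sub_left] at this ⊢
    linarith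

end Base

/-- Slope of the height when the third point moves along the second factor. -/
theorem slope_b {c φ κ m s : ℝ} (B : Base W c φ κ m s s) (v v' : ℝ) {σ : ℝ}
    (hQ : ‖W.b (v' + σ) * star (W.b v) - 1‖ < m / 4) :
    ∃ h', HasDerivAt (fun σ => B.ht v (W.b (v' + σ) * star (W.b v))) h' σ ∧
      (s ≤ (B.foot v (W.b (v' + σ) * star (W.b v))).1 →
        1 / 2 * cr (ei (W.θ2 (v' + σ))) (W.F (B.foot v (W.b (v' + σ) * star (W.b v))).1 - W.F s)
          - 2 * |B.ht v (W.b (v' + σ) * star (W.b v))| ≤ h') ∧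
      ((B.foot v (W.b (v' + σ) * star (W.b v))).1 ≤ s → h' ≤
        1 / 2 * cr (ei (W.θ2 (v' + σ))) (W.F (B.foot v (W.b (v' + σ) * star (W.b v))).1 - W.F s)
          + 2 * |B.ht v (W.b (v' + σ) * star (W.b v))|) := by
  set E : ℝ → ℍ[ℝ] := fun σ => W.b (v' + σ) * star (W.b v) with hE
  have hEd : HasDerivAt E (hat (ei (W.θ2 (v' + σ))) * E σ) σ := by
    have := (hasDerivAt_shift W.db v' σ).mul_const (star (W.b v))
    simp only [hE]
    rw [← mul_assoc]
    exact this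
  obtain ⟨h', h1, h2⟩ := (B.sheet v).height_deriv hEd (B.mem_b hQ)
  have hu : ‖E σ‖ = 1 := by
    simp only [hE]
    rw [norm_mul, norm_star, W.ub, W.ub, one_mul]
  have hcb := B.mem_cb (v := v) (Q := E σ) hQ.le
  obtain ⟨g1, g2, g3, g4⟩ := (B.sheet v).g_norm hcb hu
  have hz := (B.sheet v).mem_of _ ((B.sheet v).g_spec hcb).1
  have h3 := (B.sheet v).ip_k_lower hz
  have h4 := (B.sheet v).g_eq hcb
  have h5 := (B.sheet v).hS _ hz
  have uA := (B.sheet v).unitA _ hz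
  have uB := (B.sheet v).unitB _ hz
  have hAe : (B.sheet v).A (zL ((B.sheet v).g (E σ))) = star (W.a s) * W.a (B.foot v (E σ)).1 := rfl
  obtain ⟨f1, f2, f3⟩ := B.foot_spec (v := v) (Q := E σ) hQ.le
  have hpos := pos_a W.ua W.da W.dF (W.θ2 (v' + σ)) (fun u => (W.sin_pos _ _).le) s
    (B.foot v (E σ)).1 (f1.le.trans (by have := B.small.1; linarith))
  rw [← hAe] at hpos
  set A := (B.sheet v).A (zL ((B.sheet v).g (E σ))) with hA
  set Bq := (B.sheet v).B (zL ((B.sheet v).g (E σ))) with hBq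
  refine ⟨h', h1, ?_⟩
  have hval : ip (hat (ei (W.θ2 (v' + σ))) * E σ) (A * kq * Bq) =
      (1 + reL ((B.sheet v).g (E σ))) * kL (star A * hat (ei (W.θ2 (v' + σ))) * A) +
      kL ((B.sheet v).g (E σ)) * ip (hat (ei (W.θ2 (v' + σ))) * kq) (A * kq * Bq) := by
    have e1 : hat (ei (W.θ2 (v' + σ))) * (A * Bq) = hat (ei (W.θ2 (v' + σ))) * A * Bq :=
      (mul_assoc _ _ _).symm
    have e3 : hat (ei (W.θ2 (v' + σ))) * A =
        A * (star A * hat (ei (W.θ2 (v' + σ))) * A) := by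
      rw [← mul_assoc, ← mul_assoc, self_mul_star1 uA, one_mul]
    have e4 : ip (hat (ei (W.θ2 (v' + σ))) * (A * Bq)) (A * kq * Bq) =
        kL (star A * hat (ei (W.θ2 (v' + σ))) * A) := by
      rw [e1, ip_mul_right uB]
      conv_lhs => rw [e3]
      rw [ip_mul_left uA, ip_kq]
    conv_lhs => rw [← h4, h5]
    rw [mul_add, mul_smul_comm, mul_smul_comm, ip_add, ip_smul, ip_smul, e4]
  rw [hval] at h2
  have he : |ip (hat (ei (W.θ2 (v' + σ))) * kq) (A * kq * Bq)| ≤ 1 := by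
    refine (abs_ip_le _ _).trans ?_
    rw [norm_mul, norm_mul, norm_mul, norm_kq, norm_hat, norm_ei, uA, uB]
    norm_num
  have halg := slope_alg
    (C := cr (ei (W.θ2 (v' + σ))) (W.F (B.foot v (E σ)).1 - W.F s)) h3.1 h3.2 g3 he h2
  have hg : ∀ {x y : ℝ}, x ≤ y → 0 ≤ cr (ei (W.θ2 (v' + σ))) (W.F y - W.F x) := by
    intro x y hxy
    have := growth (C := 0) (fun x => hasDerivAt_cr_right (W.dF x) (ei (W.θ2 (v' + σ))))
      (fun x => by rw [cr_ei]; exact (W.sin_pos _ _).le) hxy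
    rw [cr_sub_right]
    linarith
  constructor
  · intro hv
    exact halg.1 (hg hv) (hpos.1 hv)
  · intro hv
    refine halg.2 ?_ (hpos.2 hv)
    have := hg hv
    rw [cr_sub_right] at this ⊢
    linarith

end Web

end Pool.Agent.Helper253.Emb
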