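import Pool.Agent.Helper253.Emb.Web

set_option autoImplicit false

namespace Pool.Agent.Helper253.Emb

open Quaternion Topology Set Metric
open scoped ContDiff
open Pool.Agent.Helper253.Net

/-- Two sided exit lemma. -/
theorem exit_two {h h' r Γp Γp' Γn Γn' : ℝ → ℝ} {T e h0 R : ℝ} (hT : 0 ≤ T) (he : 0 ≤ e)
    (hh : ∀ x, |x| ≤ T → HasDerivAt h (h' x) x) (hr : ∀ x, |x| ≤ T → ContinuousAt r x)
    (hp : ∀ x, HasDerivAt Γp (Γp' x) x) (hn : ∀ x, HasDerivAt Γn (Γn' x) x)
    (hp' : ∀ x, 0 ≤ Γp' x) (hn' : ∀ x, 0 ≤ Γn' x)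
    (hne : ∀ x, |x| ≤ T → h x ≠ 0)
    (hr0 : ∀ x, |x| ≤ T → |h x| ≤ h0 → r x ≠ 0)
    (hsp : ∀ x, |x| ≤ T → |h x| ≤ h0 → 0 < r x → Γp' x - e ≤ h' x)
    (hsn : ∀ x, |x| ≤ T → |h x| ≤ h0 → r x < 0 → h' x ≤ -Γn' x + e)
    (h1 : |h 0| + e * T < h0)
    (R1 : R ≤ Γp T - Γp 0) (R2 : R ≤ Γp 0 - Γp (-T)) (R3 : R ≤ Γn T - Γn 0)
    (R4 : R ≤ Γn 0 - Γn (-T)) : R - e * T ≤ |h 0| := by
  have hneg : ∀ x : ℝ, HasDerivAt (fun x : ℝ => -x) (-1) x := fun x => hasDerivAt_neg x
  have h00 : |(0 : ℝ)| ≤ T := by simpa using hT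
  have habs : ∀ x ∈ Icc (0 : ℝ) T, |x| ≤ T := fun x hx => by rw [abs_of_nonneg hx.1]; exact hx.2
  have habs' : ∀ x ∈ Icc (0 : ℝ) T, |-x| ≤ T := fun x hx => by rw [abs_neg]; exact habs x hx
  have hTT : T ∈ Icc (0 : ℝ) T := ⟨hT, le_refl T⟩
  have hh0 : |h 0| ≤ h0 := by
    have : 0 ≤ e * T := mul_nonneg he hT
    linarith
  have hcont : ∀ x, |x| ≤ T → ContinuousAt h x := fun x hx => (hh x hx).continuousAt
  -- the sign of the height is constant
  have hsgn : ∀ x, |x| ≤ T → 0 < h 0 * h x := by
    intro x hx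
    by_contra hcon
    push Not at hcon
    have hco : ContinuousOn (fun z => h 0 * h z) (uIcc 0 x) := fun z hz => by
      refine (continuousAt_const.mul (hcont z ?_)).continuousWithinAt
      rw [abs_le] at hx ⊢
      rcases le_total 0 x with h' | h'
      · rw [uIcc_of_le h'] at hz
        constructor <;> linarith [hz.1, hz.2]
      · rw [uIcc_of_ge h'] at hz
        constructor <;> linarith [hz.1, hz.2]
    have h2 : (0 : ℝ) ∈ uIcc (h 0 * h 0) (h 0 * h x) :=
      mem_uIcc.2 (Or.inr ⟨hcon, mul_self_nonneg _⟩)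
    obtain ⟨z, hz, hz0⟩ := intermediate_value_uIcc hco h2
    have hzT : |z| ≤ T := by
      rw [abs_le] at hx ⊢
      rcases le_total 0 x with h' | h'
      · rw [uIcc_of_le h'] at hz
        constructor <;> linarith [hz.1, hz.2]
      · rw [uIcc_of_ge h'] at hz
        constructor <;> linarith [hz.1, hz.2]
    exact (mul_ne_zero (hne 0 h00) (hne z hzT)) hz0
  rcases lt_or_gt_of_ne (hr0 0 h00 hh0) with hrs | hrs
  · rcases lt_or_gt_of_ne (hne 0 h00) with hhs | hhs
    · -- r < 0, h < 0 : go left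
      have hneg' : ∀ x ∈ Icc (0 : ℝ) T, h (-x) < 0 := fun x hx => by
        have := hsgn (-x) (habs' x hx); nlinarith
      have key := exit_lemma (H := fun x => -h (-x)) (H' := fun x => h' (-x))
        (Γ := fun x => -Γn (-x)) (Γ' := fun x => Γn' (-x)) (r := fun x => r (-x)) (T := T)
        (e := e) (h0 := h0) hT he
        (fun x hx => by
          have := ((hh (-x) (habs' x hx)).comp x (hneg x)).neg
          exact HasDerivAt.congr_deriv (f := fun x => -h (-x)) this (by simp))
        (fun x => by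
          have := ((hn (-x)).comp x (hneg x)).neg
          exact HasDerivAt.congr_deriv (f := fun x => -Γn (-x)) this (by simp))
        (fun x => hn' _) (fun x hx => by
          have := hr (-x) (habs' x hx)
          exact ContinuousAt.comp (f := fun x : ℝ => -x) this continuous_neg.continuousAt)
        (by simp only [neg_zero]; rw [abs_of_neg hhs] at h1; exact h1)
        (fun x hx hx2 => hr0 _ (habs' x hx) (by rw [abs_of_neg (hneg' x hx)]; exact hx2))
        (fun x hx hx2 hx3 => by
          simp only [neg_zero] at hx3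
          exact hsn _ (habs' x hx) (by rw [abs_of_neg (hneg' x hx)]; exact hx2) (by nlinarith))
      simp only [neg_zero] at key
      have := hneg' T hTT
      rw [abs_of_neg hhs]
      linarith
    · -- r < 0, h > 0 : go right
      have hpos' : ∀ x ∈ Icc (0 : ℝ) T, 0 < h x := fun x hx => by
        have := hsgn x (habs x hx)
        exact (pos_iff_pos_of_mul_pos this).1 hhs
      have key := exit_lemma (H := h) (H' := h')
        (Γ := Γn) (Γ' := Γn') (r := r) (T := T)
        (e := e) (h0 := h0) hT he (fun x hx => hh x (habs x hx)) hn hn'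
        (fun x hx => hr x (habs x hx))
        (by rw [abs_of_pos hhs] at h1; exact h1)
        (fun x hx hx2 => hr0 _ (habs x hx) (by rw [abs_of_pos (hpos' x hx)]; exact hx2))
        (fun x hx hx2 hx3 => by
          exact hsn _ (habs x hx) (by rw [abs_of_pos (hpos' x hx)]; exact hx2) (by nlinarith))
      have := hpos' T hTT
      rw [abs_of_pos hhs]
      linarith
  · rcases lt_or_gt_of_ne (hne 0 h00) with hhs | hhs
    · -- r > 0, h < 0 : go right
      have hneg' : ∀ x ∈ Icc (0 : ℝ) T, h x < 0 := fun x hx => by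
        have := hsgn x (habs x hx); nlinarith
      have key := exit_lemma (H := fun x => -h x) (H' := fun x => -h' x)
        (Γ := Γp) (Γ' := Γp') (r := r) (T := T)
        (e := e) (h0 := h0) hT he
        (fun x hx => (hh x (habs x hx)).neg) hp hp' (fun x hx => hr x (habs x hx))
        (by rw [abs_of_neg hhs] at h1; exact h1)
        (fun x hx hx2 => hr0 _ (habs x hx) (by rw [abs_of_neg (hneg' x hx)]; exact hx2))
        (fun x hx hx2 hx3 => by
          have := hsp _ (habs x hx) (by rw [abs_of_neg (hneg' x hx)]; exact hx2)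
            ((pos_iff_pos_of_mul_pos hx3).1 hrs)
          linarith)
      have := hneg' T hTT
      rw [abs_of_neg hhs]
      linarith
    · -- r > 0, h > 0 : go left
      have hpos' : ∀ x ∈ Icc (0 : ℝ) T, 0 < h (-x) := fun x hx => by
        have := hsgn (-x) (habs' x hx)
        exact (pos_iff_pos_of_mul_pos this).1 hhs
      have key := exit_lemma (H := fun x => h (-x)) (H' := fun x => -h' (-x))
        (Γ := fun x => -Γp (-x)) (Γ' := fun x => Γp' (-x)) (r := fun x => r (-x)) (T := T)
        (e := e) (h0 := h0) hT he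
        (fun x hx => by
          have := ((hh (-x) (habs' x hx)).comp x (hneg x))
          exact HasDerivAt.congr_deriv (f := fun x => h (-x)) this (by simp))
        (fun x => by
          have := ((hp (-x)).comp x (hneg x)).neg
          exact HasDerivAt.congr_deriv (f := fun x => -Γp (-x)) this (by simp))
        (fun x => hp' _) (fun x hx => by
          have := hr (-x) (habs' x hx)
          exact ContinuousAt.comp (f := fun x : ℝ => -x) this continuous_neg.continuousAt)
        (by simp only [neg_zero]; rw [abs_of_pos hhs] at h1; exact h1)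
        (fun x hx hx2 => hr0 _ (habs' x hx) (by rw [abs_of_pos (hpos' x hx)]; exact hx2))
        (fun x hx hx2 hx3 => by
          simp only [neg_zero] at hx3
          have := hsp _ (habs' x hx) (by rw [abs_of_pos (hpos' x hx)]; exact hx2)
            ((pos_iff_pos_of_mul_pos hx3).1 hrs)
          linarith)
      simp only [neg_zero] at key
      have := hpos' T hTT
      rw [abs_of_pos hhs]
      linarith

namespace Web

variable {W : Web}

/-- Admissible base parameter for the sheets seen from `s`. -/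
structure Base (W : Web) (c φ κ m s p : ℝ) : Prop where
  hc : W.Cone c φ
  hκ : 0 < κ
  hκc : κ ≤ c ^ 2 / 256
  hm : 0 < m
  hmκ : m ≤ κ
  hw : W.Win κ m p
  hcl : ‖W.a p - W.a s‖ ≤ m / 32

namespace Base

variable {c φ κ m s p : ℝ} (B : Base W c φ κ m s p)

include B

theorem coords (v : ℝ) {z : ℂ} (hz : ‖z‖ < m) :
    W.F p + W.G v + z ∈ range W.P ∧
    |(W.Pinv (W.F p + W.G v + z)).1 - p| < κ ∧
    |(W.Pinv (W.F p + W.G v + z)).2 - v| ≤ 2 * κ / c ∧
    W.F (W.Pinv (W.F p + W.G v + z)).1 + W.G (W.Pinv (W.F p + W.G v + z)).2 =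
      W.F p + W.G v + z := by
  obtain ⟨u, w, h1, h2, h3⟩ := box (v := v) B.hc B.hκ B.hm B.hmκ B.hw hz
  have h4 : W.P (u, w) = W.F p + W.G v + z := h3
  rw [← h4, W.Pinv_P]
  exact ⟨mem_range_self _, h1, h2, rfl⟩

theorem small' : 2 * κ / c ≤ c / 128 := by
  have h1 := B.hκc
  have h2 := B.hc.2.1
  have h3 := B.hc.1
  rw [div_le_iff₀ h3]; nlinarith

theorem small : κ ≤ 1 / 256 ∧ 2 * κ / c ≤ 1 / 128 := by
  have h1 := B.hκc
  have h2 := B.hc.2.1
  have h3 := B.hc.1
  constructor
  · nlinarith
  · have := B.small'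
    linarith

/-- The sheet over a base point. -/
noncomputable def sheet (v : ℝ) : Sheet where
  S z := star (W.a s) * W.f (W.F p + W.G v + z) * star (W.b v)
  A z := star (W.a s) * W.a (W.Pinv (W.F p + W.G v + z)).1
  B z := W.b (W.Pinv (W.F p + W.G v + z)).2 * star (W.b v)
  ρ := m / 2
  hρ := by have := B.hm; linarith
  hρ1 := by
    have := B.hmκ
    have := B.small.1
    linarith
  unitA z _ := by rw [norm_mul, norm_star, W.ua, W.ua, one_mul]
  unitB z _ := by rw [norm_mul, norm_star, W.ub, W.ub, one_mul]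
  hS z hz := by
    rw [mem_closedBall_zero_iff] at hz
    obtain ⟨h1, h2, h3, h4⟩ := B.coords v (z := z) (by have := B.hm; linarith)
    rw [← h4, W.hf, h4]
    simp only [mul_assoc]
  hD z hz := by
    rw [mem_closedBall_zero_iff] at hz
    obtain ⟨h1, h2, h3, h4⟩ := B.coords v (z := z) (by have := B.hm; linarith)
    have h5 := W.df (W.Pinv (W.F p + W.G v + z)).1 (W.Pinv (W.F p + W.G v + z)).2
    rw [h4] at h5
    have h6 : HasFDerivAt (fun z : ℂ => W.F p + W.G v + z) (ContinuousLinearMap.id ℝ ℂ) z :=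
      (hasFDerivAt_id z).const_add _
    have h7 := HasFDerivAt.comp z (g := W.f) h5 h6
    let M : ℍ[ℝ] →L[ℝ] ℍ[ℝ] := (ContinuousLinearMap.mul ℝ ℍ[ℝ] (star (W.a s))).comp
      ((ContinuousLinearMap.mul ℝ ℍ[ℝ]).flip (star (W.b v)))
    have h8 := (M.hasFDerivAt).comp z h7
    have e1 : (M ∘ (W.f ∘ fun z : ℂ => W.F p + W.G v + z)) =
        fun z => star (W.a s) * W.f (W.F p + W.G v + z) * star (W.b v) := by
      funext z
      show star (W.a s) * (W.f (W.F p + W.G v + z) * star (W.b v)) = _
      rw [mul_assoc]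
    rw [e1] at h8
    refine h8.congr_fderiv ?_
    ext1 ζ
    show star (W.a s) * (W.a _ * hat ζ * W.b _ * star (W.b v)) = star (W.a s) * W.a _ * hat ζ *
      (W.b _ * star (W.b v))
    simp only [mul_assoc]
  cA z hz := by
    rw [mem_closedBall_zero_iff] at hz
    obtain ⟨h1, h2, h3, h4⟩ := B.coords v (z := z) (by have := B.hm; linarith)
    have e : star (W.a s) * W.a (W.Pinv (W.F p + W.G v + z)).1 - 1 =
        star (W.a s) * (W.a (W.Pinv (W.F p + W.G v + z)).1 - W.a s) := by
      rw [mul_sub, star_mul_self1 (W.ua s)]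
    rw [e, norm_mul, norm_star, W.ua, one_mul]
    have h5 := W.lip_a (W.Pinv (W.F p + W.G v + z)).1 p
    have h6 : ‖W.a (W.Pinv (W.F p + W.G v + z)).1 - W.a s‖ ≤
        ‖W.a (W.Pinv (W.F p + W.G v + z)).1 - W.a p‖ + ‖W.a p - W.a s‖ := by
      have := norm_add_le (W.a (W.Pinv (W.F p + W.G v + z)).1 - W.a p) (W.a p - W.a s)
      rwa [sub_add_sub_cancel] at this
    have := B.hcl
    have := B.small.1
    have := B.hmκ
    linarith
  cB z hz := by
    rw [mem_closedBall_zero_iff] at hz
    obtain ⟨h1, h2, h3, h4⟩ := B.coords v (z := z) (by have := B.hm; linarith)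
    have e : W.b (W.Pinv (W.F p + W.G v + z)).2 * star (W.b v) - 1 =
        (W.b (W.Pinv (W.F p + W.G v + z)).2 - W.b v) * star (W.b v) := by
      rw [sub_mul, self_mul_star1 (W.ub v)]
    rw [e, norm_mul, norm_star, W.ub, mul_one]
    have h5 := W.lip_b (W.Pinv (W.F p + W.G v + z)).2 v
    have := B.small.2
    linarith
  h0 := by
    rw [add_zero, W.hf, mul_assoc, mul_assoc, self_mul_star1 (W.ub v), mul_one]
    have e : star (W.a s) * W.a p - 1 = star (W.a s) * (W.a p - W.a s) := by
      rw [mul_sub, star_mul_self1 (W.ua s)]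
    rw [e, norm_mul, norm_star, W.ua, one_mul]
    have := B.hcl
    linarith

end Base

end Web

end Pool.Agent.Helper253.Emb
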