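import Pool.Agent.Helper253.Emb.Par
import Pool.Agent.Helper253.Rot
import Pool.Agent.Helper253.Transport

set_option autoImplicit false

namespace Pool.Agent.Helper253

open Quaternion Topology Set
open scoped ContDiff NNReal
open Net

/-- The net is a translation net. -/
theorem goursat' {θ1 θ2 : ℂ → ℝ} (smooth1 : ContDiff ℝ ∞ θ1) (smooth2 : ContDiff ℝ ∞ θ2)
    (hd1 : ∀ z, fderiv ℝ θ1 z (ei (θ2 z)) = 0) (hd2 : ∀ z, fderiv ℝ θ2 z (ei (θ1 z)) = 0)
    {α β : ℝ → ℂ} (α_zero : α 0 = 0) (β_zero : β 0 = 0)
    (α_deriv : ∀ t, HasDerivAt α (ei (θ1 (α t))) t)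
    (β_deriv : ∀ t, HasDerivAt β (ei (θ2 (β t))) t) (u v : ℝ) :
    θ1 (α u + β v) = θ1 (α u) ∧ θ2 (α u + β v) = θ2 (β v) := by
  set a : ℝ × ℝ → ℝ := fun p => θ1 (α p.1 + β p.2) - θ1 (α p.1) with ha
  set b : ℝ × ℝ → ℝ := fun p => θ2 (α p.1 + β p.2) - θ2 (β p.2) with hb
  have α_cont : Continuous α := continuous_iff_continuousAt.2 fun t => (α_deriv t).continuousAt
  have β_cont : Continuous β := continuous_iff_continuousAt.2 fun t => (β_deriv t).continuousAt
  have c1 := α_cont
  have c2 := β_cont
  have t1 := smooth1.continuous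
  have t2 := smooth2.continuous
  have hac : Continuous a := by rw [ha]; fun_prop
  have hbc : Continuous b := by rw [hb]; fun_prop
  set T : ℝ := max |u| |v| with hT
  have hα_le : ∀ t, ‖α t‖ ≤ |t| := fun t => by
    have := Emb.Web.lip_of_deriv α_deriv (fun x => (norm_ei _).le) t 0
    rwa [α_zero, sub_zero, sub_zero] at this
  have hβ_le : ∀ t, ‖β t‖ ≤ |t| := fun t => by
    have := Emb.Web.lip_of_deriv β_deriv (fun x => (norm_ei _).le) t 0
    rwa [β_zero, sub_zero, sub_zero] at this
  obtain ⟨K, hK, hK1, hK2⟩ : ∃ K : ℝ, 0 ≤ K ∧ (∀ z, ‖z‖ ≤ 2 * T → ‖fderiv ℝ θ1 z‖ ≤ K) ∧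
      (∀ z, ‖z‖ ≤ 2 * T → ‖fderiv ℝ θ2 z‖ ≤ K) := by
    have f1 : Continuous (fderiv ℝ θ1) := (smooth1.fderiv_right (m := ∞) (by simp)).continuous
    have f2 : Continuous (fderiv ℝ θ2) := (smooth2.fderiv_right (m := ∞) (by simp)).continuous
    have hT0 : 0 ≤ T := (abs_nonneg u).trans (le_max_left _ _)
    obtain ⟨z1, hz1, hm1⟩ := (isCompact_closedBall (0 : ℂ) (2 * T)).exists_isMaxOn
      ⟨0, by rw [Metric.mem_closedBall, dist_self]; linarith⟩ f1.norm.continuousOn
    obtain ⟨z2, hz2, hm2⟩ := (isCompact_closedBall (0 : ℂ) (2 * T)).exists_isMaxOn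
      ⟨0, by rw [Metric.mem_closedBall, dist_self]; linarith⟩ f2.norm.continuousOn
    refine ⟨max ‖fderiv ℝ θ1 z1‖ ‖fderiv ℝ θ2 z2‖, (norm_nonneg _).trans (le_max_left _ _),
      fun z hz => ?_, fun z hz => ?_⟩
    · exact (hm1 (show z ∈ Metric.closedBall (0 : ℂ) (2 * T) by
        rwa [mem_closedBall_zero_iff])).trans (le_max_left _ _)
    · exact (hm2 (show z ∈ Metric.closedBall (0 : ℂ) (2 * T) by
        rwa [mem_closedBall_zero_iff])).trans (le_max_right _ _)
  set w : ℝ × ℝ → ℝ := fun p => Real.exp (-(2 * K * (|p.1| + |p.2|))) with hw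
  have hwc : Continuous w := by rw [hw]; fun_prop
  set m : ℝ × ℝ → ℝ := fun p => max |a p| |b p| * w p with hm
  have hmc : Continuous m := (hac.abs.max hbc.abs).mul hwc
  have hcomp : IsCompact (Icc (-T) T ×ˢ Icc (-T) T) := isCompact_Icc.prod isCompact_Icc
  have huv : (u, v) ∈ Icc (-T) T ×ˢ Icc (-T) T := by
    constructor
    · exact abs_le.1 (le_max_left _ _)
    · exact abs_le.1 (le_max_right _ _)
  obtain ⟨⟨u0, v0⟩, hp0, hmax⟩ := hcomp.exists_isMaxOn ⟨_, huv⟩ hmc.continuousOn
  set M : ℝ := m (u0, v0) with hM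
  have hM0 : 0 ≤ M := mul_nonneg ((abs_nonneg _).trans (le_max_left _ _)) (Real.exp_pos _).le
  have hwe : ∀ p, w p * Real.exp (2 * K * (|p.1| + |p.2|)) = 1 := by
    intro p
    simp only [hw]
    rw [← Real.exp_add]; simp
  have hbound : ∀ p ∈ Icc (-T) T ×ˢ Icc (-T) T,
      |a p| ≤ M * Real.exp (2 * K * (|p.1| + |p.2|)) ∧
      |b p| ≤ M * Real.exp (2 * K * (|p.1| + |p.2|)) := by
    intro p hp
    have h1 : m p ≤ M := hmax hp
    have h2 : max |a p| |b p| ≤ M * Real.exp (2 * K * (|p.1| + |p.2|)) := by
      calc max |a p| |b p| = m p * Real.exp (2 * K * (|p.1| + |p.2|)) := by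
            simp only [hm]; rw [mul_assoc, hwe, mul_one]
        _ ≤ _ := by gcongr
    exact ⟨(le_max_left _ _).trans h2, (le_max_right _ _).trans h2⟩
  -- the sup vanishes
  have hMz : M = 0 := by
    by_contra hne
    have hMpos : 0 < M := lt_of_le_of_ne hM0 (Ne.symm hne)
    have hu0 : |u0| ≤ T := abs_le.2 hp0.1
    have hv0 : |v0| ≤ T := abs_le.2 hp0.2
    have hA : |a (u0, v0)| ≤ M / 2 * Real.exp (2 * K * (|u0| + |v0|)) := by
      have key := half_step (g := fun s => a (u0, s * v0))
        (g' := fun s => fderiv ℝ θ1 (α u0 + β (s * v0)) (v0 • ei (θ2 (β (s * v0)))))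
        (B := fun s => M / 2 * Real.exp (2 * K * (|u0| + s * |v0|)))
        (B' := fun s => M / 2 * (Real.exp (2 * K * (|u0| + s * |v0|)) * (2 * K * |v0|)))
        (fun s => by
          have h1 : HasDerivAt (fun s : ℝ => s * v0) v0 s := by
            simpa using (hasDerivAt_id s).mul_const v0
          have h2 : HasDerivAt (fun s : ℝ => β (s * v0)) (v0 • ei (θ2 (β (s * v0)))) s :=
            HasDerivAt.scomp s (β_deriv (s * v0)) h1
          have h3 := comp_deriv smooth1 (h2.const_add (α u0))
          simp only [ha]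
          exact h3.sub_const _)
        (by simp [ha, β_zero]) (by positivity)
        (fun s => by
          have h1 : HasDerivAt (fun s : ℝ => 2 * K * (|u0| + s * |v0|)) (2 * K * |v0|) s := by
            have := (((hasDerivAt_id s).mul_const |v0|).const_add |u0|).const_mul (2 * K)
            simpa using this
          exact (h1.exp).const_mul (M / 2))
        (fun s hs => by
          have hmem : (u0, s * v0) ∈ Icc (-T) T ×ˢ Icc (-T) T := by
            refine ⟨hp0.1, abs_le.1 ?_⟩
            simp only
            rw [abs_mul, abs_of_nonneg hs.1]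
            have := mul_le_of_le_one_left (abs_nonneg v0) hs.2
            linarith
          have hbb := (hbound _ hmem).2
          have e1 : fderiv ℝ θ1 (α u0 + β (s * v0)) (v0 • ei (θ2 (β (s * v0)))) =
              v0 * fderiv ℝ θ1 (α u0 + β (s * v0))
                (ei (θ2 (β (s * v0))) - ei (θ2 (α u0 + β (s * v0)))) := by
            rw [map_smul, map_sub, hd1, sub_zero, smul_eq_mul]
          rw [e1, abs_mul]
          have e2 : |fderiv ℝ θ1 (α u0 + β (s * v0))
                (ei (θ2 (β (s * v0))) - ei (θ2 (α u0 + β (s * v0))))| ≤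
              K * |b (u0, s * v0)| := by
            rw [← Real.norm_eq_abs]
            refine (ContinuousLinearMap.le_opNorm _ _).trans ?_
            have hpt : ‖α u0 + β (s * v0)‖ ≤ 2 * T := by
              refine (norm_add_le _ _).trans ?_
              have q1 := hα_le u0
              have q2 := hβ_le (s * v0)
              rw [abs_mul, abs_of_nonneg hs.1] at q2
              have q3 := mul_le_of_le_one_left (abs_nonneg v0) hs.2
              linarith
            refine mul_le_mul (hK1 _ hpt) ?_ (norm_nonneg _) hK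
            rw [norm_sub_rev]
            exact ei_lip _ _
          have e3 : |((u0, s * v0) : ℝ × ℝ).2| = s * |v0| := by
            simp only; rw [abs_mul, abs_of_nonneg hs.1]
          rw [e3] at hbb
          simp only at hbb
          calc |v0| * _ ≤ |v0| * (K * (M * Real.exp (2 * K * (|u0| + s * |v0|)))) := by
                refine mul_le_mul_of_nonneg_left (e2.trans ?_) (abs_nonneg _)
                exact mul_le_mul_of_nonneg_left hbb hK
            _ = _ := by ring)
      simpa using key
    have hB : |b (u0, v0)| ≤ M / 2 * Real.exp (2 * K * (|u0| + |v0|)) := by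
      have key := half_step (g := fun s => b (s * u0, v0))
        (g' := fun s => fderiv ℝ θ2 (α (s * u0) + β v0) (u0 • ei (θ1 (α (s * u0)))))
        (B := fun s => M / 2 * Real.exp (2 * K * (s * |u0| + |v0|)))
        (B' := fun s => M / 2 * (Real.exp (2 * K * (s * |u0| + |v0|)) * (2 * K * |u0|)))
        (fun s => by
          have h1 : HasDerivAt (fun s : ℝ => s * u0) u0 s := by
            simpa using (hasDerivAt_id s).mul_const u0
          have h2 : HasDerivAt (fun s : ℝ => α (s * u0)) (u0 • ei (θ1 (α (s * u0)))) s :=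
            HasDerivAt.scomp s (α_deriv (s * u0)) h1
          have h3 := comp_deriv smooth2 (h2.add_const (β v0))
          simp only [hb]
          exact h3.sub_const _)
        (by simp [hb, α_zero]) (by positivity)
        (fun s => by
          have h1 : HasDerivAt (fun s : ℝ => 2 * K * (s * |u0| + |v0|)) (2 * K * |u0|) s := by
            have := (((hasDerivAt_id s).mul_const |u0|).add_const |v0|).const_mul (2 * K)
            simpa using this
          exact (h1.exp).const_mul (M / 2))
        (fun s hs => by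
          have hmem : (s * u0, v0) ∈ Icc (-T) T ×ˢ Icc (-T) T := by
            refine ⟨abs_le.1 ?_, hp0.2⟩
            simp only
            rw [abs_mul, abs_of_nonneg hs.1]
            have := mul_le_of_le_one_left (abs_nonneg u0) hs.2
            linarith
          have hbb := (hbound _ hmem).1
          have e1 : fderiv ℝ θ2 (α (s * u0) + β v0) (u0 • ei (θ1 (α (s * u0)))) =
              u0 * fderiv ℝ θ2 (α (s * u0) + β v0)
                (ei (θ1 (α (s * u0))) - ei (θ1 (α (s * u0) + β v0))) := by
            rw [map_smul, map_sub, hd2, sub_zero, smul_eq_mul]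
          rw [e1, abs_mul]
          have e2 : |fderiv ℝ θ2 (α (s * u0) + β v0)
                (ei (θ1 (α (s * u0))) - ei (θ1 (α (s * u0) + β v0)))| ≤
              K * |a (s * u0, v0)| := by
            rw [← Real.norm_eq_abs]
            refine (ContinuousLinearMap.le_opNorm _ _).trans ?_
            have hpt : ‖α (s * u0) + β v0‖ ≤ 2 * T := by
              refine (norm_add_le _ _).trans ?_
              have q1 := hα_le (s * u0)
              have q2 := hβ_le v0
              rw [abs_mul, abs_of_nonneg hs.1] at q1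
              have q3 := mul_le_of_le_one_left (abs_nonneg u0) hs.2
              linarith
            refine mul_le_mul (hK2 _ hpt) ?_ (norm_nonneg _) hK
            rw [norm_sub_rev]
            exact ei_lip _ _
          have e3 : |((s * u0, v0) : ℝ × ℝ).1| = s * |u0| := by
            simp only; rw [abs_mul, abs_of_nonneg hs.1]
          rw [e3] at hbb
          simp only at hbb
          calc |u0| * _ ≤ |u0| * (K * (M * Real.exp (2 * K * (s * |u0| + |v0|)))) := by
                refine mul_le_mul_of_nonneg_left (e2.trans ?_) (abs_nonneg _)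
                exact mul_le_mul_of_nonneg_left hbb hK
            _ = _ := by ring)
      simpa using key
    have h1 : max |a (u0, v0)| |b (u0, v0)| ≤ M / 2 * Real.exp (2 * K * (|u0| + |v0|)) :=
      max_le hA hB
    have h2 : M ≤ M / 2 := by
      calc M = max |a (u0, v0)| |b (u0, v0)| * w (u0, v0) := rfl
        _ ≤ (M / 2 * Real.exp (2 * K * (|u0| + |v0|))) * w (u0, v0) := by
            apply mul_le_mul_of_nonneg_right h1 (Real.exp_pos _).le
        _ = M / 2 := by
            have := hwe (u0, v0)
            simp only at this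
            rw [mul_assoc, mul_comm (Real.exp _), this, mul_one]
    linarith
  have hfin := hbound (u, v) huv
  rw [hMz] at hfin
  simp only [zero_mul] at hfin
  exact ⟨sub_eq_zero.1 (abs_nonpos_iff.1 hfin.1), sub_eq_zero.1 (abs_nonpos_iff.1 hfin.2)⟩


end Pool.Agent.Helper253
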