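import Pool.Agent.Helper253.Emb.NetGen

set_option autoImplicit false

namespace Pool.Agent.Helper253

open Quaternion Topology Set Filter
open scoped ContDiff NNReal
open Net Emb

theorem strict_growth {g g' : ℝ → ℝ} (hg : ∀ x, HasDerivAt g (g' x) x) (h : ∀ x, 0 < g' x)
    {x y : ℝ} (hxy : x < y) : g x < g y := by
  have hm : StrictMono g := strictMono_of_deriv_pos fun x => by rw [(hg x).deriv]; exact h x
  exact hm hxy

section net

variable {F G : ℝ → ℂ} {θ1 θ2 : ℝ → ℝ} (dF : ∀ u, HasDerivAt F (ei (θ1 u)) u)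
  (dG : ∀ v, HasDerivAt G (ei (θ2 v)) v) (hpos : ∀ u v, 0 < θ1 u - θ2 v)
  (hpi : ∀ u v, θ1 u - θ2 v < Real.pi)

include dF dG hpos hpi

theorem cr_F_pos (v : ℝ) {u u' : ℝ} (h : u < u') : 0 < cr (ei (θ2 v)) (F u' - F u) := by
  have := strict_growth (fun x => Web.hasDerivAt_cr_right (dF x) (ei (θ2 v)))
    (fun x => by rw [cr_ei]; exact Real.sin_pos_of_pos_of_lt_pi (hpos _ _) (hpi _ _)) h
  rw [cr_sub_right]; linarith

theorem cr_G_pos (u : ℝ) {v v' : ℝ} (h : v < v') : 0 < cr (G v' - G v) (ei (θ1 u)) := by
  have := strict_growth (fun x => Web.hasDerivAt_cr_left (dG x) (ei (θ1 u)))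
    (fun x => by rw [cr_ei]; exact Real.sin_pos_of_pos_of_lt_pi (hpos _ _) (hpi _ _)) h
  rw [cr_sub_left]; linarith

theorem cr_GF_pos {u u' v v' : ℝ} (h : u < u') (h' : v < v') :
    0 < cr (G v' - G v) (F u' - F u) := by
  have := strict_growth (fun x => Web.hasDerivAt_cr_left (dG x) (F u' - F u))
    (fun x => cr_F_pos dF dG hpos hpi x h) h'
  rw [cr_sub_left]; linarith

theorem net_inj {u v u' v' : ℝ} (h : F u + G v = F u' + G v') : u = u' ∧ v = v' := by
  have hz : ∀ w : ℂ, cr w (-w) = 0 := fun w => by simp only [cr, Complex.neg_re, Complex.neg_im]; ring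
  have e1 : F u' - F u = -(G v' - G v) := by linear_combination (-1 : ℂ) * h
  have key : ∀ {u v u' v' : ℝ}, F u' - F u = -(G v' - G v) → u < u' → False := by
    intro u v u' v' e1 hu
    rcases lt_trichotomy v v' with h1 | h1 | h1
    · have := cr_GF_pos dF dG hpos hpi hu h1
      rw [e1, hz] at this
      exact lt_irrefl _ this
    · have := cr_F_pos dF dG hpos hpi v hu
      rw [e1, h1, sub_self, neg_zero] at this
      simp [cr] at this
    · have := cr_GF_pos dF dG hpos hpi hu h1
      rw [e1, neg_sub] at this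
      rw [cr_self] at this
      exact lt_irrefl _ this
  rcases lt_trichotomy u u' with hu | hu | hu
  · exact (key e1 hu).elim
  · refine ⟨hu, ?_⟩
    rw [hu, sub_self] at e1
    have e2 : G v' - G v = 0 := by rw [← neg_neg (G v' - G v), ← e1, neg_zero]
    rcases lt_trichotomy v v' with h1 | h1 | h1
    · have := cr_G_pos dF dG hpos hpi u h1
      rw [e2] at this
      simp [cr] at this
    · exact h1
    · have := cr_G_pos dF dG hpos hpi u h1
      have e3 : G v - G v' = 0 := by rw [← neg_sub, e2, neg_zero]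
      rw [e3] at this
      simp [cr] at this
  · exact (key (v := v') (v' := v) (by rw [← neg_sub, e1]; ring) hu).elim

theorem proper_F (hF0 : F 0 = 0) {η : ℝ} (hη : 0 < η) : ∃ ε > 0, ∀ u, ‖F u‖ < ε → |u| < η := by
  have h1 := cr_F_pos dF dG hpos hpi 0 hη
  have h2 := cr_F_pos dF dG hpos hpi 0 (show -η < 0 by linarith)
  refine ⟨min (cr (ei (θ2 0)) (F η - F 0)) (cr (ei (θ2 0)) (F 0 - F (-η))), lt_min h1 h2,
    fun u hu => ?_⟩
  have hle := (cr_le (ei (θ2 0)) (F u))
  rw [norm_ei, one_mul] at hle
  by_contra hcon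
  push Not at hcon
  rcases le_abs.1 hcon with h | h
  · have h3 : cr (ei (θ2 0)) (F η) ≤ cr (ei (θ2 0)) (F u) := by
      rcases eq_or_lt_of_le h with h4 | h4
      · rw [h4]
      · have := cr_F_pos dF dG hpos hpi 0 h4
        rw [cr_sub_right] at this; linarith
    have h5 := lt_of_lt_of_le hu (min_le_left _ _)
    rw [hF0, sub_zero] at h5
    linarith [le_abs_self (cr (ei (θ2 0)) (F u))]
  · have h3 : cr (ei (θ2 0)) (F u) ≤ cr (ei (θ2 0)) (F (-η)) := by
      rcases eq_or_lt_of_le (show u ≤ -η by linarith) with h4 | h4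
      · rw [h4]
      · have := cr_F_pos dF dG hpos hpi 0 h4
        rw [cr_sub_right] at this; linarith
    have h5 := lt_of_lt_of_le hu (min_le_right _ _)
    rw [hF0, zero_sub] at h5
    have h6 : cr (ei (θ2 0)) (-F (-η)) = -cr (ei (θ2 0)) (F (-η)) := by
      simp only [cr, Complex.neg_re, Complex.neg_im]; ring
    rw [h6] at h5
    linarith [neg_le_abs (cr (ei (θ2 0)) (F u))]

theorem proper_G (hG0 : G 0 = 0) {η : ℝ} (hη : 0 < η) : ∃ ε > 0, ∀ u, ‖G u‖ < ε → |u| < η := by
  have h1 := cr_G_pos dF dG hpos hpi 0 hη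
  have h2 := cr_G_pos dF dG hpos hpi 0 (show -η < 0 by linarith)
  refine ⟨min (cr (G η - G 0) (ei (θ1 0))) (cr (G 0 - G (-η)) (ei (θ1 0))), lt_min h1 h2,
    fun u hu => ?_⟩
  have hle := (cr_le (G u) (ei (θ1 0)))
  rw [norm_ei, mul_one] at hle
  by_contra hcon
  push Not at hcon
  rcases le_abs.1 hcon with h | h
  · have h3 : cr (G η) (ei (θ1 0)) ≤ cr (G u) (ei (θ1 0)) := by
      rcases eq_or_lt_of_le h with h4 | h4
      · rw [h4]
      · have := cr_G_pos dF dG hpos hpi 0 h4
        rw [cr_sub_left] at this; linarith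
    have h5 := lt_of_lt_of_le hu (min_le_left _ _)
    rw [hG0, sub_zero] at h5
    linarith [le_abs_self (cr (G u) (ei (θ1 0)))]
  · have h3 : cr (G u) (ei (θ1 0)) ≤ cr (G (-η)) (ei (θ1 0)) := by
      rcases eq_or_lt_of_le (show u ≤ -η by linarith) with h4 | h4
      · rw [h4]
      · have := cr_G_pos dF dG hpos hpi 0 h4
        rw [cr_sub_left] at this; linarith
    have h5 := lt_of_lt_of_le hu (min_le_right _ _)
    rw [hG0, zero_sub] at h5
    have h6 : cr (-G (-η)) (ei (θ1 0)) = -cr (G (-η)) (ei (θ1 0)) := by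
      simp only [cr, Complex.neg_re, Complex.neg_im]; ring
    rw [h6] at h5
    linarith [neg_le_abs (cr (G u) (ei (θ1 0)))]

end net

namespace Imm

variable (S : Imm)

theorem fderiv_A1 (z : ℂ) : fderiv ℝ (S.A 1) z (ei (S.θ1 z)) = 0 := by
  rw [fderiv_ei, S.dA11, S.dA12, smul_smul, smul_smul, ← add_smul, S.kB1, zero_smul]

theorem fderiv_A2 (z : ℂ) : fderiv ℝ (S.A Complex.I) z (ei (S.θ1 z)) = 0 := by
  rw [fderiv_ei, S.dA21, S.dA22, smul_smul, smul_smul, ← add_smul, S.kB2, zero_smul]

theorem fderiv_B1 (z : ℂ) : fderiv ℝ (S.B 1) z (ei (S.θ2 z)) = 0 := by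
  rw [fderiv_ei, S.dB11, S.dB12, smul_smul, smul_smul, ← add_smul, S.kA1, zero_smul]

theorem fderiv_B2 (z : ℂ) : fderiv ℝ (S.B Complex.I) z (ei (S.θ2 z)) = 0 := by
  rw [fderiv_ei, S.dB21, S.dB22, smul_smul, smul_smul, ← add_smul, S.kA2, zero_smul]

theorem B_lin (w z : ℂ) : S.B w z = w.re • S.B 1 z + w.im • S.B Complex.I z := by
  rw [B, dd_lin, add_mul, smul_mul_assoc, smul_mul_assoc]
  rfl

/-- The asymptotic web of an embedded flat plane. -/
theorem exists_web (hemb : Topology.IsEmbedding S.f) :
    ∃ W : Emb.Web, ∀ u v, W.θ1 u - W.θ2 v = S.om (W.F u + W.G v) := by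
  have hs1 : ContDiff ℝ ∞ (fun z => ei (S.θ1 z)) := contDiff_ei.comp S.θ1_smooth
  have hs2 : ContDiff ℝ ∞ (fun z => ei (S.θ2 z)) := contDiff_ei.comp S.θ2_smooth
  obtain ⟨α, α0, dα⟩ := exists_flow hs1 (fun z => (norm_ei _).le) 0
  obtain ⟨β, β0, dβ⟩ := exists_flow hs2 (fun z => (norm_ei _).le) 0
  have hg := goursat' S.θ1_smooth S.θ2_smooth S.d1 S.d2 α0 β0 dα dβ
  have sα : ContDiff ℝ ∞ α := Ode.smooth hs1 dα
  have sβ : ContDiff ℝ ∞ β := Ode.smooth hs2 dβ
  -- constancy of the frames
  have hA1 : ∀ u, S.A 1 (α u) = S.A 1 0 := by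
    intro u
    have h : ∀ u, HasDerivAt (fun u => S.A 1 (α u)) 0 u := by
      intro u
      have h := curve_deriv (S.A_smooth 1) (dα u)
      rwa [S.fderiv_A1] at h
    have := const_of_deriv h u 0
    rwa [α0] at this
  have hA2 : ∀ u, S.A Complex.I (α u) = S.A Complex.I 0 := by
    intro u
    have h : ∀ u, HasDerivAt (fun u => S.A Complex.I (α u)) 0 u := by
      intro u
      have h := curve_deriv (S.A_smooth Complex.I) (dα u)
      rwa [S.fderiv_A2] at h
    have := const_of_deriv h u 0
    rwa [α0] at this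
  have hB1 : ∀ v, S.B 1 (β v) = S.B 1 0 := by
    intro v
    have h : ∀ v, HasDerivAt (fun v => S.B 1 (β v)) 0 v := by
      intro v
      have h := curve_deriv (S.B_smooth 1) (dβ v)
      rwa [S.fderiv_B1] at h
    have := const_of_deriv h v 0
    rwa [β0] at this
  have hB2 : ∀ v, S.B Complex.I (β v) = S.B Complex.I 0 := by
    intro v
    have h : ∀ v, HasDerivAt (fun v => S.B Complex.I (β v)) 0 v := by
      intro v
      have h := curve_deriv (S.B_smooth Complex.I) (dβ v)
      rwa [S.fderiv_B2] at h
    have := const_of_deriv h v 0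
    rwa [β0] at this
  -- the product formula
  have hT1 : ∀ u v, S.T1 (α u + β v) = S.T1 (α u) := by
    intro u v
    have h : ∀ v, HasDerivAt (fun v => S.T1 (α u + β v)) 0 v := by
      intro v
      have h := curve_deriv S.T1_smooth ((dβ v).const_add (α u))
      rw [← (hg u v).2, S.dT1 _ _ (S.d1 _)] at h
      exact h
    have := const_of_deriv h v 0
    rwa [β0, add_zero] at this
  have hdu : ∀ u v, HasDerivAt (fun u => S.f (α u + β v))
      (S.T1 (α u + β v) * S.f (α u + β v)) u := by
    intro u v
    have h := curve_deriv S.smooth ((dα u).add_const (β v))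
    rw [← (hg u v).1, S.T1_eq] at h
    exact h
  have hprod : ∀ u v, S.f (α u + β v) = S.f (α u) * (star (S.f 0) * S.f (β v)) := by
    intro u v
    have h : ∀ u, HasDerivAt (fun u => star (S.f (α u)) * S.f (α u + β v)) 0 u := by
      intro u
      have h1 := hdu u 0
      simp only [β0, add_zero] at h1
      have h2 := (hasDerivAt_star h1).mul (hdu u v)
      refine h2.congr_deriv ?_
      rw [hT1 u v, star_mul, imag_star (S.T1_re _)]
      simp only [mul_neg, neg_mul, mul_assoc]
      exact neg_add_cancel _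
    have h3 := const_of_deriv h u 0
    rw [α0, zero_add] at h3
    rw [← h3, ← mul_assoc, S.fs, one_mul]
  -- normalisation of the frame
  obtain ⟨r, hr, hr1, hr2⟩ := rot2 (ν := S.A 1 0) (η := S.m 0) (S.A_sq1 0) (S.m_re 0) (by
      have h := S.mm 0
      have h2 : ‖S.m 0 * S.m 0‖ = 1 := by rw [h, norm_neg, norm_one]
      rw [norm_mul] at h2
      have h3 := norm_nonneg (S.m 0)
      nlinarith) (by rw [S.mA1, S.A_re])
  have hr3 : S.A Complex.I 0 * r = r * hat Complex.I := by
    rw [← S.mA1, mul_assoc, hr1, ← mul_assoc, hr2, mul_assoc]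
    congr 1
    ext <;> simp [qk_re, qk_imI, qk_imJ, qk_imK, qi_re, qi_imI, qi_imJ, qi_imK]
  have hr1' : S.A 1 0 * r = r * hat 1 := by
    rw [hr1]
    congr 1
  have hrw : ∀ w : ℂ, S.A w 0 * r = r * hat w := by
    intro w
    have e : hat w = w.re • hat 1 + w.im • hat Complex.I := by
      rw [← map_smul, ← map_smul, ← map_add]
      congr 1
      apply Complex.ext <;> simp
    rw [S.A_lin, add_mul, smul_mul_assoc, smul_mul_assoc, hr1', hr3, e, mul_add, mul_smul_comm,
      mul_smul_comm]
  have rs := star_mul_self1 hr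
  have rr := self_mul_star1 hr
  have hpos : ∀ u v, 0 < S.θ1 (α u) - S.θ2 (β v) := fun u v => by
    rw [← (hg u v).1, ← (hg u v).2, S.sub_θ]; exact S.om_pos _
  have hpi : ∀ u v, S.θ1 (α u) - S.θ2 (β v) < Real.pi := fun u v => by
    rw [← (hg u v).1, ← (hg u v).2, S.sub_θ]; exact S.om_lt _
  have hloc : ∀ ε' > 0, ∃ ε > 0, ∀ z, ‖S.f z - S.f 0‖ < ε → ‖z‖ < ε' := by
    intro ε' hε'
    have h1 : Metric.ball (0 : ℂ) ε' ∈ 𝓝 (0 : ℂ) := Metric.ball_mem_nhds _ hε'
    rw [hemb.isInducing.nhds_eq_comap, Filter.mem_comap] at h1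
    obtain ⟨t, ht, hts⟩ := h1
    obtain ⟨ε, hε, hεt⟩ := Metric.mem_nhds_iff.1 ht
    refine ⟨ε, hε, fun z hz => ?_⟩
    have : z ∈ Metric.ball (0 : ℂ) ε' := hts (hεt (by
      rw [Metric.mem_ball, dist_eq_norm]; exact hz))
    rwa [mem_ball_zero_iff] at this
  refine ⟨{ f := S.f
            a := fun u => S.f (α u) * r
            b := fun v => star r * (star (S.f 0) * S.f (β v))
            F := α
            G := β
            θ1 := fun u => S.θ1 (α u)
            θ2 := fun v => S.θ2 (β v)
            sf := S.smooth.differentiable (by simp)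
            hf := fun u v => by
              rw [hprod]
              calc S.f (α u) * (star (S.f 0) * S.f (β v)) =
                  S.f (α u) * (r * star r) * (star (S.f 0) * S.f (β v)) := by rw [rr, mul_one]
                _ = _ := by simp only [mul_assoc]
            ua := fun u => by rw [norm_mul, S.unit, hr, one_mul]
            ub := fun v => by rw [norm_mul, norm_mul, Quaternion.norm_star, Quaternion.norm_star, S.unit, S.unit, hr]; norm_num
            c1 := S.θ1_smooth.comp sα
            c2 := S.θ2_smooth.comp sβ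
            da := fun u => by
              have h := (curve_deriv S.smooth (dα u)).mul_const r
              refine h.congr_deriv ?_
              have e1 : fderiv ℝ S.f (α u) (ei (S.θ1 (α u))) =
                  S.f (α u) * S.A (ei (S.θ1 (α u))) (α u) := S.dd_eq _ _
              have e2 : S.A (ei (S.θ1 (α u))) (α u) = S.A (ei (S.θ1 (α u))) 0 := by
                rw [S.A_lin, hA1, hA2, ← S.A_lin]
              rw [e1, e2, mul_assoc, hrw, mul_assoc]
            db := fun v => by
              have h := ((curve_deriv S.smooth (dβ v)).const_mul (star (S.f 0))).const_mul (star r)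
              refine h.congr_deriv ?_
              have e1 : fderiv ℝ S.f (β v) (ei (S.θ2 (β v))) =
                  S.B (ei (S.θ2 (β v))) (β v) * S.f (β v) := by
                rw [B, mul_assoc, S.sf, mul_one]; rfl
              have e2 : S.B (ei (S.θ2 (β v))) (β v) = S.B (ei (S.θ2 (β v))) 0 := by
                rw [S.B_lin, hB1, hB2, ← S.B_lin]
              have e3 : star r * S.A (ei (S.θ2 (β v))) 0 = hat (ei (S.θ2 (β v))) * star r := by
                have h3 := congrArg (fun q => star r * q * star r) (hrw (ei (S.θ2 (β v))))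
                have h4 : star r * (S.A (ei (S.θ2 (β v))) 0 * r) * star r =
                    star r * (r * hat (ei (S.θ2 (β v)))) * star r := h3
                have e4 : star r * (S.A (ei (S.θ2 (β v))) 0 * r) * star r =
                    star r * S.A (ei (S.θ2 (β v))) 0 * (r * star r) := by simp only [mul_assoc]
                have e5 : star r * (r * hat (ei (S.θ2 (β v)))) * star r =
                    (star r * r) * hat (ei (S.θ2 (β v))) * star r := by simp only [mul_assoc]
                rw [e4, e5, rr, rs, mul_one, one_mul] at h4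
                exact h4
              rw [e1, e2, S.B_eq]
              calc star r * (star (S.f 0) * (S.f 0 * S.A (ei (S.θ2 (β v))) 0 * star (S.f 0) *
                    S.f (β v))) =
                  star r * ((star (S.f 0) * S.f 0) * S.A (ei (S.θ2 (β v))) 0 * (star (S.f 0) *
                    S.f (β v))) := by simp only [mul_assoc]
                _ = (star r * S.A (ei (S.θ2 (β v))) 0) * (star (S.f 0) * S.f (β v)) := by
                    rw [S.sf, one_mul]; simp only [mul_assoc]
                _ = hat (ei (S.θ2 (β v))) * (star r * (star (S.f 0) * S.f (β v))) := by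
                    rw [e3, mul_assoc]
            dF := dα
            dG := dβ
            hpos := hpos
            hpi := hpi
            abi := fun u v u' v' h => by
              have e : ∀ u v, S.f (α u) * r * (star r * (star (S.f 0) * S.f (β v))) =
                  S.f (α u + β v) := fun u v => by
                rw [hprod]
                calc S.f (α u) * r * (star r * (star (S.f 0) * S.f (β v))) =
                  S.f (α u) * (r * star r) * (star (S.f 0) * S.f (β v)) := by simp only [mul_assoc]
                  _ = _ := by rw [rr, mul_one]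
              rw [e, e] at h
              exact net_inj dα dβ hpos hpi (hemb.injective h)
            ea := fun η hη => by
              obtain ⟨ε', hε', h1⟩ := proper_F dα dβ hpos hpi α0 hη
              obtain ⟨ε, hε, h2⟩ := hloc ε' hε'
              refine ⟨ε, hε, fun u hu => h1 u (h2 _ ?_)⟩
              rw [← sub_mul, norm_mul, hr, mul_one, α0] at hu
              exact hu
            eb := fun η hη => by
              obtain ⟨ε', hε', h1⟩ := proper_G dα dβ hpos hpi β0 hη
              obtain ⟨ε, hε, h2⟩ := hloc ε' hε'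
              refine ⟨ε, hε, fun v hv => h1 v (h2 _ ?_)⟩
              rw [← mul_sub, ← mul_sub, norm_mul, norm_mul, Quaternion.norm_star, Quaternion.norm_star, hr, S.unit,
                one_mul, one_mul, β0] at hv
              exact hv },
    fun u v => ?_⟩
  show S.θ1 (α u) - S.θ2 (β v) = S.om (α u + β v)
  rw [← (hg u v).1, ← (hg u v).2, S.sub_θ]

end Imm

end Pool.Agent.Helper253
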