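import Pool.Agent.Helper253.Emb.DCore

set_option autoImplicit false

namespace Pool.Agent.Helper253.Emb

open Quaternion Topology Set Metric Filter
open Pool.Agent.Helper253.Net

/-- The circle subgroup in a horizontal direction. -/
noncomputable def Ep (ψ s : ℝ) : ℍ[ℝ] := Real.cos s • (1 : ℍ[ℝ]) + Real.sin s • hat (ei ψ)

theorem norm_Ep (ψ s : ℝ) : ‖Ep ψ s‖ = 1 := by
  have h1 : ‖Ep ψ s‖ ^ 2 = 1 ^ 2 := by
    rw [norm_sq_eq]
    simp [Ep, ei_re, ei_im]
    have h2 := Real.sin_sq_add_cos_sq s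
    have h3 := Real.sin_sq_add_cos_sq ψ
    linear_combination h2 + Real.sin s ^ 2 * h3
  exact (sq_eq_sq₀ (norm_nonneg _) zero_le_one).1 h1

theorem star_Ep (ψ s : ℝ) : star (Ep ψ s) = Ep ψ (-s) := by
  ext <;> simp [Ep]

theorem hat_sq (ψ : ℝ) : hat (ei ψ) * hat (ei ψ) = -1 := by
  have h3 := Real.sin_sq_add_cos_sq ψ
  ext
  · simp [ei_re, ei_im]; linear_combination (-1) * h3
  · simp
  · simp
  · simp [ei_re, ei_im]; ring

theorem Ep_deriv (ψ s : ℝ) : HasDerivAt (Ep ψ) (hat (ei ψ) * Ep ψ s) s := by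
  have h := ((Real.hasDerivAt_cos s).smul_const (1 : ℍ[ℝ])).add
    ((Real.hasDerivAt_sin s).smul_const (hat (ei ψ)))
  refine HasDerivAt.congr_deriv (f := Ep ψ) h ?_
  rw [Ep, mul_add, mul_smul_comm, mul_smul_comm, hat_sq, mul_one]
  module

theorem Ep_comm (ψ s : ℝ) : hat (ei ψ) * Ep ψ s = Ep ψ s * hat (ei ψ) := by
  rw [Ep, mul_add, add_mul, mul_smul_comm, mul_smul_comm, smul_mul_assoc, smul_mul_assoc, mul_one,
    one_mul]

theorem Ep_zero (ψ : ℝ) : Ep ψ 0 = 1 := by simp [Ep]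

theorem Ep_mul_neg (ψ s : ℝ) : Ep ψ s * Ep ψ (-s) = 1 := by
  rw [← star_Ep, self_mul_star1 (norm_Ep ψ s)]

theorem Ep_neg_mul (ψ s : ℝ) : Ep ψ (-s) * Ep ψ s = 1 := by
  rw [← star_Ep, star_mul_self1 (norm_Ep ψ s)]

theorem Ep_neg_deriv (ψ s : ℝ) :
    HasDerivAt (fun s => Ep ψ (-s)) (-(hat (ei ψ) * Ep ψ (-s))) s := by
  have h := HasDerivAt.scomp s (Ep_deriv ψ (-s)) (hasDerivAt_neg s)
  exact HasDerivAt.congr_deriv (f := fun s => Ep ψ (-s)) h (by simp)

/-- Norm comparison along a monotone primitive, two sided. -/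
theorem norm_mvt_two {E : Type*} [NormedAddCommGroup E] [NormedSpace ℝ E] {f : ℝ → E} {f' : ℝ → E}
    {B B' : ℝ → ℝ} (hf : ∀ x, HasDerivAt f (f' x) x) (h0 : f 0 = 0) (hB0 : B 0 = 0)
    (hB : ∀ x, HasDerivAt B (B' x) x) (hle : ∀ x, ‖f' x‖ ≤ B' x) (x : ℝ) : ‖f x‖ ≤ |B x| := by
  rcases le_total 0 x with h | h
  · exact (norm_mvt hf h0 hB0.ge hB (fun y _ => hle y) x ⟨h, le_refl x⟩).trans (le_abs_self _)
  · have hneg : ∀ x : ℝ, HasDerivAt (fun x : ℝ => -x) (-1) x := fun x => hasDerivAt_neg x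
    have key := norm_mvt (f := fun x => f (-x)) (f' := fun x => -f' (-x))
      (B := fun x => -B (-x)) (B' := fun x => B' (-x)) (r := -x)
      (fun x => by
        have := HasDerivAt.scomp x (hf (-x)) (hneg x)
        exact HasDerivAt.congr_deriv (f := fun x => f (-x)) this (by simp))
      (by simp [h0]) (by simp [hB0])
      (fun x => by
        have := ((hB (-x)).comp x (hneg x)).neg
        exact HasDerivAt.congr_deriv (f := fun x => -B (-x)) this (by simp))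
      (fun y _ => by rw [norm_neg]; exact hle _) (-x) ⟨by linarith, le_refl _⟩
    simp only [neg_neg] at key
    exact key.trans (neg_le_abs _)

/-- The rotation about the vertical axis. -/
noncomputable def Rk (ψ : ℝ) : ℍ[ℝ] := mkq (Real.cos (ψ / 2)) 0 0 (Real.sin (ψ / 2))

theorem norm_Rk (ψ : ℝ) : ‖Rk ψ‖ = 1 := by
  have h1 : ‖Rk ψ‖ ^ 2 = 1 ^ 2 := by
    rw [norm_sq_eq]; simp [Rk]
  exact (sq_eq_sq₀ (norm_nonneg _) zero_le_one).1 h1

/-- Conjugation by the vertical rotation shifts horizontal angles. -/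
theorem Rk_conj (ψ θ : ℝ) : hat (ei θ) * Rk ψ = Rk ψ * hat (ei (θ - ψ)) := by
  have e1 : Real.cos ψ = Real.cos (ψ / 2) ^ 2 - Real.sin (ψ / 2) ^ 2 := by
    have := Real.cos_two_mul' (ψ / 2)
    rwa [mul_div_cancel₀ _ (two_ne_zero' ℝ)] at this
  have e2 : Real.sin ψ = 2 * Real.sin (ψ / 2) * Real.cos (ψ / 2) := by
    have := Real.sin_two_mul (ψ / 2)
    rwa [mul_div_cancel₀ _ (two_ne_zero' ℝ)] at this
  have h3 := Real.sin_sq_add_cos_sq (ψ / 2)
  ext
  · simp [Rk]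
  · simp [Rk, ei_re, ei_im, Real.cos_sub, Real.sin_sub]
    rw [e1, e2]
    linear_combination (-(Real.cos θ * Real.cos (ψ / 2) + Real.sin θ * Real.sin (ψ / 2))) * h3
  · simp [Rk, ei_re, ei_im, Real.cos_sub, Real.sin_sub]
    rw [e1, e2]
    linear_combination (-(Real.sin θ * Real.cos (ψ / 2) - Real.cos θ * Real.sin (ψ / 2))) * h3
  · simp [Rk]

theorem Ep_Rk (ψ s : ℝ) : Ep ψ s * Rk ψ = Rk ψ * Ei s := by
  have e1 : Ei s = Real.cos s • (1 : ℍ[ℝ]) + Real.sin s • hat (ei 0) := by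
    ext <;> simp [Ei, ei_re, ei_im]
  rw [e1, Ep, add_mul, mul_add, smul_mul_assoc, smul_mul_assoc, mul_smul_comm, mul_smul_comm,
    Rk_conj, sub_self, one_mul, mul_one]

theorem star_Rk_hat (ψ θ : ℝ) : star (Rk ψ) * hat (ei θ) = hat (ei (θ - ψ)) * star (Rk ψ) := by
  have h := congrArg (fun q => star (Rk ψ) * q * star (Rk ψ)) (Rk_conj ψ θ)
  have e1 : star (Rk ψ) * (hat (ei θ) * Rk ψ) * star (Rk ψ) =
      star (Rk ψ) * hat (ei θ) * (Rk ψ * star (Rk ψ)) := by simp only [mul_assoc]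
  have e2 : star (Rk ψ) * (Rk ψ * hat (ei (θ - ψ))) * star (Rk ψ) =
      (star (Rk ψ) * Rk ψ) * hat (ei (θ - ψ)) * star (Rk ψ) := by simp only [mul_assoc]
  rw [e1, e2, self_mul_star1 (norm_Rk ψ), star_mul_self1 (norm_Rk ψ), mul_one, one_mul] at h
  exact h

theorem k2_mul_hat {p : ℍ[ℝ]} (h : k2 p = 0) (w : ℂ) : k2 (p * hat w) = w.im • k1 p := by
  have h1 : p.imJ = 0 := congrArg Complex.re h
  have h2 : p.imK = 0 := congrArg Complex.im h
  apply Complex.ext
  · rw [k2_re, Complex.smul_re, k1_re]; simp [h1, h2]; ring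
  · rw [k2_im, Complex.smul_im, k1_im]; simp [h1, h2]; ring

theorem k2_hat_mul {p : ℍ[ℝ]} (h : k2 p = 0) (w : ℂ) :
    k2 (hat w * p) = w.im • (starRingEnd ℂ) (k1 p) := by
  have h1 : p.imJ = 0 := congrArg Complex.re h
  have h2 : p.imK = 0 := congrArg Complex.im h
  apply Complex.ext
  · rw [k2_re, Complex.smul_re, Complex.conj_re, k1_re]; simp [h1, h2]
  · rw [k2_im, Complex.smul_im, Complex.conj_im, k1_im]; simp [h1, h2]

namespace Web

variable (W : Web)

theorem straight_a {ψ c ε : ℝ} (hc : 0 < c) (hε : |ε| = 1)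
    (h : ∀ u, c * ‖ei (W.θ1 u) - ei ψ‖ ≤ ε * Real.sin (W.θ1 u - ψ)) (x s : ℝ) :
    ‖W.a (x + s) - W.a x * Ep ψ s‖ ≤ 1 / c * |cr (ei ψ) (W.F (x + s) - W.F x)| := by
  have key := norm_mvt_two (f := fun s => W.a (x + s) * Ep ψ (-s) - W.a x)
    (f' := fun s => W.a (x + s) * hat (ei (W.θ1 (x + s)) - ei ψ) * Ep ψ (-s))
    (B := fun s => ε / c * cr (ei ψ) (W.F (x + s) - W.F x))
    (B' := fun s => ε / c * Real.sin (W.θ1 (x + s) - ψ))
    (fun s => by
      have := ((hasDerivAt_shift W.da x s).mul (Ep_neg_deriv ψ s)).sub_const (W.a x)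
      refine this.congr_deriv ?_
      rw [map_sub]
      noncomm_ring)
    (by simp [Ep_zero]) (by simp [cr])
    (fun s => by
      have h2 := (hasDerivAt_shift W.dF x s).sub_const (W.F x)
      have h3 := (hasDerivAt_cr_right h2 (ei ψ)).const_mul (ε / c)
      rw [cr_ei] at h3
      exact h3)
    (fun s => by
      rw [norm_mul, norm_mul, W.ua, norm_hat, norm_Ep, one_mul, mul_one]
      have := h (x + s)
      rw [div_mul_eq_mul_div, le_div_iff₀ hc]
      linarith) s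
  have e : W.a (x + s) - W.a x * Ep ψ s = (W.a (x + s) * Ep ψ (-s) - W.a x) * Ep ψ s := by
    rw [sub_mul, mul_assoc, Ep_neg_mul, mul_one]
  rw [e, norm_mul, norm_Ep, mul_one]
  refine key.trans (le_of_eq ?_)
  rw [abs_mul, abs_div, hε, abs_of_pos hc]

theorem straight_b {ψ c ε : ℝ} (hc : 0 < c) (hε : |ε| = 1)
    (h : ∀ u, c * ‖ei (W.θ2 u) - ei ψ‖ ≤ ε * Real.sin (W.θ2 u - ψ)) (x s : ℝ) :
    ‖W.b (x + s) - Ep ψ s * W.b x‖ ≤ 1 / c * |cr (ei ψ) (W.G (x + s) - W.G x)| := by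
  have key := norm_mvt_two (f := fun s => Ep ψ (-s) * W.b (x + s) - W.b x)
    (f' := fun s => Ep ψ (-s) * hat (ei (W.θ2 (x + s)) - ei ψ) * W.b (x + s))
    (B := fun s => ε / c * cr (ei ψ) (W.G (x + s) - W.G x))
    (B' := fun s => ε / c * Real.sin (W.θ2 (x + s) - ψ))
    (fun s => by
      have := ((Ep_neg_deriv ψ s).mul (hasDerivAt_shift W.db x s)).sub_const (W.b x)
      refine this.congr_deriv ?_
      rw [map_sub, Ep_comm]
      noncomm_ring)
    (by simp [Ep_zero]) (by simp [cr])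
    (fun s => by
      have h2 := (hasDerivAt_shift W.dG x s).sub_const (W.G x)
      have h3 := (hasDerivAt_cr_right h2 (ei ψ)).const_mul (ε / c)
      rw [cr_ei] at h3
      exact h3)
    (fun s => by
      rw [norm_mul, norm_mul, W.ub, norm_hat, norm_Ep, one_mul, mul_one]
      have := h (x + s)
      rw [div_mul_eq_mul_div, le_div_iff₀ hc]
      linarith) s
  have e : W.b (x + s) - Ep ψ s * W.b x = Ep ψ s * (Ep ψ (-s) * W.b (x + s) - W.b x) := by
    rw [mul_sub, ← mul_assoc, Ep_mul_neg, one_mul]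
  rw [e, norm_mul, norm_Ep, one_mul]
  refine key.trans (le_of_eq ?_)
  rw [abs_mul, abs_div, hε, abs_of_pos hc]

/-- Two factors asymptotic to parallel circles cannot occur. -/
theorem no_parallel {ψ : ℝ} {x y : ℕ → ℝ} (hx : Tendsto (fun n => |x n|) atTop atTop)
    (hA : ∀ S > 0, ∀ ε > 0, ∃ N, ∀ n ≥ N, ∀ s, |s| ≤ S →
      ‖W.a (x n + s) - W.a (x n) * Ep ψ s‖ ≤ ε)
    (hB : ∀ S > 0, ∀ ε > 0, ∃ N, ∀ n ≥ N, ∀ s, |s| ≤ S →
      ‖W.b (y n + s) - Ep ψ s * W.b (y n)‖ ≤ ε)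
    (n1 : ∃ u, Real.sin (W.θ1 u - ψ) ≠ 0) (n2 : ∃ v, Real.sin (W.θ2 v - ψ) ≠ 0) : False := by
  refine D_core (a := fun u => W.a u * Rk ψ) (b := fun v => star (Rk ψ) * W.b v) (x := x) (y := y)
    (W.cont_a.mul continuous_const) (continuous_const.mul W.cont_b)
    (fun u => by rw [norm_mul, W.ua, norm_Rk, one_mul])
    (fun v => by rw [norm_mul, norm_star, W.ub, norm_Rk, one_mul])
    (fun u v u' v' h => ?_) hx ?_ ?_ ?_ ?_
  · have e : ∀ u v, W.a u * Rk ψ * (star (Rk ψ) * W.b v) = W.a u * W.b v := fun u v => by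
      have : W.a u * Rk ψ * (star (Rk ψ) * W.b v) = W.a u * (Rk ψ * star (Rk ψ)) * W.b v := by
        simp only [mul_assoc]
      rw [this, self_mul_star1 (norm_Rk ψ), mul_one]
    rw [e, e] at h
    exact W.abi _ _ _ _ h
  · intro S hS ε hε
    obtain ⟨N, hN⟩ := hA S hS ε hε
    refine ⟨N, fun n hn s hs => ?_⟩
    have e : W.a (x n + s) * Rk ψ - W.a (x n) * Rk ψ * Ei s =
        (W.a (x n + s) - W.a (x n) * Ep ψ s) * Rk ψ := by
      rw [sub_mul, mul_assoc (W.a (x n)) (Ep ψ s), Ep_Rk, mul_assoc]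
    rw [e, norm_mul, norm_Rk, mul_one]
    exact hN n hn s hs
  · intro S hS ε hε
    obtain ⟨N, hN⟩ := hB S hS ε hε
    refine ⟨N, fun n hn s hs => ?_⟩
    have e0 : Ei s * star (Rk ψ) = star (Rk ψ) * Ep ψ s := by
      have h := congrArg star (Ep_Rk ψ (-s))
      rw [star_mul, star_mul, star_Ep, star_Ei, neg_neg] at h
      exact h.symm
    have e : star (Rk ψ) * W.b (y n + s) - Ei s * (star (Rk ψ) * W.b (y n)) =
        star (Rk ψ) * (W.b (y n + s) - Ep ψ s * W.b (y n)) := by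
      rw [mul_sub, ← mul_assoc (Ei s), e0, mul_assoc]
    rw [e, norm_mul, norm_star, norm_Rk, one_mul]
    exact hN n hn s hs
  · intro q hq
    by_contra hcon
    push Not at hcon
    obtain ⟨u, hu⟩ := n1
    have hd : HasDerivAt (fun u => star q * (W.a u * Rk ψ))
        (star q * (W.a u * Rk ψ) * hat (ei (W.θ1 u - ψ))) u := by
      have := ((W.da u).mul_const (Rk ψ)).const_mul (star q)
      refine this.congr_deriv ?_
      rw [mul_assoc (W.a u), Rk_conj]
      simp only [mul_assoc]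
    have hk := k2.hasFDerivAt.comp_hasDerivAt u hd
    have hz : (⇑k2 ∘ fun u => star q * (W.a u * Rk ψ)) = fun _ => (0 : ℂ) := funext hcon
    rw [hz] at hk
    have h0 := hk.unique (hasDerivAt_const u (0 : ℂ))
    rw [k2_mul_hat (hcon u), ei_im] at h0
    have hn := norm_k (star q * (W.a u * Rk ψ))
    rw [hcon u, norm_mul, norm_mul, norm_star, hq, W.ua, norm_Rk] at hn
    rcases smul_eq_zero.1 h0 with h1 | h1
    · exact hu h1
    · rw [h1] at hn; norm_num at hn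
  · intro q hq
    by_contra hcon
    push Not at hcon
    obtain ⟨v, hv⟩ := n2
    have hd : HasDerivAt (fun v => star (Rk ψ) * W.b v * star q)
        (hat (ei (W.θ2 v - ψ)) * (star (Rk ψ) * W.b v * star q)) v := by
      have := ((W.db v).const_mul (star (Rk ψ))).mul_const (star q)
      refine this.congr_deriv ?_
      rw [← mul_assoc (star (Rk ψ)), star_Rk_hat]
      simp only [mul_assoc]
    have hk := k2.hasFDerivAt.comp_hasDerivAt v hd
    have hz : (⇑k2 ∘ fun v => star (Rk ψ) * W.b v * star q) = fun _ => (0 : ℂ) := funext hcon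
    rw [hz] at hk
    have h0 := hk.unique (hasDerivAt_const v (0 : ℂ))
    rw [k2_hat_mul (hcon v), ei_im] at h0
    have hn := norm_k (star (Rk ψ) * W.b v * star q)
    rw [hcon v, norm_mul, norm_mul, norm_star, norm_star, hq, W.ub, norm_Rk] at hn
    rcases smul_eq_zero.1 h0 with h1 | h1
    · exact hv h1
    · rw [map_eq_zero] at h1
      rw [h1] at hn; norm_num at hn

/-- The angles are not constant. -/
theorem not_const_a (θ : ℝ) : ∃ u, W.θ1 u ≠ θ := by
  by_contra hcon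
  push Not at hcon
  have hd : ∀ u, HasDerivAt (fun u => W.a u * Ep θ (-u)) 0 u := by
    intro u
    have := (W.da u).mul (Ep_neg_deriv θ u)
    refine this.congr_deriv ?_
    rw [hcon u]; noncomm_ring
  have h1 := const_of_deriv hd (2 * Real.pi) 0
  have e1 : Ep θ (-(2 * Real.pi)) = 1 := by simp [Ep]
  have e2 : Ep θ (-0) = 1 := by simp [Ep]
  rw [e1, e2, mul_one, mul_one] at h1
  have := W.a_inj h1
  have := Real.pi_pos
  linarith

theorem not_const_b (θ : ℝ) : ∃ v, W.θ2 v ≠ θ := by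
  by_contra hcon
  push Not at hcon
  have hd : ∀ u, HasDerivAt (fun u => Ep θ (-u) * W.b u) 0 u := by
    intro u
    have := (Ep_neg_deriv θ u).mul (W.db u)
    refine this.congr_deriv ?_
    rw [hcon u, Ep_comm]; noncomm_ring
  have h1 := const_of_deriv hd (2 * Real.pi) 0
  have e1 : Ep θ (-(2 * Real.pi)) = 1 := by simp [Ep]
  have e2 : Ep θ (-0) = 1 := by simp [Ep]
  rw [e1, e2, one_mul, one_mul] at h1
  have := W.b_inj h1
  have := Real.pi_pos
  linarith

end Web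

end Pool.Agent.Helper253.Emb
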