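import Pool.Agent.Helper253.Emb.Sheet
import Pool.Agent.Helper253.Product

set_option autoImplicit false

namespace Pool.Agent.Helper253.Emb

open Quaternion Topology Set Metric
open Pool.Agent.Helper253.Net

theorem norm_mvt {E : Type*} [NormedAddCommGroup E] [NormedSpace ℝ E] {f : ℝ → E} {f' : ℝ → E}
    {B B' : ℝ → ℝ} {r : ℝ} (hf : ∀ x, HasDerivAt f (f' x) x) (h0 : f 0 = 0) (hB0 : 0 ≤ B 0)
    (hB : ∀ x, HasDerivAt B (B' x) x) (hle : ∀ x ∈ Icc (0 : ℝ) r, ‖f' x‖ ≤ B' x) :
    ∀ x ∈ Icc (0 : ℝ) r, ‖f x‖ ≤ B x := by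
  intro x hx
  exact image_norm_le_of_norm_deriv_right_le_deriv_boundary (f := f) (f' := f') (a := 0) (b := r)
    (fun s _ => (hf s).continuousAt.continuousWithinAt) (fun s _ => (hf s).hasDerivWithinAt)
    (B := B) (B' := B') (by rw [h0, norm_zero]; exact hB0) hB
    (fun s hs => hle s ⟨hs.1, hs.2.le⟩) hx

theorem pos_core {E : Type*} [NormedAddCommGroup E] [NormedSpace ℝ E] {y y' S g : ℝ → ℝ}
    {D D' : ℝ → E} {r : ℝ} (hr : 0 ≤ r) (hr1 : r ≤ 1 / 3)
    (hy : ∀ x, HasDerivAt y (y' x) x) (hD : ∀ x, HasDerivAt D (D' x) x)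
    (hS : ∀ x, HasDerivAt S (g x) x) (y0 : y 0 = 0) (D0 : D 0 = 0) (S0 : S 0 = 0)
    (hg : ∀ x, 0 ≤ g x) (h1 : ∀ x, |y' x - 2 * g x| ≤ 2 * ‖D x‖) (h2 : ∀ x, ‖D' x‖ ≤ 2 * |y x|) :
    S r ≤ y r := by
  have hyc : Continuous y := continuous_iff_continuousAt.2 fun x => (hy x).continuousAt
  obtain ⟨r0, hr0, hmax⟩ := (isCompact_Icc (a := (0:ℝ)) (b := r)).exists_isMaxOn
    ⟨0, ⟨le_refl 0, hr⟩⟩ hyc.abs.continuousOn
  set M := |y r0| with hM
  have hMb : ∀ x ∈ Icc (0 : ℝ) r, |y x| ≤ M := fun x hx => hmax hx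
  have hDb : ∀ x ∈ Icc (0 : ℝ) r, ‖D x‖ ≤ 2 * M * x := by
    refine norm_mvt (B := fun x => 2 * M * x) (B' := fun _ => 2 * M * 1) hD D0 (by simp)
      (fun x => ?_) (fun x hx => ?_)
    · exact (hasDerivAt_id x).const_mul (2 * M)
    · have := h2 x
      have := hMb x hx
      linarith
  have hyb : ∀ x ∈ Icc (0 : ℝ) r, ‖y x - 2 * S x‖ ≤ 2 * M * x ^ 2 := by
    refine norm_mvt (f := fun x => y x - 2 * S x) (f' := fun x => y' x - 2 * g x)
      (fun x => (hy x).sub ((hS x).const_mul 2)) (by simp [y0, S0]) (by simp)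
      (fun x => ((hasDerivAt_pow 2 x).const_mul (2 * M))) (fun x hx => ?_)
    have a1 := h1 x
    have a2 := hDb x hx
    rw [Real.norm_eq_abs]
    push_cast
    simp only [Nat.reduceSub, pow_one]
    linarith
  have hSm : Monotone S := monotone_of_deriv_nonneg (fun x => (hS x).differentiableAt)
    (fun x => by rw [(hS x).deriv]; exact hg x)
  have a1 := hyb r0 hr0
  have a2 := hyb r ⟨hr, le_refl r⟩
  have a3 := hSm hr0.2
  have a4 : 0 ≤ S r := by rw [← S0]; exact hSm hr
  have a5 : 0 ≤ S r0 := by rw [← S0]; exact hSm hr0.1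
  have hM0 : 0 ≤ M := abs_nonneg _
  rw [Real.norm_eq_abs] at a1 a2
  have b1 : M ≤ 2 * S r0 + 2 * M * r0 ^ 2 := by
    have : |y r0| ≤ |y r0 - 2 * S r0| + |2 * S r0| := by
      have e : y r0 = (y r0 - 2 * S r0) + 2 * S r0 := by ring
      calc |y r0| = |(y r0 - 2 * S r0) + 2 * S r0| := by rw [← e]
        _ ≤ _ := abs_add_le _ _
    rw [abs_of_nonneg (by positivity : 0 ≤ 2 * S r0)] at this
    linarith
  have b2 : r0 ^ 2 ≤ 1 / 9 := by nlinarith [hr0.1, hr0.2]
  have b3 : r ^ 2 ≤ 1 / 9 := by nlinarith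
  have b4 : M * r0 ^ 2 ≤ M * (1 / 9) := mul_le_mul_of_nonneg_left b2 hM0
  have b5 : M * r ^ 2 ≤ M * (1 / 9) := mul_le_mul_of_nonneg_left b3 hM0
  rw [abs_le] at a2
  nlinarith [a2.1]

theorem pos_two {E : Type*} [NormedAddCommGroup E] [NormedSpace ℝ E] {y y' S g : ℝ → ℝ}
    {D D' : ℝ → E}
    (hy : ∀ x, HasDerivAt y (y' x) x) (hD : ∀ x, HasDerivAt D (D' x) x)
    (hS : ∀ x, HasDerivAt S (g x) x) (y0 : y 0 = 0) (D0 : D 0 = 0) (S0 : S 0 = 0)
    (hg : ∀ x, 0 ≤ g x) (h1 : ∀ x, |y' x - 2 * g x| ≤ 2 * ‖D x‖) (h2 : ∀ x, ‖D' x‖ ≤ 2 * |y x|)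
    (r : ℝ) (hr : |r| ≤ 1 / 3) : (0 ≤ r → S r ≤ y r) ∧ (r ≤ 0 → y r ≤ S r) := by
  rw [abs_le] at hr
  constructor
  · intro h
    exact pos_core h hr.2 hy hD hS y0 D0 S0 hg h1 h2
  · intro h
    have hneg : ∀ x : ℝ, HasDerivAt (fun x : ℝ => -x) (-1) x := fun x => hasDerivAt_neg x
    have key := pos_core (y := fun x => -y (-x)) (y' := fun x => y' (-x)) (S := fun x => -S (-x))
      (g := fun x => g (-x)) (D := fun x => D (-x)) (D' := fun x => -D' (-x)) (r := -r)
      (by linarith) (by linarith) (fun x => by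
        have := ((hy (-x)).comp x (hneg x)).neg
        exact HasDerivAt.congr_deriv (f := fun x => -y (-x)) this (by simp)) (fun x => by
        have := HasDerivAt.scomp x (hD (-x)) (hneg x)
        exact HasDerivAt.congr_deriv (f := fun x => D (-x)) this (by simp)) (fun x => by
        have := ((hS (-x)).comp x (hneg x)).neg
        exact HasDerivAt.congr_deriv (f := fun x => -S (-x)) this (by simp)) (by simp [y0]) (by simp [D0]) (by simp [S0]) (fun x => hg _)
        (fun x => h1 _) (fun x => by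
          simp only [norm_neg, abs_neg]
          exact h2 _)
    simp only [neg_neg] at key
    linarith

theorem cr_sub_left (w w' z : ℂ) : cr (w - w') z = cr w z - cr w' z := by
  simp only [cr, Complex.sub_re, Complex.sub_im]; ring

theorem cr_sub_right (w z z' : ℂ) : cr w (z - z') = cr w z - cr w z' := by
  simp only [cr, Complex.sub_re, Complex.sub_im]; ring

theorem cr_anti (w z : ℂ) : cr w z = -cr z w := by
  simp only [cr]; ring

theorem comm_z (Y : ℍ[ℝ]) (w : ℂ) : zL (Y * hat w - hat w * Y) =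
    (2 * kL Y) • (Complex.I * w) := by
  apply Complex.ext
  · simp [zL_re, kL_apply]; ring
  · simp [zL_im, kL_apply]; ring

theorem comm_k (Y : ℍ[ℝ]) (w : ℂ) : kL (Y * hat w - hat w * Y) = 2 * cr (zL Y) w := by
  simp [kL_apply, cr, zL_re, zL_im]; ring

theorem hasDerivAt_shift {E : Type*} [NormedAddCommGroup E] [NormedSpace ℝ E] {f f' : ℝ → E}
    (hf : ∀ x, HasDerivAt f (f' x) x) (s x : ℝ) :
    HasDerivAt (fun x => f (s + x)) (f' (s + x)) x := by
  have h1 : HasDerivAt (fun x : ℝ => s + x) 1 x := (hasDerivAt_id x).const_add s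
  have := HasDerivAt.scomp x (hf (s + x)) h1
  exact HasDerivAt.congr_deriv (f := fun x => f (s + x)) this (by simp)

theorem star_hat (w : ℂ) : star (hat w) = -hat w := by
  ext <;> simp

/-- Positivity lemma for the first factor curve. -/
theorem pos_a {a : ℝ → ℍ[ℝ]} {F : ℝ → ℂ} {θ : ℝ → ℝ} (ua : ∀ u, ‖a u‖ = 1)
    (da : ∀ u, HasDerivAt a (a u * hat (ei (θ u))) u)
    (dF : ∀ u, HasDerivAt F (ei (θ u)) u) (φ : ℝ) (hs : ∀ u, 0 ≤ Real.sin (θ u - φ))
    (s u : ℝ) (hu : |u - s| ≤ 1 / 3) :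
    (s ≤ u → cr (ei φ) (F u - F s) ≤
      kL (star (star (a s) * a u) * hat (ei φ) * (star (a s) * a u))) ∧
    (u ≤ s → kL (star (star (a s) * a u) * hat (ei φ) * (star (a s) * a u)) ≤
      cr (ei φ) (F u - F s)) := by
  set A : ℝ → ℍ[ℝ] := fun x => star (a s) * a (s + x) with hA
  set Y : ℝ → ℍ[ℝ] := fun x => star (A x) * hat (ei φ) * A x with hY
  have dA : ∀ x, HasDerivAt A (A x * hat (ei (θ (s + x)))) x := by
    intro x
    have := (hasDerivAt_shift da s x).const_mul (star (a s))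
    simp only [hA]
    rw [mul_assoc]
    exact this
  have dY : ∀ x, HasDerivAt Y (Y x * hat (ei (θ (s + x))) - hat (ei (θ (s + x))) * Y x) x := by
    intro x
    have h1 := (((hasDerivAt_star (dA x)).mul_const (hat (ei φ))).mul (dA x))
    refine h1.congr_deriv ?_
    simp only [hY]
    rw [star_mul, star_hat]
    noncomm_ring
  have hA0 : A 0 = 1 := by
    simp only [hA, add_zero]
    exact star_mul_self1 (ua s)
  have key := pos_two (y := fun x => kL (Y x))
    (y' := fun x => 2 * cr (zL (Y x)) (ei (θ (s + x))))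
    (S := fun x => cr (ei φ) (F (s + x) - F s)) (g := fun x => Real.sin (θ (s + x) - φ))
    (D := fun x => zL (Y x) - ei φ)
    (D' := fun x => (2 * kL (Y x)) • (Complex.I * ei (θ (s + x))))
    (fun x => by
      have := kL.hasFDerivAt.comp_hasDerivAt x (dY x)
      rw [comm_k] at this
      exact this)
    (fun x => by
      have := (zL.hasFDerivAt.comp_hasDerivAt x (dY x)).sub_const (ei φ)
      rw [comm_z] at this
      exact this)
    (fun x => by
      have h2 := (hasDerivAt_shift dF s x).sub_const (F s)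
      have h3 := (hasDerivAt_im h2).const_mul (ei φ).re
      have h4 := (hasDerivAt_re h2).const_mul (ei φ).im
      have h5 := h3.sub h4
      rw [← cr_ei]
      exact h5)
    (by simp only [hY, hA0]; simp [kL_apply]) (by
      simp only [hY, hA0]
      rw [star_one, one_mul, mul_one, sub_eq_zero]
      apply Complex.ext <;> simp [zL_re, zL_im]) (by simp [cr]) (fun x => hs _)
    (fun x => by
      rw [← cr_ei, ← mul_sub, ← cr_sub_left, abs_mul, abs_two]
      have := cr_le (zL (Y x) - ei φ) (ei (θ (s + x)))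
      rw [norm_ei, mul_one] at this
      linarith)
    (fun x => by
      rw [norm_smul, norm_mul (Complex.I), Complex.norm_I, norm_ei, Real.norm_eq_abs, abs_mul,
        abs_two]
      simp) (u - s) hu
  have e : s + (u - s) = u := by ring
  simp only [hY, hA, e] at key
  refine ⟨fun h => key.1 (by linarith), fun h => key.2 (by linarith)⟩

/-- Positivity lemma for the second factor curve. -/
theorem pos_b {b : ℝ → ℍ[ℝ]} {G : ℝ → ℂ} {θ : ℝ → ℝ} (ub : ∀ u, ‖b u‖ = 1)
    (db : ∀ u, HasDerivAt b (hat (ei (θ u)) * b u) u)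
    (dG : ∀ u, HasDerivAt G (ei (θ u)) u) (φ : ℝ) (hs : ∀ u, 0 ≤ Real.sin (φ - θ u))
    (v w : ℝ) (hw : |w - v| ≤ 1 / 3) :
    (v ≤ w → cr (G w - G v) (ei φ) ≤
      kL (b w * star (b v) * hat (ei φ) * star (b w * star (b v)))) ∧
    (w ≤ v → kL (b w * star (b v) * hat (ei φ) * star (b w * star (b v))) ≤
      cr (G w - G v) (ei φ)) := by
  set B : ℝ → ℍ[ℝ] := fun x => b (v + x) * star (b v) with hB
  set Y : ℝ → ℍ[ℝ] := fun x => B x * hat (ei φ) * star (B x) with hY
  have dB : ∀ x, HasDerivAt B (hat (ei (θ (v + x))) * B x) x := by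
    intro x
    have := (hasDerivAt_shift db v x).mul_const (star (b v))
    simp only [hB]
    rw [← mul_assoc]
    exact this
  have dY : ∀ x, HasDerivAt Y (-(Y x * hat (ei (θ (v + x))) - hat (ei (θ (v + x))) * Y x)) x := by
    intro x
    have h1 := (((dB x).mul_const (hat (ei φ))).mul (hasDerivAt_star (dB x)))
    refine h1.congr_deriv ?_
    simp only [hY]
    rw [star_mul (hat (ei (θ (v + x)))) (B x), star_hat]
    noncomm_ring
  have hB0 : B 0 = 1 := by
    simp only [hB, add_zero]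
    exact self_mul_star1 (ub v)
  have key := pos_two (y := fun x => kL (Y x))
    (y' := fun x => 2 * cr (ei (θ (v + x))) (zL (Y x)))
    (S := fun x => cr (G (v + x) - G v) (ei φ)) (g := fun x => Real.sin (φ - θ (v + x)))
    (D := fun x => zL (Y x) - ei φ)
    (D' := fun x => -((2 * kL (Y x)) • (Complex.I * ei (θ (v + x)))))
    (fun x => by
      have := kL.hasFDerivAt.comp_hasDerivAt x (dY x)
      rw [map_neg, comm_k, cr_anti, ← mul_neg, neg_neg] at this
      exact this)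
    (fun x => by
      have := (zL.hasFDerivAt.comp_hasDerivAt x (dY x)).sub_const (ei φ)
      rw [map_neg, comm_z] at this
      exact this)
    (fun x => by
      have h2 := (hasDerivAt_shift dG v x).sub_const (G v)
      have h3 := (hasDerivAt_re h2).mul_const (ei φ).im
      have h4 := (hasDerivAt_im h2).mul_const (ei φ).re
      have h5 := h3.sub h4
      rw [← cr_ei]
      exact h5)
    (by simp only [hY, hB0]; simp [kL_apply]) (by
      simp only [hY, hB0]
      rw [star_one, one_mul, mul_one, sub_eq_zero]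
      apply Complex.ext <;> simp [zL_re, zL_im]) (by simp [cr]) (fun x => hs _)
    (fun x => by
      rw [← cr_ei, ← mul_sub, ← cr_sub_right, abs_mul, abs_two]
      have := cr_le (ei (θ (v + x))) (zL (Y x) - ei φ)
      rw [norm_ei, one_mul] at this
      linarith)
    (fun x => by
      rw [norm_neg, norm_smul, norm_mul (Complex.I), Complex.norm_I, norm_ei, Real.norm_eq_abs,
        abs_mul, abs_two]
      simp) (w - v) hw
  have e : v + (w - v) = w := by ring
  simp only [hY, hB, e] at key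
  refine ⟨fun h => key.1 (by linarith), fun h => key.2 (by linarith)⟩

/-- Exit lemma. -/
theorem exit_lemma {H H' Γ Γ' r : ℝ → ℝ} {T e h0 : ℝ} (hT : 0 ≤ T) (he : 0 ≤ e)
    (hH : ∀ x ∈ Icc (0 : ℝ) T, HasDerivAt H (H' x) x) (hΓ : ∀ x, HasDerivAt Γ (Γ' x) x)
    (hΓ' : ∀ x, 0 ≤ Γ' x) (hr : ∀ x ∈ Icc (0 : ℝ) T, ContinuousAt r x) (h1 : H 0 + e * T < h0)
    (hne : ∀ x ∈ Icc (0 : ℝ) T, H x ≤ h0 → r x ≠ 0)
    (hd : ∀ x ∈ Icc (0 : ℝ) T, H x ≤ h0 → 0 < r 0 * r x → H' x ≤ -Γ' x + e) :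
    H T ≤ H 0 - (Γ T - Γ 0) + e * T := by
  have hΓm : Monotone Γ := monotone_of_deriv_nonneg (fun x => (hΓ x).differentiableAt)
    (fun x => by rw [(hΓ x).deriv]; exact hΓ' x)
  -- if the height stays below the level on an initial segment then the estimate holds there
  have step : ∀ x ∈ Icc (0 : ℝ) T, (∀ y ∈ Icc (0 : ℝ) x, H y ≤ h0) →
      H x ≤ H 0 - (Γ x - Γ 0) + e * x := by
    intro x hx hy
    have hsgn : ∀ y ∈ Icc (0 : ℝ) x, 0 < r 0 * r y := by
      intro y hyx
      have h0x : (0 : ℝ) ∈ Icc (0 : ℝ) T := ⟨le_refl 0, hT⟩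
      have hr0 : r 0 ≠ 0 := hne 0 h0x (hy 0 ⟨le_refl 0, hx.1⟩)
      by_contra hcon
      push Not at hcon
      have hcont : ContinuousOn (fun z => r 0 * r z) (Icc 0 y) := fun z hz =>
        (continuousAt_const.mul (hr z ⟨hz.1, hz.2.trans (hyx.2.trans hx.2)⟩)).continuousWithinAt
      have h2 : (0 : ℝ) ∈ Icc (r 0 * r y) (r 0 * r 0) := ⟨hcon, mul_self_nonneg _⟩
      obtain ⟨z, hz, hz0⟩ := intermediate_value_Icc' hyx.1 hcont h2
      have hzx : z ∈ Icc (0 : ℝ) x := ⟨hz.1, hz.2.trans hyx.2⟩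
      have := hne z ⟨hz.1, hzx.2.trans hx.2⟩ (hy z hzx)
      exact (mul_ne_zero hr0 this) hz0
    have hanti : AntitoneOn (fun y => H y + Γ y - e * y) (Icc 0 x) := by
      have hd2 : ∀ y ∈ Icc (0 : ℝ) x, HasDerivAt (fun y => H y + Γ y - e * y)
          (H' y + Γ' y - e * 1) y := fun y hyx =>
        ((hH y ⟨hyx.1, hyx.2.trans hx.2⟩).add (hΓ y)).sub ((hasDerivAt_id y).const_mul e)
      apply antitoneOn_of_deriv_nonpos (convex_Icc _ _)
      · exact fun y hyx => (hd2 y hyx).continuousAt.continuousWithinAt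
      · intro y hyx
        exact (hd2 y (interior_subset hyx)).differentiableAt.differentiableWithinAt
      · intro y hyx
        have hyx' := interior_subset hyx
        rw [(hd2 y hyx').deriv]
        have := hd y ⟨hyx'.1, hyx'.2.trans hx.2⟩ (hy y hyx') (hsgn y hyx')
        linarith
    have := hanti ⟨le_refl 0, hx.1⟩ ⟨hx.1, le_refl x⟩ hx.1
    simp only [mul_zero, sub_zero] at this
    linarith
  apply step T ⟨hT, le_refl T⟩
  -- the level is never reached
  by_contra hcon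
  push Not at hcon
  obtain ⟨y, hy, hyh⟩ := hcon
  have h0T : H 0 < h0 := by nlinarith
  have hHc : ContinuousOn H (Icc 0 T) := fun z hz => (hH z hz).continuousAt.continuousWithinAt
  -- first time reaching the level
  set K : Set ℝ := {z ∈ Icc (0 : ℝ) T | h0 ≤ H z} with hK
  have hKc : IsCompact K := by
    have : K = Icc (0 : ℝ) T ∩ H ⁻¹' Ici h0 := rfl
    rw [this]
    exact isCompact_Icc.of_isClosed_subset (hHc.preimage_isClosed_of_isClosed isClosed_Icc isClosed_Ici)
      inter_subset_left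
  have hKne : K.Nonempty := ⟨y, hy, hyh.le⟩
  obtain ⟨z, hz, hzmin⟩ := hKc.exists_isLeast hKne
  have hlt : ∀ w ∈ Icc (0 : ℝ) z, w < z → H w < h0 := by
    intro w hw hwz
    by_contra hc
    push Not at hc
    have : w ∈ K := ⟨⟨hw.1, hw.2.trans hz.1.2⟩, hc⟩
    exact absurd (hzmin this) (not_le.2 hwz)
  have hz0 : 0 < z := by
    rcases eq_or_lt_of_le hz.1.1 with h | h
    · rw [← h] at hz; exact absurd hz.2 (not_le.2 h0T)
    · exact h
  have hHz : H z ≤ h0 := by
    have hcz : ContinuousAt H z := (hH z hz.1).continuousAt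
    have : ∀ᶠ w in 𝓝[<] z, H w ≤ h0 := by
      filter_upwards [Ioo_mem_nhdsLT hz0] with w hw
      exact (hlt w ⟨hw.1.le, hw.2.le⟩ hw.2).le
    exact le_of_tendsto (hcz.mono_left nhdsWithin_le_nhds) this
  have h3 := step z hz.1 (fun w hw => by
    rcases eq_or_lt_of_le hw.2 with h | h
    · rw [h]; exact hHz
    · exact (hlt w hw h).le)
  have h4 := hΓm hz.1.1
  have h5 : e * z ≤ e * T := mul_le_mul_of_nonneg_left hz.1.2 he
  have := hz.2
  linarith

end Pool.Agent.Helper253.Emb
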