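import Mathlib

set_option autoImplicit false

namespace Pool.Agent.Helper253.Emb

open Quaternion Topology Set Metric

/-- Quaternion from coordinates. -/
def mkq (a b c d : ℝ) : ℍ[ℝ] := ⟨a, b, c, d⟩

@[simp] theorem mkq_re (a b c d : ℝ) : (mkq a b c d).re = a := rfl
@[simp] theorem mkq_imI (a b c d : ℝ) : (mkq a b c d).imI = b := rfl
@[simp] theorem mkq_imJ (a b c d : ℝ) : (mkq a b c d).imJ = c := rfl
@[simp] theorem mkq_imK (a b c d : ℝ) : (mkq a b c d).imK = d := rfl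

/-- The horizontal imaginary quaternion of a complex number. -/
noncomputable def hat : ℂ →L[ℝ] ℍ[ℝ] :=
  LinearMap.toContinuousLinearMap
    { toFun := fun z => mkq 0 z.re z.im 0
      map_add' := fun x y => by ext <;> simp
      map_smul' := fun r x => by ext <;> simp }

@[simp] theorem hat_re (z : ℂ) : (hat z).re = 0 := rfl
@[simp] theorem hat_imI (z : ℂ) : (hat z).imI = z.re := rfl
@[simp] theorem hat_imJ (z : ℂ) : (hat z).imJ = z.im := rfl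
@[simp] theorem hat_imK (z : ℂ) : (hat z).imK = 0 := rfl

/-- The vertical unit. -/
def kq : ℍ[ℝ] := ⟨0, 0, 0, 1⟩

@[simp] theorem kq_re : kq.re = 0 := rfl
@[simp] theorem kq_imI : kq.imI = 0 := rfl
@[simp] theorem kq_imJ : kq.imJ = 0 := rfl
@[simp] theorem kq_imK : kq.imK = 1 := rfl

theorem norm_sq_eq (q : ℍ[ℝ]) : ‖q‖ ^ 2 = q.re ^ 2 + q.imI ^ 2 + q.imJ ^ 2 + q.imK ^ 2 := by
  rw [sq, ← Quaternion.normSq_eq_norm_mul_self, Quaternion.normSq_def']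

theorem norm_hat (z : ℂ) : ‖hat z‖ = ‖z‖ := by
  have h1 : ‖hat z‖ ^ 2 = ‖z‖ ^ 2 := by
    rw [norm_sq_eq, ← Complex.normSq_eq_norm_sq, Complex.normSq_apply]
    simp; ring
  exact (sq_eq_sq₀ (norm_nonneg _) (norm_nonneg _)).1 h1

theorem norm_kq : ‖kq‖ = 1 := by
  have h1 : ‖kq‖ ^ 2 = 1 ^ 2 := by
    rw [norm_sq_eq]; simp
  exact (sq_eq_sq₀ (norm_nonneg _) zero_le_one).1 h1

noncomputable def reL : ℍ[ℝ] →L[ℝ] ℝ :=
  LinearMap.toContinuousLinearMap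
    { toFun := fun q => q.re
      map_add' := fun x y => by simp
      map_smul' := fun r x => by simp }

noncomputable def kL : ℍ[ℝ] →L[ℝ] ℝ :=
  LinearMap.toContinuousLinearMap
    { toFun := fun q => q.imK
      map_add' := fun x y => by simp
      map_smul' := fun r x => by simp }

noncomputable def zL : ℍ[ℝ] →L[ℝ] ℂ :=
  LinearMap.toContinuousLinearMap
    { toFun := fun q => ⟨q.imI, q.imJ⟩
      map_add' := fun x y => by apply Complex.ext <;> simp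
      map_smul' := fun r x => by apply Complex.ext <;> simp }

theorem reL_apply (q : ℍ[ℝ]) : reL q = q.re := rfl
theorem kL_apply (q : ℍ[ℝ]) : kL q = q.imK := rfl
theorem zL_re (q : ℍ[ℝ]) : (zL q).re = q.imI := rfl
theorem zL_im (q : ℍ[ℝ]) : (zL q).im = q.imJ := rfl

theorem decomp (q : ℍ[ℝ]) : q = reL q • (1 : ℍ[ℝ]) + hat (zL q) + kL q • kq := by
  ext <;> simp [reL_apply, kL_apply, zL_re, zL_im]

theorem abs_reL_le (q : ℍ[ℝ]) : |reL q| ≤ ‖q‖ := by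
  apply abs_le_of_sq_le_sq' _ (norm_nonneg _) |> abs_le.2
  rw [norm_sq_eq, reL_apply]; nlinarith [sq_nonneg q.imI, sq_nonneg q.imJ, sq_nonneg q.imK]

theorem abs_kL_le (q : ℍ[ℝ]) : |kL q| ≤ ‖q‖ := by
  apply abs_le_of_sq_le_sq' _ (norm_nonneg _) |> abs_le.2
  rw [norm_sq_eq, kL_apply]; nlinarith [sq_nonneg q.imI, sq_nonneg q.imJ, sq_nonneg q.re]

theorem norm_zL_le (q : ℍ[ℝ]) : ‖zL q‖ ≤ ‖q‖ := by
  apply (sq_le_sq₀ (norm_nonneg _) (norm_nonneg _)).1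
  rw [norm_sq_eq, ← Complex.normSq_eq_norm_sq, Complex.normSq_apply, zL_re, zL_im]
  nlinarith [sq_nonneg q.imK, sq_nonneg q.re]

/-- The inner product of quaternions. -/
noncomputable def ip (x y : ℍ[ℝ]) : ℝ := (x * star y).re

theorem ip_eq (x y : ℍ[ℝ]) : ip x y = x.re * y.re + x.imI * y.imI + x.imJ * y.imJ +
    x.imK * y.imK := by
  simp only [ip, Quaternion.re_mul, Quaternion.re_star, Quaternion.imI_star,
    Quaternion.imJ_star, Quaternion.imK_star]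
  ring

theorem ip_comm (x y : ℍ[ℝ]) : ip x y = ip y x := by
  rw [ip_eq, ip_eq]; ring

theorem ip_add (x y z : ℍ[ℝ]) : ip (x + y) z = ip x z + ip y z := by
  simp only [ip_eq, Quaternion.re_add, Quaternion.imI_add, Quaternion.imJ_add,
    Quaternion.imK_add]; ring

theorem ip_sub (x y z : ℍ[ℝ]) : ip (x - y) z = ip x z - ip y z := by
  simp only [ip_eq, Quaternion.re_sub, Quaternion.imI_sub, Quaternion.imJ_sub,
    Quaternion.imK_sub]; ring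

theorem ip_smul (r : ℝ) (x z : ℍ[ℝ]) : ip (r • x) z = r * ip x z := by
  simp only [ip_eq, Quaternion.re_smul, Quaternion.imI_smul, Quaternion.imJ_smul,
    Quaternion.imK_smul, smul_eq_mul]; ring

theorem abs_ip_le (x y : ℍ[ℝ]) : |ip x y| ≤ ‖x‖ * ‖y‖ := by
  have := abs_real_inner_le_norm x y
  rw [Quaternion.inner_def] at this
  exact this

theorem ip_self (x : ℍ[ℝ]) : ip x x = ‖x‖ ^ 2 := by
  rw [ip_eq, norm_sq_eq]; ring

theorem star_mul_self1 {q : ℍ[ℝ]} (h : ‖q‖ = 1) : star q * q = 1 := by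
  rw [Quaternion.star_mul_self, Quaternion.normSq_eq_norm_mul_self, h]; simp

theorem self_mul_star1 {q : ℍ[ℝ]} (h : ‖q‖ = 1) : q * star q = 1 := by
  rw [Quaternion.self_mul_star, Quaternion.normSq_eq_norm_mul_self, h]; simp

/-- Left and right unit multiplications are isometries for the inner product. -/
theorem ip_mul_right {B : ℍ[ℝ]} (hB : ‖B‖ = 1) (x y : ℍ[ℝ]) : ip (x * B) (y * B) = ip x y := by
  rw [ip, ip, star_mul, mul_assoc, ← mul_assoc B, self_mul_star1 hB, one_mul]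

theorem re_mul_comm (p q : ℍ[ℝ]) : (p * q).re = (q * p).re := by
  simp only [Quaternion.re_mul]; ring

theorem ip_mul_left {A : ℍ[ℝ]} (hA : ‖A‖ = 1) (x y : ℍ[ℝ]) : ip (A * x) (A * y) = ip x y := by
  rw [ip, ip, star_mul, ← mul_assoc, re_mul_comm, mul_assoc, ← mul_assoc, ← mul_assoc,
    star_mul_self1 hA, one_mul]

/-- The two sided multiplication applied to horizontal vectors. -/
noncomputable def lr (A B : ℍ[ℝ]) : ℂ →L[ℝ] ℍ[ℝ] :=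
  LinearMap.toContinuousLinearMap
    { toFun := fun z => A * hat z * B
      map_add' := fun x y => by rw [map_add, mul_add, add_mul]
      map_smul' := fun r x => by
        rw [map_smul, mul_smul_comm, smul_mul_assoc]; rfl }

theorem lr_apply (A B : ℍ[ℝ]) (z : ℂ) : lr A B z = A * hat z * B := rfl

theorem mul_close {A B : ℍ[ℝ]} (hB : ‖B‖ = 1) (x : ℍ[ℝ]) :
    ‖A * x * B - x‖ ≤ (‖A - 1‖ + ‖B - 1‖) * ‖x‖ := by
  have e : A * x * B - x = (A - 1) * x * B + x * (B - 1) := by noncomm_ring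
  rw [e]
  refine (norm_add_le _ _).trans ?_
  rw [norm_mul, norm_mul, norm_mul, hB]
  apply le_of_eq; ring

/-- A small sheet of surface, presented as a product of two nearly trivial unit quaternions. -/
structure Sheet where
  S : ℂ → ℍ[ℝ]
  A : ℂ → ℍ[ℝ]
  B : ℂ → ℍ[ℝ]
  ρ : ℝ
  hρ : 0 < ρ
  hρ1 : ρ ≤ 1 / 64
  unitA : ∀ z ∈ closedBall (0 : ℂ) ρ, ‖A z‖ = 1
  unitB : ∀ z ∈ closedBall (0 : ℂ) ρ, ‖B z‖ = 1
  hS : ∀ z ∈ closedBall (0 : ℂ) ρ, S z = A z * B z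
  hD : ∀ z ∈ closedBall (0 : ℂ) ρ, HasFDerivAt S (lr (A z) (B z)) z
  cA : ∀ z ∈ closedBall (0 : ℂ) ρ, ‖A z - 1‖ ≤ 1 / 64
  cB : ∀ z ∈ closedBall (0 : ℂ) ρ, ‖B z - 1‖ ≤ 1 / 64
  h0 : ‖S 0 - 1‖ ≤ ρ / 16

namespace Sheet

variable (W : Sheet)

/-- The local coordinates over the sheet. -/
noncomputable def Φ (q : ℍ[ℝ]) : ℍ[ℝ] := (1 + reL q) • W.S (zL q) + kL q • kq

/-- The derivative of the local coordinates. -/
noncomputable def DΦ (q : ℍ[ℝ]) : ℍ[ℝ] →L[ℝ] ℍ[ℝ] :=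
  (1 + reL q) • (lr (W.A (zL q)) (W.B (zL q))).comp zL + reL.smulRight (W.S (zL q)) +
    kL.smulRight kq

theorem DΦ_apply (q x : ℍ[ℝ]) : W.DΦ q x = (1 + reL q) • (W.A (zL q) * hat (zL x) * W.B (zL q)) +
    reL x • W.S (zL q) + kL x • kq := rfl

theorem mem_of (q : ℍ[ℝ]) (hq : q ∈ closedBall (0 : ℍ[ℝ]) W.ρ) :
    zL q ∈ closedBall (0 : ℂ) W.ρ := by
  rw [mem_closedBall_zero_iff] at hq ⊢
  exact (norm_zL_le q).trans hq

theorem hasFDerivAt_Φ {q : ℍ[ℝ]} (hq : q ∈ closedBall (0 : ℍ[ℝ]) W.ρ) :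
    HasFDerivAt W.Φ (W.DΦ q) q := by
  have h1 : HasFDerivAt (fun q : ℍ[ℝ] => W.S (zL q)) ((lr (W.A (zL q)) (W.B (zL q))).comp zL) q :=
    (W.hD _ (W.mem_of q hq)).comp q zL.hasFDerivAt
  have h2 : HasFDerivAt (fun q : ℍ[ℝ] => 1 + reL q) reL q := reL.hasFDerivAt.const_add 1
  have h3 : HasFDerivAt (fun q : ℍ[ℝ] => kL q • kq) (kL.smulRight kq) q :=
    kL.hasFDerivAt.smul_const kq
  exact (h2.smul h1).add h3

theorem S_close {z : ℂ} (hz : z ∈ closedBall (0 : ℂ) W.ρ) : ‖W.S z - 1‖ ≤ 1 / 32 := by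
  have e : W.S z - 1 = (W.A z - 1) * W.B z + (W.B z - 1) := by
    rw [W.hS z hz]; noncomm_ring
  rw [e]
  refine (norm_add_le _ _).trans ?_
  rw [norm_mul, W.unitB z hz]
  linarith [W.cA z hz, W.cB z hz]

theorem S_unit {z : ℂ} (hz : z ∈ closedBall (0 : ℂ) W.ρ) : ‖W.S z‖ = 1 := by
  rw [W.hS z hz, norm_mul, W.unitA z hz, W.unitB z hz, one_mul]

theorem DΦ_close {q : ℍ[ℝ]} (hq : q ∈ closedBall (0 : ℍ[ℝ]) W.ρ) :
    ‖W.DΦ q - ContinuousLinearMap.id ℝ ℍ[ℝ]‖ ≤ 1 / 8 := by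
  have hz := W.mem_of q hq
  refine ContinuousLinearMap.opNorm_le_bound _ (by norm_num) fun x => ?_
  have e : (W.DΦ q - ContinuousLinearMap.id ℝ ℍ[ℝ]) x =
      (W.A (zL q) * hat (zL x) * W.B (zL q) - hat (zL x)) +
      reL q • (W.A (zL q) * hat (zL x) * W.B (zL q)) + reL x • (W.S (zL q) - 1) := by
    show W.DΦ q x - x = _
    rw [DΦ_apply]
    have hx := decomp x
    generalize W.A (zL q) * hat (zL x) * W.B (zL q) = u
    conv_lhs => arg 2; rw [hx]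
    module
  rw [e]
  have b1 := mul_close (A := W.A (zL q)) (W.unitB _ hz) (hat (zL x))
  rw [norm_hat] at b1
  have b2 : ‖reL q • (W.A (zL q) * hat (zL x) * W.B (zL q))‖ ≤ 1 / 64 * ‖x‖ := by
    rw [norm_smul, norm_mul, norm_mul, W.unitA _ hz, W.unitB _ hz, norm_hat, one_mul, mul_one]
    have h1 : ‖reL q‖ ≤ 1 / 64 := by
      rw [mem_closedBall_zero_iff] at hq
      exact (abs_reL_le q).trans (hq.trans W.hρ1)
    exact mul_le_mul h1 (norm_zL_le x) (norm_nonneg _) (by norm_num)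
  have b3 : ‖reL x • (W.S (zL q) - 1)‖ ≤ 1 / 32 * ‖x‖ := by
    rw [norm_smul, mul_comm]
    exact mul_le_mul (W.S_close hz) (abs_reL_le x) (norm_nonneg _) (by norm_num)
  have b4 := norm_zL_le x
  have b5 := W.cA _ hz
  have b6 := W.cB _ hz
  have b7 : (‖W.A (zL q) - 1‖ + ‖W.B (zL q) - 1‖) * ‖zL x‖ ≤ 1 / 32 * ‖x‖ := by
    apply mul_le_mul (by linarith) b4 (norm_nonneg _) (by norm_num)
  refine (norm_add₃_le).trans ?_
  linarith [norm_nonneg x]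

theorem approx {p q : ℍ[ℝ]} (hp : p ∈ closedBall (0 : ℍ[ℝ]) W.ρ)
    (hq : q ∈ closedBall (0 : ℍ[ℝ]) W.ρ) : ‖W.Φ p - W.Φ q - (p - q)‖ ≤ 1 / 8 * ‖p - q‖ := by
  have h := (convex_closedBall (0 : ℍ[ℝ]) W.ρ).norm_image_sub_le_of_norm_hasFDerivWithin_le
    (f := fun q => W.Φ q - q) (f' := fun q => W.DΦ q - ContinuousLinearMap.id ℝ ℍ[ℝ])
    (C := 1 / 8) (fun x hx => ((W.hasFDerivAt_Φ hx).sub (hasFDerivAt_id x)).hasFDerivWithinAt)
    (fun x hx => W.DΦ_close hx) hq hp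
  have e : W.Φ p - p - (W.Φ q - q) = W.Φ p - W.Φ q - (p - q) := by abel
  rw [← e]
  exact h

theorem Φ_zero : W.Φ 0 = W.S 0 := by
  simp [Φ]

theorem surj {Q : ℍ[ℝ]} (hQ : Q ∈ closedBall (1 : ℍ[ℝ]) (W.ρ / 2)) :
    ∃ q ∈ closedBall (0 : ℍ[ℝ]) W.ρ, W.Φ q = Q := by
  have hρ := W.hρ
  have hA : ApproximatesLinearOn W.Φ (ContinuousLinearMap.id ℝ ℍ[ℝ]) (closedBall 0 W.ρ)
      (1 / 8 : NNReal) := by
    intro p hp q hq
    have := W.approx hp hq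
    simpa using this
  let R : (ContinuousLinearMap.id ℝ ℍ[ℝ]).NonlinearRightInverse :=
    { toFun := fun y => y
      nnnorm := 1
      bound' := fun y => by simp
      right_inv' := fun y => rfl }
  have h := hA.surjOn_closedBall_of_nonlinearRightInverse R (ε := W.ρ) (b := 0) hρ.le subset_rfl
  have hQ' : Q ∈ closedBall (W.Φ 0) (((R.nnnorm : ℝ)⁻¹ - ((1 / 8 : NNReal) : ℝ)) * W.ρ) := by
    rw [mem_closedBall, dist_eq_norm] at hQ ⊢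
    have e1 : (R.nnnorm : ℝ) = 1 := rfl
    rw [e1, Φ_zero]
    have e2 : Q - W.S 0 = (Q - 1) - (W.S 0 - 1) := by abel
    have e3 : ((1 : ℝ)⁻¹ - ((1 / 8 : NNReal) : ℝ)) * W.ρ = 7 / 8 * W.ρ := by
      push_cast; ring
    rw [e2, e3]
    refine (norm_sub_le _ _).trans ?_
    linarith [W.h0]
  obtain ⟨q, hq, h2⟩ := h hQ'
  exact ⟨q, hq, h2⟩

/-- The inverse coordinates. -/
noncomputable def g (Q : ℍ[ℝ]) : ℍ[ℝ] :=
  open Classical in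
  if h : ∃ q ∈ closedBall (0 : ℍ[ℝ]) W.ρ, W.Φ q = Q then h.choose else 0

theorem g_spec {Q : ℍ[ℝ]} (hQ : Q ∈ closedBall (1 : ℍ[ℝ]) (W.ρ / 2)) :
    W.g Q ∈ closedBall (0 : ℍ[ℝ]) W.ρ ∧ W.Φ (W.g Q) = Q := by
  have h := W.surj hQ
  unfold g
  rw [dif_pos h]
  exact h.choose_spec

theorem sep {p q : ℍ[ℝ]} (hp : p ∈ closedBall (0 : ℍ[ℝ]) W.ρ)
    (hq : q ∈ closedBall (0 : ℍ[ℝ]) W.ρ) : ‖p - q‖ ≤ 2 * ‖W.Φ p - W.Φ q‖ := by
  have h := W.approx hp hq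
  have h2 : ‖p - q‖ ≤ ‖W.Φ p - W.Φ q - (p - q)‖ + ‖W.Φ p - W.Φ q‖ := by
    have e : p - q = -(W.Φ p - W.Φ q - (p - q)) + (W.Φ p - W.Φ q) := by abel
    calc ‖p - q‖ = ‖-(W.Φ p - W.Φ q - (p - q)) + (W.Φ p - W.Φ q)‖ := by rw [← e]
      _ ≤ _ := by
        refine (norm_add_le _ _).trans ?_
        rw [norm_neg]
  linarith [norm_nonneg (W.Φ p - W.Φ q)]

theorem g_Φ {q : ℍ[ℝ]} (hq : q ∈ closedBall (0 : ℍ[ℝ]) W.ρ)
    (hQ : W.Φ q ∈ closedBall (1 : ℍ[ℝ]) (W.ρ / 2)) : W.g (W.Φ q) = q := by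
  obtain ⟨h1, h2⟩ := W.g_spec hQ
  have h3 := W.sep h1 hq
  rw [h2, sub_self, norm_zero, mul_zero] at h3
  exact sub_eq_zero.1 (norm_eq_zero.1 (le_antisymm h3 (norm_nonneg _)))

/-- The inverse is close to the identity. -/
theorem g_approx {Q R : ℍ[ℝ]} (hQ : Q ∈ closedBall (1 : ℍ[ℝ]) (W.ρ / 2))
    (hR : R ∈ closedBall (1 : ℍ[ℝ]) (W.ρ / 2)) :
    ‖W.g Q - W.g R - (Q - R)‖ ≤ 1 / 4 * ‖Q - R‖ := by
  obtain ⟨h1, h2⟩ := W.g_spec hQ
  obtain ⟨h3, h4⟩ := W.g_spec hR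
  have h5 := W.approx h1 h3
  have h6 := W.sep h1 h3
  rw [h2, h4] at h5 h6
  rw [norm_sub_rev]
  linarith

/-- Comparison of two sheets. -/
theorem compare (W V : Sheet) (hρ : W.ρ = V.ρ) {δ : ℝ}
    (hδ : ∀ z ∈ closedBall (0 : ℂ) W.ρ, ‖W.S z - V.S z‖ ≤ δ) {Q R : ℍ[ℝ]}
    (hQ : Q ∈ closedBall (1 : ℍ[ℝ]) (W.ρ / 2)) (hR : R ∈ closedBall (1 : ℍ[ℝ]) (V.ρ / 2)) :
    ‖W.g Q - V.g R‖ ≤ 2 * ‖Q - R‖ + 4 * δ := by
  obtain ⟨h1, h2⟩ := W.g_spec hQ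
  obtain ⟨h3, h4⟩ := V.g_spec hR
  have h3' : V.g R ∈ closedBall (0 : ℍ[ℝ]) W.ρ := by rw [hρ]; exact h3
  have h5 := W.sep h1 h3'
  have h6 : ‖W.Φ (V.g R) - V.Φ (V.g R)‖ ≤ 2 * δ := by
    have e : W.Φ (V.g R) - V.Φ (V.g R) =
        (1 + reL (V.g R)) • (W.S (zL (V.g R)) - V.S (zL (V.g R))) := by
      unfold Φ; module
    rw [e, norm_smul]
    have b1 := hδ _ (W.mem_of _ h3')
    have b2 : ‖1 + reL (V.g R)‖ ≤ 2 := by
      refine (norm_add_le _ _).trans ?_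
      rw [mem_closedBall_zero_iff] at h3'
      have := (abs_reL_le (V.g R)).trans (h3'.trans W.hρ1)
      rw [norm_one, Real.norm_eq_abs]
      linarith
    exact mul_le_mul b2 b1 (norm_nonneg _) (by norm_num)
  have h7 : ‖W.Φ (W.g Q) - W.Φ (V.g R)‖ ≤ ‖Q - R‖ + 2 * δ := by
    rw [h2]
    have e : Q - W.Φ (V.g R) = (Q - R) - (W.Φ (V.g R) - V.Φ (V.g R)) := by rw [h4]; abel
    rw [e]
    refine (norm_sub_le _ _).trans ?_
    linarith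
  linarith

/-- The derivative is invertible. -/
theorem exists_equiv {q : ℍ[ℝ]} (hq : q ∈ closedBall (0 : ℍ[ℝ]) W.ρ) :
    ∃ L : ℍ[ℝ] ≃L[ℝ] ℍ[ℝ], (L : ℍ[ℝ] →L[ℝ] ℍ[ℝ]) = W.DΦ q := by
  have hinj : Function.Injective (W.DΦ q : ℍ[ℝ] →ₗ[ℝ] ℍ[ℝ]) := by
    rw [← LinearMap.ker_eq_bot, LinearMap.ker_eq_bot']
    intro x hx
    have hx' : W.DΦ q x = 0 := hx
    have h1 := (W.DΦ q - ContinuousLinearMap.id ℝ ℍ[ℝ]).le_opNorm x
    have h2 : (W.DΦ q - ContinuousLinearMap.id ℝ ℍ[ℝ]) x = -x := by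
      show W.DΦ q x - x = -x
      rw [hx', zero_sub]
    rw [h2, norm_neg] at h1
    have h3 := W.DΦ_close hq
    have h4 : ‖x‖ ≤ 1 / 8 * ‖x‖ := h1.trans (mul_le_mul_of_nonneg_right h3 (norm_nonneg _))
    have h5 : ‖x‖ = 0 := by linarith [norm_nonneg x]
    exact norm_eq_zero.1 h5
  refine ⟨(LinearEquiv.ofInjectiveEndo (W.DΦ q : ℍ[ℝ] →ₗ[ℝ] ℍ[ℝ]) hinj).toContinuousLinearEquiv,
    ?_⟩
  ext x : 1
  rfl

theorem g_cont {Q : ℍ[ℝ]} (hQ : Q ∈ ball (1 : ℍ[ℝ]) (W.ρ / 2)) : ContinuousAt W.g Q := by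
  have hnhds : ball (1 : ℍ[ℝ]) (W.ρ / 2) ∈ 𝓝 Q := isOpen_ball.mem_nhds hQ
  rw [Metric.continuousAt_iff]
  intro ε hε
  obtain ⟨r, hr, hr2⟩ := Metric.mem_nhds_iff.1 hnhds
  refine ⟨min r (ε / 2), lt_min hr (by positivity), fun R hR => ?_⟩
  have h1 : R ∈ closedBall (1 : ℍ[ℝ]) (W.ρ / 2) :=
    ball_subset_closedBall (hr2 (lt_of_lt_of_le hR (min_le_left _ _)))
  have h2 := W.g_approx h1 (ball_subset_closedBall hQ)
  have h3 : ‖R - Q‖ < ε / 2 := by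
    rw [← dist_eq_norm]; exact lt_of_lt_of_le hR (min_le_right _ _)
  rw [dist_eq_norm]
  have h4 : ‖W.g R - W.g Q‖ ≤ ‖W.g R - W.g Q - (R - Q)‖ + ‖R - Q‖ := by
    have e : W.g R - W.g Q = (W.g R - W.g Q - (R - Q)) + (R - Q) := by abel
    calc ‖W.g R - W.g Q‖ = ‖(W.g R - W.g Q - (R - Q)) + (R - Q)‖ := by rw [← e]
      _ ≤ _ := norm_add_le _ _
  linarith [norm_nonneg (R - Q)]

/-- The velocity equation over a sheet. -/
theorem g_deriv {E : ℝ → ℍ[ℝ]} {E' : ℍ[ℝ]} {σ : ℝ} (hE : HasDerivAt E E' σ)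
    (hQ : E σ ∈ ball (1 : ℍ[ℝ]) (W.ρ / 2)) :
    ∃ y' : ℍ[ℝ], HasDerivAt (fun σ => W.g (E σ)) y' σ ∧ W.DΦ (W.g (E σ)) y' = E' := by
  have hQ' := ball_subset_closedBall hQ
  obtain ⟨h1, h2⟩ := W.g_spec hQ'
  obtain ⟨L, hL⟩ := W.exists_equiv h1
  have hΦ : HasFDerivAt W.Φ (L : ℍ[ℝ] →L[ℝ] ℍ[ℝ]) (W.g (E σ)) := by
    rw [hL]; exact W.hasFDerivAt_Φ h1
  have hg : HasFDerivAt W.g (L.symm : ℍ[ℝ] →L[ℝ] ℍ[ℝ]) (E σ) := by
    refine HasFDerivAt.of_local_left_inverse (W.g_cont hQ) hΦ ?_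
    filter_upwards [isOpen_ball.mem_nhds hQ] with R hR
    exact (W.g_spec (ball_subset_closedBall hR)).2
  refine ⟨L.symm E', hg.comp_hasDerivAt σ hE, ?_⟩
  rw [← hL]
  exact L.apply_symm_apply E'

/-- The slope of the height along a curve. -/
theorem height_deriv {E : ℝ → ℍ[ℝ]} {E' : ℍ[ℝ]} {σ : ℝ} (hE : HasDerivAt E E' σ)
    (hQ : E σ ∈ ball (1 : ℍ[ℝ]) (W.ρ / 2)) :
    ∃ h' : ℝ, HasDerivAt (fun σ => kL (W.g (E σ))) h' σ ∧
      ip E' (W.A (zL (W.g (E σ))) * kq * W.B (zL (W.g (E σ)))) =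
        h' * ip kq (W.A (zL (W.g (E σ))) * kq * W.B (zL (W.g (E σ)))) := by
  obtain ⟨y', hy, h2⟩ := W.g_deriv hE hQ
  have h1 := (W.g_spec (ball_subset_closedBall hQ)).1
  have hz := W.mem_of _ h1
  refine ⟨kL y', kL.hasFDerivAt.comp_hasDerivAt σ hy, ?_⟩
  set z := zL (W.g (E σ)) with hzdef
  rw [← h2, DΦ_apply, ip_add, ip_add, ip_smul, ip_smul, ip_smul, ← hzdef]
  have e1 : ip (W.A z * hat (zL y') * W.B z) (W.A z * kq * W.B z) = 0 := by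
    rw [ip_mul_right (W.unitB z hz), ip_mul_left (W.unitA z hz), ip_eq]
    simp
  have e2 : ip (W.S z) (W.A z * kq * W.B z) = 0 := by
    rw [W.hS z hz, ip_mul_right (W.unitB z hz)]
    have : W.A z = W.A z * 1 := (mul_one _).symm
    nth_rewrite 1 [this]
    rw [ip_mul_left (W.unitA z hz), ip_eq]
    simp
  rw [e1, e2]
  ring

theorem ip_k_lower {z : ℂ} (hz : z ∈ closedBall (0 : ℂ) W.ρ) :
    1 / 2 ≤ ip kq (W.A z * kq * W.B z) ∧ ip kq (W.A z * kq * W.B z) ≤ 1 := by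
  have h1 := mul_close (A := W.A z) (W.unitB z hz) kq
  rw [norm_kq, mul_one] at h1
  have h2 : ip kq (W.A z * kq * W.B z) = 1 + ip kq (W.A z * kq * W.B z - kq) := by
    rw [ip_comm kq (_ - _), ip_sub, ip_comm _ kq, ip_self, norm_kq]; ring
  have h3 := abs_ip_le kq (W.A z * kq * W.B z - kq)
  rw [norm_kq, one_mul] at h3
  have h4 := abs_ip_le kq (W.A z * kq * W.B z)
  rw [norm_mul, norm_mul, W.unitA z hz, W.unitB z hz, norm_kq] at h4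
  have h5 := W.cA z hz
  have h6 := W.cB z hz
  rw [abs_le] at h3 h4
  constructor <;> linarith [h3.1, h4.2]

/-- A point over the sheet of height zero and norm one lies on the sheet. -/
theorem on_sheet {Q : ℍ[ℝ]} (hQ : Q ∈ closedBall (1 : ℍ[ℝ]) (W.ρ / 2)) (h1 : ‖Q‖ = 1)
    (h : kL (W.g Q) = 0) : ∃ z ∈ closedBall (0 : ℂ) W.ρ, Q = W.S z := by
  obtain ⟨h2, h3⟩ := W.g_spec hQ
  have hz := W.mem_of _ h2
  refine ⟨_, hz, ?_⟩
  unfold Φ at h3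
  rw [h, zero_smul, add_zero] at h3
  have h4 : ‖(1 + reL (W.g Q)) • W.S (zL (W.g Q))‖ = 1 := by rw [h3, h1]
  rw [norm_smul, W.S_unit hz, mul_one, Real.norm_eq_abs] at h4
  have h5 : -(1 / 64) ≤ reL (W.g Q) := by
    rw [mem_closedBall_zero_iff] at h2
    have := (abs_reL_le (W.g Q)).trans (h2.trans W.hρ1)
    exact (abs_le.1 this).1
  rw [abs_of_pos (by linarith)] at h4
  rw [h4, one_smul] at h3
  exact h3.symm

/-- The point in terms of its coordinates. -/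
theorem g_eq {Q : ℍ[ℝ]} (hQ : Q ∈ closedBall (1 : ℍ[ℝ]) (W.ρ / 2)) :
    (1 + reL (W.g Q)) • W.S (zL (W.g Q)) + kL (W.g Q) • kq = Q := (W.g_spec hQ).2

end Sheet

end Pool.Agent.Helper253.Emb
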