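import Pool.Agent.Helper253.Emb.Pos

set_option autoImplicit false

namespace Pool.Agent.Helper253.Emb

open Quaternion Topology Set Metric
open scoped ContDiff
open Pool.Agent.Helper253.Net

/-- A flat surface presented in asymptotic coordinates, with embeddedness data. -/
structure Web where
  f : ℂ → ℍ[ℝ]
  a : ℝ → ℍ[ℝ]
  b : ℝ → ℍ[ℝ]
  F : ℝ → ℂ
  G : ℝ → ℂ
  θ1 : ℝ → ℝ
  θ2 : ℝ → ℝ
  sf : Differentiable ℝ f
  hf : ∀ u v, f (F u + G v) = a u * b v
  ua : ∀ u, ‖a u‖ = 1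
  ub : ∀ v, ‖b v‖ = 1
  c1 : ContDiff ℝ ∞ θ1
  c2 : ContDiff ℝ ∞ θ2
  da : ∀ u, HasDerivAt a (a u * hat (ei (θ1 u))) u
  db : ∀ v, HasDerivAt b (hat (ei (θ2 v)) * b v) v
  dF : ∀ u, HasDerivAt F (ei (θ1 u)) u
  dG : ∀ v, HasDerivAt G (ei (θ2 v)) v
  hpos : ∀ u v, 0 < θ1 u - θ2 v
  hpi : ∀ u v, θ1 u - θ2 v < Real.pi
  abi : ∀ u v u' v', a u * b v = a u' * b v' → u = u' ∧ v = v'
  ea : ∀ η > 0, ∃ ε > 0, ∀ u, ‖a u - a 0‖ < ε → |u| < η
  eb : ∀ η > 0, ∃ ε > 0, ∀ v, ‖b v - b 0‖ < ε → |v| < η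

namespace Web

variable (W : Web)

theorem sin_pos (u v : ℝ) : 0 < Real.sin (W.θ1 u - W.θ2 v) :=
  Real.sin_pos_of_pos_of_lt_pi (W.hpos u v) (W.hpi u v)

/-- The flat coordinates. -/
def P (p : ℝ × ℝ) : ℂ := W.F p.1 + W.G p.2

theorem lip_of_deriv {E : Type*} [NormedAddCommGroup E] [NormedSpace ℝ E] {f f' : ℝ → E}
    (hf : ∀ x, HasDerivAt f (f' x) x) (h : ∀ x, ‖f' x‖ ≤ 1) (x y : ℝ) :
    ‖f x - f y‖ ≤ |x - y| := by
  have := Convex.norm_image_sub_le_of_norm_hasDerivWithin_le (f := f)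
    (f' := f') (s := univ) (C := 1) (x := y) (y := x)
    (fun x _ => (hf x).hasDerivWithinAt) (fun x _ => h x) convex_univ (mem_univ _) (mem_univ _)
  rwa [one_mul, Real.norm_eq_abs] at this

theorem lip_a (u u' : ℝ) : ‖W.a u - W.a u'‖ ≤ |u - u'| :=
  lip_of_deriv W.da (fun x => by rw [norm_mul, W.ua, norm_hat, norm_ei, one_mul]) u u'

theorem lip_b (u u' : ℝ) : ‖W.b u - W.b u'‖ ≤ |u - u'| :=
  lip_of_deriv W.db (fun x => by rw [norm_mul, W.ub, norm_hat, norm_ei, one_mul]) u u'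

theorem lip_F (u u' : ℝ) : ‖W.F u - W.F u'‖ ≤ |u - u'| :=
  lip_of_deriv W.dF (fun x => by rw [norm_ei]) u u'

theorem lip_G (u u' : ℝ) : ‖W.G u - W.G u'‖ ≤ |u - u'| :=
  lip_of_deriv W.dG (fun x => by rw [norm_ei]) u u'

theorem cont_a : Continuous W.a := continuous_iff_continuousAt.2 fun x => (W.da x).continuousAt
theorem cont_b : Continuous W.b := continuous_iff_continuousAt.2 fun x => (W.db x).continuousAt
theorem cont_F : Continuous W.F := continuous_iff_continuousAt.2 fun x => (W.dF x).continuousAt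
theorem cont_G : Continuous W.G := continuous_iff_continuousAt.2 fun x => (W.dG x).continuousAt

theorem cont_P : Continuous W.P := by
  have := W.cont_F
  have := W.cont_G
  unfold P
  fun_prop

theorem P_inj : Function.Injective W.P := by
  intro p q h
  have h1 : W.f (W.F p.1 + W.G p.2) = W.f (W.F q.1 + W.G q.2) := congrArg W.f h
  rw [W.hf, W.hf] at h1
  obtain ⟨e1, e2⟩ := W.abi _ _ _ _ h1
  exact Prod.ext e1 e2

/-- Expansion in the asymptotic basis. -/
theorem cramer (θ φ : ℝ) (h : Real.sin (θ - φ) ≠ 0) (z : ℂ) :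
    z = (cr (ei φ) z / Real.sin (θ - φ)) • ei θ + (cr z (ei θ) / Real.sin (θ - φ)) • ei φ := by
  rw [Real.sin_sub] at h ⊢
  apply Complex.ext
  · simp only [Complex.add_re, Complex.smul_re, ei_re, ei_im, cr, smul_eq_mul]
    rw [div_mul_eq_mul_div, div_mul_eq_mul_div, ← add_div, eq_div_iff h]
    ring
  · simp only [Complex.add_im, Complex.smul_im, ei_re, ei_im, cr, smul_eq_mul]
    rw [div_mul_eq_mul_div, div_mul_eq_mul_div, ← add_div, eq_div_iff h]
    ring

theorem strict_F (u : ℝ) : HasStrictDerivAt W.F (ei (W.θ1 u)) u :=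
  hasStrictDerivAt_of_hasDerivAt_of_continuousAt (Filter.Eventually.of_forall W.dF)
    (contDiff_ei.continuous.comp W.c1.continuous).continuousAt

theorem strict_G (u : ℝ) : HasStrictDerivAt W.G (ei (W.θ2 u)) u :=
  hasStrictDerivAt_of_hasDerivAt_of_continuousAt (Filter.Eventually.of_forall W.dG)
    (contDiff_ei.continuous.comp W.c2.continuous).continuousAt

theorem P_open : IsOpenMap W.P := by
  rw [isOpenMap_iff_nhds_le]
  intro p
  have h1 : HasStrictFDerivAt (fun q : ℝ × ℝ => W.F q.1)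
      ((ContinuousLinearMap.toSpanSingleton ℝ (ei (W.θ1 p.1))).comp
        (ContinuousLinearMap.fst ℝ ℝ ℝ)) p :=
    (W.strict_F p.1).hasStrictFDerivAt.comp p hasStrictFDerivAt_fst
  have h2 : HasStrictFDerivAt (fun q : ℝ × ℝ => W.G q.2)
      ((ContinuousLinearMap.toSpanSingleton ℝ (ei (W.θ2 p.2))).comp
        (ContinuousLinearMap.snd ℝ ℝ ℝ)) p :=
    (W.strict_G p.2).hasStrictFDerivAt.comp p hasStrictFDerivAt_snd
  have h3 : HasStrictFDerivAt W.P _ p := h1.add h2
  refine le_of_eq (h3.map_nhds_eq_of_surj ?_).symm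
  rw [LinearMap.range_eq_top]
  intro z
  have h4 := cramer (W.θ1 p.1) (W.θ2 p.2) (W.sin_pos p.1 p.2).ne' z
  refine ⟨(cr (ei (W.θ2 p.2)) z / Real.sin (W.θ1 p.1 - W.θ2 p.2),
    cr z (ei (W.θ1 p.1)) / Real.sin (W.θ1 p.1 - W.θ2 p.2)), ?_⟩
  exact h4.symm

noncomputable def Pinv : ℂ → ℝ × ℝ := Function.invFun W.P

theorem Pinv_P (p : ℝ × ℝ) : W.Pinv (W.P p) = p := Function.leftInverse_invFun W.P_inj p

theorem P_Pinv {z : ℂ} (h : z ∈ range W.P) : W.P (W.Pinv z) = z := by
  obtain ⟨p, rfl⟩ := h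
  rw [W.Pinv_P]

theorem Pinv_cont {z : ℂ} (h : z ∈ range W.P) : ContinuousAt W.Pinv z := by
  obtain ⟨p, rfl⟩ := h
  intro U hU
  rw [W.Pinv_P] at hU
  have h2 := W.P_open.image_mem_nhds hU
  rw [Filter.mem_map]
  filter_upwards [h2] with w hw
  obtain ⟨q, hq, rfl⟩ := hw
  rw [mem_preimage, W.Pinv_P]
  exact hq

/-- The differential of the surface in asymptotic coordinates. -/
theorem df (u v : ℝ) : HasFDerivAt W.f (lr (W.a u) (W.b v)) (W.F u + W.G v) := by
  have hL := (W.sf (W.F u + W.G v)).hasFDerivAt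
  set L := fderiv ℝ W.f (W.F u + W.G v) with hLdef
  have h1 : L (ei (W.θ1 u)) = lr (W.a u) (W.b v) (ei (W.θ1 u)) := by
    have e1 : HasDerivAt (fun u => W.f (W.F u + W.G v)) (L (ei (W.θ1 u))) u :=
      HasFDerivAt.comp_hasDerivAt (f := fun u => W.F u + W.G v) u hL ((W.dF u).add_const _)
    have e2 : HasDerivAt (fun u => W.a u * W.b v) (W.a u * hat (ei (W.θ1 u)) * W.b v) u :=
      (W.da u).mul_const _
    have e3 : (fun u => W.f (W.F u + W.G v)) = fun u => W.a u * W.b v :=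
      funext fun u => W.hf u v
    rw [e3] at e1
    exact e1.unique e2
  have h2 : L (ei (W.θ2 v)) = lr (W.a u) (W.b v) (ei (W.θ2 v)) := by
    have e1 : HasDerivAt (fun v => W.f (W.F u + W.G v)) (L (ei (W.θ2 v))) v :=
      HasFDerivAt.comp_hasDerivAt (f := fun v => W.F u + W.G v) v hL ((W.dG v).const_add _)
    have e2 : HasDerivAt (fun v => W.a u * W.b v) (W.a u * (hat (ei (W.θ2 v)) * W.b v)) v :=
      (W.db v).const_mul _
    have e3 : (fun v => W.f (W.F u + W.G v)) = fun v => W.a u * W.b v :=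
      funext fun v => W.hf u v
    rw [e3] at e1
    rw [e1.unique e2, lr_apply, mul_assoc]
  have h3 : L = lr (W.a u) (W.b v) := by
    ext1 z
    rw [cramer (W.θ1 u) (W.θ2 v) (W.sin_pos u v).ne' z, map_add, map_add, map_smul, map_smul,
      map_smul, map_smul, h1, h2]
  rw [h3] at hL
  exact hL

/-- Growth of real functions. -/
theorem growth {g g' : ℝ → ℝ} {C : ℝ} (hg : ∀ x, HasDerivAt g (g' x) x) (h : ∀ x, C ≤ g' x)
    {x y : ℝ} (hxy : x ≤ y) : C * (y - x) ≤ g y - g x :=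
  mul_sub_le_image_sub_of_le_deriv (fun x => (hg x).differentiableAt)
    (fun x => by rw [(hg x).deriv]; exact h x) hxy

theorem hasDerivAt_cr_left {g : ℝ → ℂ} {g' : ℂ} {x : ℝ} (h : HasDerivAt g g' x) (z : ℂ) :
    HasDerivAt (fun x => cr (g x) z) (cr g' z) x := by
  have h3 := (hasDerivAt_re h).mul_const z.im
  have h4 := (hasDerivAt_im h).mul_const z.re
  exact h3.sub h4

theorem hasDerivAt_cr_right {g : ℝ → ℂ} {g' : ℂ} {x : ℝ} (h : HasDerivAt g g' x) (z : ℂ) :
    HasDerivAt (fun x => cr z (g x)) (cr z g') x := by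
  have h3 := (hasDerivAt_im h).const_mul z.re
  have h4 := (hasDerivAt_re h).const_mul z.im
  exact h3.sub h4

/-- Growth of the cross product along the second curve. -/
theorem cross_growth {m : ℝ} {z : ℂ} (h : ∀ v, m ≤ cr (ei (W.θ2 v)) z) {v w : ℝ} (hvw : v ≤ w) :
    m * (w - v) ≤ cr (W.G w - W.G v) z := by
  have := growth (fun x => hasDerivAt_cr_left (W.dG x) z) (fun x => h x) hvw
  rw [cr_sub_left]
  exact this

/-- The barrier at one side of the window. -/
theorem barrier {m : ℝ} {z : ℂ} (h : ∀ v, m ≤ cr (ei (W.θ2 v)) z) (v w : ℝ) :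
    m ≤ ‖z + W.G w - W.G v‖ := by
  rcases lt_trichotomy v w with hvw | hvw | hvw
  · have h1 := W.cross_growth h hvw.le
    have h2 : cr (W.G w - W.G v) z = cr (W.G w - W.G v) (z + W.G w - W.G v) := by
      simp only [cr, Complex.sub_re, Complex.sub_im, Complex.add_re, Complex.add_im]; ring
    rw [h2] at h1
    have h3 := (le_abs_self _).trans (cr_le (W.G w - W.G v) (z + W.G w - W.G v))
    have h4 := W.lip_G w v
    rw [abs_of_pos (by linarith)] at h4
    have h5 : (w - v) * m ≤ (w - v) * ‖z + W.G w - W.G v‖ := by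
      have := mul_le_mul_of_nonneg_right h4 (norm_nonneg (z + W.G w - W.G v))
      linarith
    exact le_of_mul_le_mul_left h5 (by linarith)
  · rw [hvw, add_sub_cancel_right]
    have h3 := (h w).trans ((le_abs_self _).trans (cr_le (ei (W.θ2 w)) z))
    rwa [norm_ei, one_mul] at h3
  · have h1 := W.cross_growth h hvw.le
    have h2 : cr (W.G v - W.G w) z = cr (W.G v - W.G w) (z + W.G w - W.G v) := by
      simp only [cr, Complex.sub_re, Complex.sub_im, Complex.add_re, Complex.add_im]; ring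
    rw [h2] at h1
    have h3 := (le_abs_self _).trans (cr_le (W.G v - W.G w) (z + W.G w - W.G v))
    have h4 := W.lip_G v w
    rw [abs_of_pos (by linarith)] at h4
    have h5 : (v - w) * m ≤ (v - w) * ‖z + W.G w - W.G v‖ := by
      have := mul_le_mul_of_nonneg_right h4 (norm_nonneg (z + W.G w - W.G v))
      linarith
    exact le_of_mul_le_mul_left h5 (by linarith)

/-- The window condition. -/
def Win (κ m p : ℝ) : Prop :=
  (∀ v, m ≤ cr (ei (W.θ2 v)) (W.F (p + κ) - W.F p)) ∧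
  (∀ v, m ≤ cr (ei (W.θ2 v)) (W.F p - W.F (p - κ)))

/-- The cone condition. -/
def Cone (c φ : ℝ) : Prop := 0 < c ∧ c ≤ 1 ∧ ∀ v, c ≤ Real.cos (W.θ2 v - φ)

variable {W}

theorem Cone.growG {c φ : ℝ} (hc : W.Cone c φ) {v w : ℝ} (h : v ≤ w) :
    c * (w - v) ≤ cr (W.G w - W.G v) (ei (φ + Real.pi / 2)) := by
  refine W.cross_growth (fun v => ?_) h
  rw [cr_ei]
  have : φ + Real.pi / 2 - W.θ2 v = Real.pi / 2 - (W.θ2 v - φ) := by ring
  rw [this, Real.sin_pi_div_two_sub]
  exact hc.2.2 v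

theorem Cone.normG {c φ : ℝ} (hc : W.Cone c φ) (v w : ℝ) : c * |w - v| ≤ ‖W.G w - W.G v‖ := by
  rcases le_total v w with h | h
  · have h1 := (hc.growG h).trans ((le_abs_self _).trans (cr_le _ _))
    rw [norm_ei, mul_one] at h1
    rwa [abs_of_nonneg (by linarith)]
  · have h1 := (hc.growG h).trans ((le_abs_self _).trans (cr_le _ _))
    rw [norm_ei, mul_one, norm_sub_rev] at h1
    rwa [abs_sub_comm, abs_of_nonneg (by linarith)]

/-- The ball about a base point is covered by the box. -/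
theorem box {c φ κ m p v : ℝ} (hc : W.Cone c φ) (hκ : 0 < κ) (hm : 0 < m) (hmκ : m ≤ κ)
    (hw : W.Win κ m p) {z : ℂ} (hz : ‖z‖ < m) :
    ∃ u w, |u - p| < κ ∧ |w - v| ≤ 2 * κ / c ∧ W.F u + W.G w = W.F p + W.G v + z := by
  have hc0 := hc.1
  set R : ℝ := 2 * κ / c with hR
  have hR0 : 0 < R := by positivity
  set V : Set ℂ := W.P '' (Ioo (p - κ) (p + κ) ×ˢ Ioo (v - R) (v + R)) with hV
  set K : Set ℂ := W.P '' (Icc (p - κ) (p + κ) ×ˢ Icc (v - R) (v + R)) with hK
  have hVo : IsOpen V := W.P_open _ (isOpen_Ioo.prod isOpen_Ioo)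
  have hKc : IsClosed K := ((isCompact_Icc.prod isCompact_Icc).image W.cont_P).isClosed
  have hVK : V ⊆ K := image_mono (prod_mono Ioo_subset_Icc_self Ioo_subset_Icc_self)
  have hcl : closure V ⊆ K := closure_minimal hVK hKc
  have hsub : ball (W.F p + W.G v) m ⊆ V := by
    refine (convex_ball _ _).isPreconnected.subset_of_closure_inter_subset hVo ?_ ?_
    · refine ⟨W.F p + W.G v, mem_ball_self hm, ?_⟩
      exact ⟨(p, v), ⟨⟨by simp only; linarith, by simp only; linarith⟩,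
        ⟨by simp only; linarith, by simp only; linarith⟩⟩, rfl⟩
    · rintro y ⟨hy1, hy2⟩
      obtain ⟨⟨u, w⟩, ⟨hu, hw'⟩, hy⟩ := hcl hy1
      simp only at hu hw'
      have hy' : W.F u + W.G w = y := hy
      rw [mem_ball, dist_eq_norm, ← hy'] at hy2
      have hu1 : u ≠ p + κ := by
        rintro rfl
        have := W.barrier hw.1 v w
        have e : W.F (p + κ) - W.F p + W.G w - W.G v = W.F (p + κ) + W.G w - (W.F p + W.G v) := by
          ring
        rw [e] at this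
        linarith
      have hu2 : u ≠ p - κ := by
        rintro rfl
        have := W.barrier hw.2 w v
        have e : W.F p - W.F (p - κ) + W.G v - W.G w =
          -(W.F (p - κ) + W.G w - (W.F p + W.G v)) := by ring
        rw [e, norm_neg] at this
        linarith
      have hFu : ‖W.F u - W.F p‖ ≤ κ := by
        refine (W.lip_F u p).trans ?_
        rw [abs_le]; constructor <;> linarith [hu.1, hu.2]
      have hw2 : |w - v| < R := by
        have h1 := hc.normG v w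
        have h2 : ‖W.G w - W.G v‖ ≤ ‖W.F u + W.G w - (W.F p + W.G v)‖ + ‖W.F u - W.F p‖ := by
          have e : W.G w - W.G v = (W.F u + W.G w - (W.F p + W.G v)) - (W.F u - W.F p) := by ring
          rw [e]
          exact norm_sub_le _ _
        have h3 : c * |w - v| < c * R := by
          have : c * R = 2 * κ := by rw [hR]; field_simp
          rw [this]; linarith
        exact lt_of_mul_lt_mul_left h3 hc0.le
      rw [abs_lt] at hw2
      refine ⟨(u, w), ⟨⟨lt_of_le_of_ne hu.1 (Ne.symm hu2), lt_of_le_of_ne hu.2 hu1⟩,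
        ⟨by simp only; linarith [hw2.1], by simp only; linarith [hw2.2]⟩⟩, hy⟩
  have hz' : W.F p + W.G v + z ∈ ball (W.F p + W.G v) m := by
    rw [mem_ball, dist_eq_norm, add_sub_cancel_left]; exact hz
  obtain ⟨⟨u, w⟩, ⟨hu, hw'⟩, hy⟩ := hsub hz'
  simp only at hu hw'
  refine ⟨u, w, ?_, ?_, hy⟩
  · rw [abs_lt]; constructor <;> linarith [hu.1, hu.2]
  · rw [abs_le]; constructor <;> linarith [hw'.1, hw'.2]

end Web

end Pool.Agent.Helper253.Emb
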